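import Mathlib

set_option autoImplicit false

namespace Pool.Agent.H820Z.MatInter

open Finset

variable {α : Type*} [DecidableEq α]

/-- An abstract matroid rank function on finite sets. -/
structure IsRk (r : Finset α → ℤ) : Prop where
  empty : r ∅ = 0
  mono : ∀ X Y, X ⊆ Y → r X ≤ r Y
  submod : ∀ X Y, r (X ∪ Y) + r (X ∩ Y) ≤ r X + r Y
  single : ∀ e, r {e} ≤ 1

lemma IsRk.nonneg {r : Finset α → ℤ} (h : IsRk r) (X : Finset α) : 0 ≤ r X := by
  have := h.mono ∅ X (empty_subset _)
  rw [h.empty] at this; exact this

lemma IsRk.insert_le {r : Finset α → ℤ} (h : IsRk r) (e : α) (X : Finset α) :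
    r (insert e X) ≤ r X + r {e} := by
  have h1 := h.submod {e} X
  have h2 := h.nonneg ({e} ∩ X)
  rw [← insert_eq] at h1
  omega

lemma IsRk.contract {r : Finset α → ℤ} (h : IsRk r) (e : α) (he : r {e} = 1) :
    IsRk (fun X => r (insert e X) - 1) where
  empty := by simp [he]
  mono := fun X Y hXY => by
    have := h.mono _ _ (insert_subset_insert e hXY); omega
  submod := fun X Y => by
    have := h.submod (insert e X) (insert e Y)
    have e1 : insert e X ∪ insert e Y = insert e (X ∪ Y) := by
      ext x; simp only [mem_union, mem_insert]; tauto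
    have e2 : insert e X ∩ insert e Y = insert e (X ∩ Y) := by
      ext x; simp only [mem_inter, mem_insert]; tauto
    rw [e1, e2] at this; omega
  single := fun f => by
    have h1 := h.insert_le e {f}
    have h2 := h.single f
    omega

/-- The matroid intersection theorem for abstract rank functions. -/
theorem inter (S : Finset α) : ∀ (r₁ r₂ : Finset α → ℤ) (k : ℤ), IsRk r₁ → IsRk r₂ → 0 ≤ k →
    (∀ A ⊆ S, k ≤ r₁ A + r₂ (S \ A)) →
    ∃ I ⊆ S, (I.card : ℤ) = k ∧ r₁ I = k ∧ r₂ I = k := by
  induction S using Finset.induction_on with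
  | empty =>
    intro r₁ r₂ k h₁ h₂ hk H
    have := H ∅ (Subset.refl _)
    simp only [sdiff_self, bot_eq_empty, h₁.empty, h₂.empty] at this
    refine ⟨∅, Subset.refl _, ?_, ?_, ?_⟩
    · simp; omega
    · rw [h₁.empty]; omega
    · rw [h₂.empty]; omega
  | insert e S heS ih =>
    intro r₁ r₂ k h₁ h₂ hk H
    by_cases hdel : ∀ A ⊆ S, k ≤ r₁ A + r₂ (S \ A)
    · obtain ⟨I, hI, h⟩ := ih r₁ r₂ k h₁ h₂ hk hdel
      exact ⟨I, hI.trans (subset_insert _ _), h⟩
    push Not at hdel
    obtain ⟨A, hAS, hA⟩ := hdel
    have heA : e ∉ A := fun h => heS (hAS h)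
    have eq1 : insert e S \ insert e A = S \ A := by
      ext x; simp only [mem_sdiff, mem_insert]
      constructor
      · rintro ⟨h1 | h1, h2⟩
        · exact absurd (Or.inl h1) h2
        · exact ⟨h1, fun h => h2 (Or.inr h)⟩
      · rintro ⟨h1, h2⟩
        refine ⟨Or.inr h1, ?_⟩
        rintro (h | h)
        · exact heS (h ▸ h1)
        · exact h2 h
    have eq2 : ∀ B ⊆ S, insert e S \ B = insert e (S \ B) := by
      intro B hB
      ext x; simp only [mem_sdiff, mem_insert]
      constructor
      · rintro ⟨h1 | h1, h2⟩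
        · exact Or.inl h1
        · exact Or.inr ⟨h1, h2⟩
      · rintro (h1 | ⟨h1, h2⟩)
        · exact ⟨Or.inl h1, fun h => heS (hB (h1 ▸ h))⟩
        · exact ⟨Or.inr h1, h2⟩
    have he1 : r₁ {e} = 1 := by
      have a1 := H (insert e A) (insert_subset_insert e hAS)
      rw [eq1] at a1
      have a2 := h₁.insert_le e A
      have a3 := h₁.single e
      omega
    have he2 : r₂ {e} = 1 := by
      have a1 := H A (hAS.trans (subset_insert _ _))
      rw [eq2 A hAS] at a1
      have a2 := h₂.insert_le e (S \ A)
      have a3 := h₂.single e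
      omega
    have hk1 : 1 ≤ k := by
      have := h₁.nonneg A
      have := h₂.nonneg (S \ A)
      omega
    by_cases hcon : ∀ B ⊆ S, k - 1 ≤ (r₁ (insert e B) - 1) + (r₂ (insert e (S \ B)) - 1)
    · obtain ⟨I, hI, hc, g1, g2⟩ := ih _ _ (k - 1) (h₁.contract e he1) (h₂.contract e he2)
        (by omega) hcon
      refine ⟨insert e I, insert_subset_insert e hI, ?_, ?_, ?_⟩
      · rw [card_insert_of_notMem (fun h => heS (hI h))]; push_cast; omega
      · omega
      · omega
    push Not at hcon
    obtain ⟨B, hBS, hB⟩ := hcon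
    exfalso
    have s1 := h₁.submod A (insert e B)
    have s2 := h₂.submod (S \ A) (insert e (S \ B))
    have t1 := H (insert e (A ∪ B)) (insert_subset_insert e (union_subset hAS hBS))
    have t2 := H (A ∩ B) (inter_subset_left.trans (hAS.trans (subset_insert _ _)))
    have u1 : A ∪ insert e B = insert e (A ∪ B) := by
      ext x; simp only [mem_union, mem_insert]; tauto
    have u2 : A ∩ insert e B = A ∩ B := by
      ext x; simp only [mem_inter, mem_insert]
      constructor
      · rintro ⟨h1, h2 | h2⟩
        · exact absurd (h2 ▸ h1) heA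
        · exact ⟨h1, h2⟩
      · rintro ⟨h1, h2⟩; exact ⟨h1, Or.inr h2⟩
    have u3 : S \ A ∪ insert e (S \ B) = insert e S \ (A ∩ B) := by
      rw [eq2 _ (inter_subset_left.trans hAS)]
      ext x; simp only [mem_union, mem_insert, mem_sdiff, mem_inter]; tauto
    have u4 : S \ A ∩ insert e (S \ B) = insert e S \ insert e (A ∪ B) := by
      ext x; simp only [mem_union, mem_insert, mem_sdiff, mem_inter]
      constructor
      · rintro ⟨⟨h1, h2⟩, h3 | ⟨_, h3⟩⟩
        · exact absurd (h3 ▸ h1) heS
        · refine ⟨Or.inr h1, ?_⟩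
          rintro (h | h | h)
          · exact heS (h ▸ h1)
          · exact h2 h
          · exact h3 h
      · rintro ⟨h1 | h1, h2⟩
        · exact absurd (Or.inl h1) h2
        · exact ⟨⟨h1, fun h => h2 (Or.inr (Or.inl h))⟩,
            Or.inr ⟨h1, fun h => h2 (Or.inr (Or.inr h))⟩⟩
    rw [u1, u2] at s1
    rw [u3, u4] at s2
    omega

lemma IsRk.dual [Fintype α] {r : Finset α → ℤ} (h : IsRk r) :
    IsRk (fun X => (X.card : ℤ) + r (univ \ X) - r univ) where
  empty := by simp
  mono := fun X Y hXY => by
    have key : ∀ (Z W : Finset α), r (Z ∪ W) ≤ r W + Z.card := by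
      intro Z W
      induction Z using Finset.induction_on with
      | empty => simp
      | insert e Z he ih =>
        rw [insert_union, card_insert_of_notMem he]
        have := h.insert_le e (Z ∪ W)
        have := h.single e
        push_cast; omega
    have h1 := key (Y \ X) (univ \ Y)
    have h2 : Y \ X ∪ univ \ Y = univ \ X := by
      ext x; simp only [mem_union, mem_sdiff, mem_univ, true_and]
      constructor
      · rintro (h | h)
        · exact h.2
        · exact fun hx => h (hXY hx)
      · intro hx; by_cases hy : x ∈ Y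
        · exact Or.inl ⟨hy, hx⟩
        · exact Or.inr hy
    rw [h2] at h1
    have h3 := card_sdiff_add_card_eq_card hXY
    omega
  submod := fun X Y => by
    have h1 := h.submod (univ \ X) (univ \ Y)
    have e1 : univ \ X ∪ univ \ Y = univ \ (X ∩ Y) := by
      ext x; simp only [mem_union, mem_sdiff, mem_univ, true_and, mem_inter]; tauto
    have e2 : univ \ X ∩ (univ \ Y) = univ \ (X ∪ Y) := by
      ext x; simp only [mem_union, mem_sdiff, mem_univ, true_and, mem_inter]; tauto
    rw [e1, e2] at h1
    have h2 := card_union_add_card_inter X Y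
    omega
  single := fun e => by
    have := h.mono (univ \ {e}) univ (subset_univ _)
    simp only [card_singleton, Nat.cast_one]
    omega

end Pool.Agent.H820Z.MatInter
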