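import Mathlib
import Pool.Agent.H820Z.MatInter

set_option autoImplicit false

namespace Pool.Agent.H820Z.Borsuk

open Finset Pool.Agent.H820Z.MatInter

variable {n : ℕ}

/-- integer valued rank -/
noncomputable def rk (M : Matroid (Fin n)) (X : Finset (Fin n)) : ℤ := ((M.eRk (X : Set _)).toNat : ℤ)

lemma eRk_ne_top (M : Matroid (Fin n)) (X : Set (Fin n)) : M.eRk X ≠ ⊤ :=
  ne_top_of_le_ne_top (Set.toFinite X).encard_lt_top.ne (M.eRk_le_encard X)

lemma eRk_eq (M : Matroid (Fin n)) (X : Set (Fin n)) :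
    M.eRk X = ((M.eRk X).toNat : ℕ∞) := (ENat.natCast_toNat (eRk_ne_top M X)).symm

lemma isRk (M : Matroid (Fin n)) : IsRk (rk M) where
  empty := by simp [rk]
  mono := fun X Y h => by
    unfold rk
    have := M.eRk_mono (show (X : Set (Fin n)) ⊆ Y from h)
    exact_mod_cast ENat.toNat_le_toNat this (eRk_ne_top M _)
  submod := fun X Y => by
    unfold rk
    have := M.eRk_inter_add_eRk_union_le (X : Set (Fin n)) Y
    rw [eRk_eq M (_ ∩ _), eRk_eq M (_ ∪ _), eRk_eq M X, eRk_eq M Y] at this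
    push_cast
    have h2 : (M.eRk ((X : Set (Fin n)) ∩ Y)).toNat + (M.eRk ((X : Set (Fin n)) ∪ Y)).toNat ≤
      (M.eRk (X : Set (Fin n))).toNat + (M.eRk (Y : Set (Fin n))).toNat := by exact_mod_cast this
    omega
  single := fun e => by
    unfold rk
    have := M.eRk_singleton_le e
    rw [eRk_eq] at this
    simp only [coe_singleton]
    exact_mod_cast this

lemma indep_iff (M : Matroid (Fin n)) (X : Finset (Fin n)) :
    M.Indep (X : Set _) ↔ rk M X = X.card := by
  rw [Matroid.indep_iff_eRk_eq_encard_of_finite (Set.toFinite _), Set.encard_coe_eq_coe_finsetCard,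
    eRk_eq]
  unfold rk
  constructor
  · intro h; exact_mod_cast h
  · intro h; exact_mod_cast h

lemma base_card (M : Matroid (Fin n)) (B : Finset (Fin n)) (hB : M.IsBase (B : Set _)) :
    (B.card : ℤ) = rk M univ := by
  rw [← (indep_iff M B).1 hB.indep]
  unfold rk
  rw [hB.eRk_eq_eRank, coe_univ, M.eRk_univ_eq]

lemma exists_base_subset (M : Matroid (Fin n)) (X : Finset (Fin n)) (h : rk M X = rk M univ) :
    ∃ B : Finset (Fin n), M.IsBase (B : Set _) ∧ B ⊆ X := by
  obtain ⟨I, hI⟩ := M.exists_isBasis' (X : Set (Fin n))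
  lift I to Finset (Fin n) using Set.toFinite I
  refine ⟨I, hI.indep.isBase_of_eRk_ge (Set.toFinite _) ?_, by exact_mod_cast hI.subset⟩
  rw [hI.eRk_eq_eRk, ← M.eRk_univ_eq, eRk_eq M Set.univ, eRk_eq M X]
  unfold rk at h
  rw [coe_univ] at h
  exact_mod_cast h.ge

lemma symm_card (B C : Finset (Fin n)) :
    (((symmDiff (B : Set (Fin n)) C).ncard : ℕ) : ℤ) = 2 * (B ∪ C).card - B.card - C.card := by
  have : symmDiff (B : Set (Fin n)) C = ((B ∪ C) \ (B ∩ C) : Finset (Fin n)) := by
    ext x; simp only [Set.mem_symmDiff, mem_coe, mem_sdiff, mem_union, mem_inter]; tauto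
  rw [this, Set.ncard_coe_finset]
  have h1 := card_sdiff_add_card_eq_card (show B ∩ C ⊆ B ∪ C from inter_subset_union)
  have h2 := card_union_add_card_inter B C
  omega

/-- There is a set `A` that is tight for every pair of bases at maximal distance. -/
lemma exists_tight (M : Matroid (Fin n)) : ∃ A : Finset (Fin n), ∀ B₁ B₂ : Finset (Fin n),
    M.IsBase (B₁ : Set _) → M.IsBase (B₂ : Set _) →
    (∃ C₁ C₂ : Set (Fin n), M.IsBase C₁ ∧ M.IsBase C₂ ∧
      (symmDiff (B₁ : Set (Fin n)) B₂).ncard < (symmDiff C₁ C₂).ncard) ∨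
    ((∀ x ∈ A, x ∈ B₁ → x ∉ B₂) ∧ (∀ x, x ∉ A → x ∈ B₁ ∨ x ∈ B₂) ∧
      (((B₁ ∪ B₂) ∩ A).card : ℤ) = 2 * rk M A) := by
  have hr := isRk M
  obtain ⟨A, -, hA⟩ := exists_min_image (univ : Finset (Finset (Fin n)))
    (fun A => rk M A + (((univ \ A).card : ℤ) + rk M (univ \ (univ \ A)) - rk M univ))
    univ_nonempty
  refine ⟨A, fun B₁ B₂ h₁ h₂ => ?_⟩
  set k := rk M A + (((univ \ A).card : ℤ) + rk M (univ \ (univ \ A)) - rk M univ) with hk
  have hk0 : 0 ≤ k := add_nonneg (hr.nonneg A) (hr.dual.nonneg (univ \ A))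
  obtain ⟨I, -, hI, hI1, hI2⟩ := inter univ (rk M) _ k hr hr.dual hk0 (fun A' _ => hA A' (mem_univ _))
  have hAA : univ \ (univ \ A) = A := by ext x; simp
  rw [hAA] at hk
  have hInd : M.Indep (I : Set _) := (indep_iff M I).2 (by omega)
  obtain ⟨C₁, hC₁, hIC₁⟩ := hInd.exists_isBase_superset
  lift C₁ to Finset (Fin n) using Set.toFinite C₁
  obtain ⟨C₂, hC₂, hIC₂⟩ := exists_base_subset M (univ \ I) (by omega)
  have c1 := base_card M C₁ hC₁
  have c2 := base_card M C₂ hC₂
  have b1 := base_card M B₁ h₁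
  have b2 := base_card M B₂ h₂
  have hU : (I.card : ℤ) + C₂.card ≤ (C₁ ∪ C₂).card := by
    have hd : Disjoint I C₂ := by
      rw [disjoint_left]; intro x hx hx2
      have := hIC₂ hx2
      simp only [mem_sdiff, mem_univ, true_and] at this
      exact this hx
    rw [← Nat.cast_add, ← card_union_of_disjoint hd]
    exact_mod_cast card_le_card (union_subset_union (by exact_mod_cast hIC₁) (Subset.refl _))
  by_cases hlt : (symmDiff (B₁ : Set (Fin n)) B₂).ncard < (symmDiff (C₁ : Set (Fin n)) C₂).ncard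
  · exact Or.inl ⟨C₁, C₂, hC₁, hC₂, hlt⟩
  right
  have s1 := symm_card B₁ B₂
  have s2 := symm_card C₁ C₂
  have hbig : 2 * rk M A + ((univ \ A).card : ℤ) ≤ (B₁ ∪ B₂).card := by omega
  have i1 : ((B₁ ∩ A).card : ℤ) ≤ rk M A := by
    rw [← (indep_iff M (B₁ ∩ A)).1 (h₁.indep.subset (by simp))]
    exact hr.mono _ _ inter_subset_right
  have i2 : ((B₂ ∩ A).card : ℤ) ≤ rk M A := by
    rw [← (indep_iff M (B₂ ∩ A)).1 (h₂.indep.subset (by simp))]
    exact hr.mono _ _ inter_subset_right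
  have j1 := card_inter_add_card_sdiff (B₁ ∪ B₂) A
  have j2 := card_union_add_card_inter (B₁ ∩ A) (B₂ ∩ A)
  have j3 : B₁ ∩ A ∪ B₂ ∩ A = (B₁ ∪ B₂) ∩ A := by rw [union_inter_distrib_right]
  rw [j3] at j2
  have j4 : (B₁ ∪ B₂) \ A ⊆ univ \ A := sdiff_subset_sdiff (subset_univ _) (Subset.refl _)
  have j5 := card_le_card j4
  refine ⟨fun x hxA hx1 hx2 => ?_, fun x hx => ?_, by omega⟩
  · have : 0 < (B₁ ∩ A ∩ (B₂ ∩ A)).card := card_pos.2 ⟨x, by simp [hxA, hx1, hx2]⟩
    omega
  · have : (B₁ ∪ B₂) \ A = univ \ A := eq_of_subset_of_card_le j4 (by omega)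
    have hx' : x ∈ univ \ A := by simp [hx]
    rw [← this] at hx'
    exact mem_union.1 (mem_sdiff.1 hx').1

/-- lower bound for the dimension of the affine span of a set of vectors -/
lemma card_le_dim (P : Set (Fin n → ℝ)) (T : Finset (Fin n))
    (h : ∀ t ∈ T, ∃ p ∈ P, ∃ q ∈ P, p t - q t = 1 ∧ ∀ s ∈ T, s ≠ t → p s - q s = 0) :
    T.card ≤ Module.finrank ℝ (affineSpan ℝ P).direction := by
  choose p hp q hq h1 h0 using h
  let v : T → (affineSpan ℝ P).direction := fun t =>
    ⟨p t t.2 -ᵥ q t t.2, AffineSubspace.vsub_mem_direction (subset_affineSpan ℝ P (hp t t.2))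
      (subset_affineSpan ℝ P (hq t t.2))⟩
  have hli : LinearIndependent ℝ v := by
    rw [Fintype.linearIndependent_iff]
    intro g hg t
    have := congrArg (fun w : (affineSpan ℝ P).direction => (w : Fin n → ℝ) t) hg
    simp only [AddSubmonoidClass.coe_finsetSum, SetLike.val_smul, Finset.sum_apply,
      Pi.smul_apply, smul_eq_mul, ZeroMemClass.coe_zero, Pi.zero_apply, v, vsub_eq_sub,
      Pi.sub_apply] at this
    rw [Finset.sum_eq_single t] at this
    · rw [h1 t t.2] at this; simpa using this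
    · intro s _ hst
      rw [h0 s s.2 t t.2 (fun h => hst (Subtype.ext h).symm)]; simp
    · simp
  simpa using hli.fintype_card_le_finrank

lemma colour (d : ℕ) (T : Finset (Fin n)) (hT : T.card ≤ d) (R : Set (Fin n) → Fin n → Prop) :
    ∃ f : Set (Fin n) → Fin (d + 1), ∀ B₁ B₂, f B₁ = f B₂ →
      (∃ t ∈ T, R B₁ t ∧ R B₂ t) ∨ (∀ t ∈ T, ¬ R B₁ t ∧ ¬ R B₂ t) := by
  classical
  obtain ⟨ι⟩ : Nonempty (Option T ↪ Fin (d + 1)) := by
    apply Function.Embedding.nonempty_of_card_le
    simp [hT]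
  let c : Set (Fin n) → Option T := fun B =>
    if h : ∃ t : T, R B t then some h.choose else none
  refine ⟨fun B => ι (c B), fun B₁ B₂ h => ?_⟩
  have hc : c B₁ = c B₂ := ι.injective h
  by_cases h1 : ∃ t : T, R B₁ t <;> by_cases h2 : ∃ t : T, R B₂ t
  · simp only [c, dif_pos h1, dif_pos h2, Option.some.injEq] at hc
    exact Or.inl ⟨h1.choose, h1.choose.2, h1.choose_spec, hc ▸ h2.choose_spec⟩
  · simp only [c, dif_pos h1, dif_neg h2] at hc; cases hc
  · simp only [c, dif_neg h1, dif_pos h2] at hc; cases hc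
  · exact Or.inr fun t ht => ⟨fun h => h1 ⟨⟨t, ht⟩, h⟩, fun h => h2 ⟨⟨t, ht⟩, h⟩⟩

theorem main (n : ℕ) (M : Matroid (Fin n))
    (h2 : ∃ B₁ B₂ : Set (Fin n), M.IsBase B₁ ∧ M.IsBase B₂ ∧ B₁ ≠ B₂) :
      ∃ f : Set (Fin n) →
          Fin (Module.finrank ℝ
            (affineSpan ℝ
              ((fun B : Set (Fin n) => B.indicator (fun _ : Fin n => (1 : ℝ))) ''
                {B : Set (Fin n) | M.IsBase B})).direction + 1),
        ∀ B₁ B₂ : Set (Fin n), M.IsBase B₁ → M.IsBase B₂ → f B₁ = f B₂ →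
          ∃ C₁ C₂ : Set (Fin n), M.IsBase C₁ ∧ M.IsBase C₂ ∧
            (symmDiff B₁ B₂).ncard < (symmDiff C₁ C₂).ncard := by
  classical
  have hr := isRk M
  obtain ⟨A, hA⟩ := exists_tight M
  obtain ⟨B₀, B₀', hB₀, hB₀', hne⟩ := h2
  lift B₀ to Finset (Fin n) using Set.toFinite B₀
  by_cases hpos : 0 < rk M A
  · let T : Finset (Fin n) := univ.filter fun t => t ∈ A ∧ t ∉ B₀ ∧ ∃ B, M.IsBase B ∧ t ∈ B
    have hT := card_le_dim ((fun B : Set (Fin n) => B.indicator (fun _ : Fin n => (1 : ℝ))) ''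
                {B : Set (Fin n) | M.IsBase B}) T (by
      intro t ht
      simp only [T, mem_filter, mem_univ, true_and] at ht
      obtain ⟨-, ht0, B, hB, htB⟩ := ht
      have hi : M.Indep {t} := hB.indep.subset (by simpa using htB)
      obtain ⟨B', hB', h1, h2⟩ := hi.exists_isBase_subset_union_isBase hB₀
      refine ⟨_, ⟨B', hB', rfl⟩, _, ⟨B₀, hB₀, rfl⟩, ?_, ?_⟩
      · have : t ∈ B' := h1 rfl
        simp [this, ht0]
      · intro s hs hst
        simp only [T, mem_filter, mem_univ, true_and] at hs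
        have : s ∉ B' := fun h => by
          rcases h2 h with h | h
          · exact hst h
          · exact hs.2.1 h
        simp [this, hs.2.1])
    obtain ⟨f, hf⟩ := colour _ T hT (fun B t => t ∈ B)
    refine ⟨f, fun B₁ B₂ h₁ h₂ h => ?_⟩
    lift B₁ to Finset (Fin n) using Set.toFinite B₁
    lift B₂ to Finset (Fin n) using Set.toFinite B₂
    rcases hA B₁ B₂ h₁ h₂ with hh | ⟨a1, -, a3⟩
    · exact hh
    exfalso
    rcases hf _ _ h with ⟨t, ht, t1, t2⟩ | hn
    · simp only [T, mem_filter, mem_univ, true_and] at ht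
      exact a1 t ht.1 t1 t2
    · have hsub : (B₁ ∪ B₂) ∩ A ⊆ B₀ ∩ A := by
        intro x hx
        rw [mem_inter, mem_union] at hx
        refine mem_inter.2 ⟨?_, hx.2⟩
        by_contra hx0
        rcases hx.1 with hx1 | hx1
        · exact (hn x (by
            simp only [T, mem_filter, mem_univ, true_and]
            exact ⟨hx.2, hx0, _, h₁, hx1⟩)).1 hx1
        · exact (hn x (by
            simp only [T, mem_filter, mem_univ, true_and]
            exact ⟨hx.2, hx0, _, h₂, hx1⟩)).2 hx1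
      have i1 : ((B₀ ∩ A).card : ℤ) ≤ rk M A := by
        rw [← (indep_iff M (B₀ ∩ A)).1 (hB₀.indep.subset (by simp))]
        exact hr.mono _ _ inter_subset_right
      have := card_le_card hsub
      omega
  · let T : Finset (Fin n) := univ.filter fun t => t ∈ B₀ ∧ ∃ B, M.IsBase B ∧ t ∉ B
    have hT := card_le_dim ((fun B : Set (Fin n) => B.indicator (fun _ : Fin n => (1 : ℝ))) ''
                {B : Set (Fin n) | M.IsBase B}) T (by
      intro t ht
      simp only [T, mem_filter, mem_univ, true_and] at ht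
      obtain ⟨ht0, B, hB, htB⟩ := ht
      obtain ⟨b, hb, hB'⟩ := hB₀.exchange hB (e := t) ⟨ht0, htB⟩
      refine ⟨_, ⟨B₀, hB₀, rfl⟩, _, ⟨_, hB', rfl⟩, ?_, ?_⟩
      · have : t ∉ insert b ((B₀ : Set (Fin n)) \ {t}) := by
          rintro (h | h)
          · exact htB (h ▸ hb.1)
          · exact h.2 rfl
        simp only [Set.indicator_of_notMem this]
        simp [ht0]
      · intro s hs hst
        simp only [T, mem_filter, mem_univ, true_and] at hs
        have : s ∈ insert b ((B₀ : Set (Fin n)) \ {t}) := Or.inr ⟨hs.1, hst⟩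
        simp only [Set.indicator_of_mem this]
        simp [hs.1])
    obtain ⟨f, hf⟩ := colour _ T hT (fun B t => t ∉ B)
    refine ⟨f, fun B₁ B₂ h₁ h₂ h => ?_⟩
    rcases hf _ _ h with ⟨t, ht, t1, t2⟩ | hn
    · lift B₁ to Finset (Fin n) using Set.toFinite B₁
      lift B₂ to Finset (Fin n) using Set.toFinite B₂
      rcases hA B₁ B₂ h₁ h₂ with hh | ⟨-, a2, -⟩
      · exact hh
      exfalso
      simp only [T, mem_filter, mem_univ, true_and] at ht
      have htA : t ∈ A := by
        by_contra hh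
        rcases a2 t hh with h | h
        · exact t1 h
        · exact t2 h
      have i1 : rk M {t} = 1 := by
        rw [(indep_iff M {t}).1 (hB₀.indep.subset (by simpa using ht.1))]; simp
      have := hr.mono {t} A (by simpa using htA)
      omega
    · have key : ∀ B, M.IsBase B → (∀ t ∈ T, t ∈ B) → (B₀ : Set (Fin n)) = B := by
        intro B hB hTB
        apply hB₀.eq_of_subset_isBase hB
        intro x hx
        by_contra hxB
        exact hxB (hTB x (by
          simp only [T, mem_filter, mem_univ, true_and]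
          exact ⟨hx, B, hB, hxB⟩))
      have e1 := key B₁ h₁ fun t ht => not_not.1 (hn t ht).1
      have e2 := key B₂ h₂ fun t ht => not_not.1 (hn t ht).2
      refine ⟨B₀, B₀', hB₀, hB₀', ?_⟩
      rw [← e1, ← e2, symmDiff_self, Set.bot_eq_empty, Set.ncard_empty, Set.ncard_pos (Set.toFinite _),
        Set.nonempty_iff_ne_empty]
      intro h0
      exact hne (symmDiff_eq_bot.1 h0)

end Pool.Agent.H820Z.Borsuk
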