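import Pool.Agent.H445Z.CubSt

namespace Pool.Agent.H820Z.CubDom

open Pool.Agent.H445Z.Cub Finset

noncomputable section

variable {M : ℕ}

theorem mulL {A B C : Mat M} (hC : ∀ x y, 0 ≤ C x y) (h : ∀ x y, A x y ≤ B x y) :
    ∀ x y, (C * A) x y ≤ (C * B) x y := by
  intro x y
  simp only [Matrix.mul_apply]
  exact Finset.sum_le_sum (fun z _ => mul_le_mul_of_nonneg_left (h z y) (hC x z))

theorem mulR {A B C : Mat M} (hC : ∀ x y, 0 ≤ C x y) (h : ∀ x y, A x y ≤ B x y) :
    ∀ x y, (A * C) x y ≤ (B * C) x y := by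
  intro x y
  simp only [Matrix.mul_apply]
  exact Finset.sum_le_sum (fun z _ => mul_le_mul_of_nonneg_right (h x z) (hC z y))

theorem mulNN {A B : Mat M} (hA : ∀ x y, 0 ≤ A x y) (hB : ∀ x y, 0 ≤ B x y) : ∀ x y, 0 ≤ (A * B) x y := by
  intro x y
  simp only [Matrix.mul_apply]
  exact Finset.sum_nonneg (fun z _ => mul_nonneg (hA x z) (hB z y))

theorem rowMul {A B : Mat M} {α β : ℝ} (hA : ∀ x y, 0 ≤ A x y) (hβ : 0 ≤ β) (h1 : ∀ x, ∑ y, A x y ≤ α)
    (h2 : ∀ x, ∑ y, B x y ≤ β) : ∀ x, ∑ y, (A * B) x y ≤ α * β := by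
  intro x
  simp only [Matrix.mul_apply]
  rw [Finset.sum_comm]
  calc ∑ z, ∑ y, A x z * B z y = ∑ z, A x z * ∑ y, B z y := by simp only [Finset.mul_sum]
    _ ≤ ∑ z, A x z * β := Finset.sum_le_sum (fun z _ => mul_le_mul_of_nonneg_left (h2 z) (hA x z))
    _ = (∑ z, A x z) * β := by rw [Finset.sum_mul]
    _ ≤ α * β := mul_le_mul_of_nonneg_right (h1 x) hβ

theorem eM_nn (a : ℕ) (x y : Gr M) : 0 ≤ eM M a x y := by
  unfold eM; split_ifs <;> positivity

/-- shift matrix -/
def T (u : Gr M) : Mat M := fun x y => if y = x + u then 1 else 0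

theorem T_nn (u : Gr M) (x y : Gr M) : 0 ≤ T u x y := by unfold T; split_ifs <;> norm_num

theorem T_mul (u : Gr M) (A : Mat M) (x y : Gr M) : (T u * A) x y = A (x + u) y := by
  simp only [Matrix.mul_apply, T, ite_mul, one_mul, zero_mul]
  rw [Finset.sum_ite_eq' Finset.univ (x + u) (fun z => A z y)]
  simp

theorem mul_T (u : Gr M) (A : Mat M) (x y : Gr M) : (A * T u) x y = A x (y - u) := by
  simp only [Matrix.mul_apply, T, mul_ite, mul_one, mul_zero]
  have : ∀ z : Gr M, (y = z + u) = (z = y - u) := by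
    intro z; apply propext; constructor
    · intro h; rw [h]; ring
    · intro h; rw [h]; ring
  simp only [this]
  rw [Finset.sum_ite_eq' Finset.univ (y - u) (fun z => A x z)]
  simp

theorem T_row (u x : Gr M) : ∑ y, T u x y = 1 := by
  unfold T
  rw [Finset.sum_ite_eq' Finset.univ (x + u) (fun _ => (1:ℝ))]
  simp

theorem int_aux {v j s m : ℤ} (hs : 0 < s) (hm : 0 < m) : (v + j * s) % (m * s) / s = (v / s + j) % m := by
  set c := v / s + j with hc
  have h1 : v + j * s = (s * (c % m) + v % s) + (m * s) * (c / m) := by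
    have e1 := Int.mul_ediv_add_emod v s
    have e2 := Int.mul_ediv_add_emod c m
    calc v + j * s = s * (v / s) + v % s + j * s := by rw [e1]
      _ = s * c + v % s := by rw [hc]; ring
      _ = s * (m * (c / m) + c % m) + v % s := by rw [e2]
      _ = _ := by ring
  have b1 := Int.emod_nonneg v hs.ne'
  have b2 := Int.emod_lt_of_pos v hs
  have b3 := Int.emod_nonneg c hm.ne'
  have b4 := Int.emod_lt_of_pos c hm
  have h2 : (v + j * s) % (m * s) = s * (c % m) + v % s := by
    rw [h1, Int.add_mul_emod_self_left]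
    apply Int.emod_eq_of_lt
    · positivity
    · have : s * (c % m) ≤ s * (m - 1) := mul_le_mul_of_nonneg_left (by omega) hs.le
      nlinarith
  rw [h2, add_comm, Int.add_mul_ediv_left _ _ hs.ne', Int.ediv_eq_zero_of_lt b1 b2, zero_add]

theorem cell_shift {a : ℕ} (ha : a ≤ M) (x : Gr M) (j : ℤ) :
    (cell M a (x + (j : Gr M) * 2 ^ (M - a)) : ℤ) = ((cell M a x : ℤ) + j) % 2 ^ a := by
  have e : x + (j : Gr M) * 2 ^ (M - a) = (((x.val : ℤ) + j * 2 ^ (M - a) : ℤ) : Gr M) := by
    push_cast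
    rw [ZMod.natCast_zmod_val]
  unfold cell
  push_cast
  rw [e, ZMod.val_intCast]
  have h2 : ((2 ^ M : ℕ) : ℤ) = 2 ^ a * 2 ^ (M - a) := by
    push_cast; rw [← pow_add]; congr 1; omega
  rw [h2]
  exact int_aux (by positivity) (by positivity)

theorem cell_lt {a : ℕ} (ha : a ≤ M) (y : Gr M) : cell M a y < 2 ^ a := by
  unfold cell
  rw [Nat.div_lt_iff_lt_mul (by positivity), ← pow_add, show a + (M - a) = M by omega]
  exact ZMod.val_lt y

def om (r : ℝ) (j : ℤ) : ℝ := (1 + |(j : ℝ)|) ^ (-1 - r)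

theorem om_pos (r : ℝ) (j : ℤ) : 0 < om r j := by unfold om; positivity

theorem om_summable {r : ℝ} (hr : 0 < r) : Summable (om r) := by
  have h1 : Summable (fun n : ℕ => ((n + 1 : ℕ) : ℝ) ^ (-1 - r)) :=
    (summable_nat_add_iff (f := fun n : ℕ => (n : ℝ) ^ (-1 - r)) 1).2 (Real.summable_nat_rpow.2 (by linarith))
  apply Summable.of_nat_of_neg
  · refine h1.congr (fun n => ?_)
    unfold om
    push_cast
    rw [abs_of_nonneg (Nat.cast_nonneg n), add_comm]
  · refine h1.congr (fun n => ?_)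
    unfold om
    push_cast
    rw [abs_neg, abs_of_nonneg (Nat.cast_nonneg n), add_comm]

def JJ (a : ℕ) : Finset ℤ := Icc (-(2 ^ a : ℤ)) (2 ^ a)

def wM (M a : ℕ) (r : ℝ) : Mat M := ∑ j ∈ JJ a, om r j • (T ((j : Gr M) * 2 ^ (M - a)) * eM M a)

theorem wM_apply (a : ℕ) (r : ℝ) (x y : Gr M) :
    wM M a r x y = ∑ j ∈ JJ a, om r j * eM M a (x + (j : Gr M) * 2 ^ (M - a)) y := by
  unfold wM
  rw [Matrix.sum_apply]
  simp only [Matrix.smul_apply, T_mul, smul_eq_mul]

theorem wM_nn (a : ℕ) (r : ℝ) (x y : Gr M) : 0 ≤ wM M a r x y := by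
  rw [wM_apply]
  exact Finset.sum_nonneg (fun j _ => mul_nonneg (om_pos r j).le (eM_nn a _ _))

theorem kM_le {r C : ℝ} (hC : 0 < C) {a : ℕ} {η : ℝ → ℝ} {h : ℝ} (ha : a ≤ M) (hη : EtaHyp r C a η)
    (h0 : 0 ≤ h) (h1 : h < dl M) (x y : Gr M) : |kM M a η h x y| ≤ C * 2 ^ (r * a) * wM M a r x y := by
  obtain ⟨hper, _, hbd, _⟩ := hη
  have hm : (0:ℤ) < 2 ^ a := by positivity
  set d : ℤ := ((cell M a y : ℤ) - cell M a x) % 2 ^ a with hd
  have d0 : 0 ≤ d := Int.emod_nonneg _ hm.ne'
  have d1 : d < 2 ^ a := Int.emod_lt_of_pos _ hm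
  obtain ⟨j, k, hj, hk⟩ : ∃ j k : ℤ, 2 * |j| ≤ 2 ^ a ∧ (cell M a y : ℤ) - cell M a x = j + 2 ^ a * k := by
    have e := Int.mul_ediv_add_emod ((cell M a y : ℤ) - cell M a x) (2 ^ a)
    by_cases h2 : 2 * d ≤ 2 ^ a
    · exact ⟨d, ((cell M a y : ℤ) - cell M a x) / 2 ^ a, by rw [abs_of_nonneg d0]; exact h2, by linarith⟩
    · refine ⟨d - 2 ^ a, ((cell M a y : ℤ) - cell M a x) / 2 ^ a + 1, ?_, by linarith⟩
      rw [abs_of_neg (by linarith)]; linarith
  have hcell : cell M a (x + (j : Gr M) * 2 ^ (M - a)) = cell M a y := by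
    have e := cell_shift ha x j
    have e2 : (cell M a x : ℤ) + j = cell M a y + 2 ^ a * (-k) := by linarith
    rw [e2, Int.add_mul_emod_self_left, Int.emod_eq_of_lt (by positivity)
      (by exact_mod_cast cell_lt ha y)] at e
    exact_mod_cast e
  have hjJ : j ∈ JJ a := by
    unfold JJ
    rw [Finset.mem_Icc]
    have := abs_nonneg j
    have := le_abs_self j
    have := neg_abs_le j
    constructor <;> linarith
  have hw : om r j * ((2 : ℝ) ^ (M - a))⁻¹ ≤ wM M a r x y := by
    rw [wM_apply]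
    have : om r j * ((2 : ℝ) ^ (M - a))⁻¹ = om r j * eM M a (x + (j : Gr M) * 2 ^ (M - a)) y := by
      unfold eM; rw [if_pos hcell]
    rw [this]
    exact Finset.single_le_sum (f := fun j : ℤ => om r j * eM M a (x + (j : Gr M) * 2 ^ (M - a)) y)
      (fun j _ => mul_nonneg (om_pos r j).le (eM_nn a _ _)) hjJ
  have hdlM : 0 < dl M := by unfold dl; have := Real.pi_pos; positivity
  have hdl : dl a = 2 ^ (M - a) * dl M := by
    unfold dl
    have : (2:ℝ) ^ M = 2 ^ (M - a) * 2 ^ a := by rw [← pow_add]; congr 1; omega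
    rw [this]; field_simp
  have hdl2 : (2:ℝ) ^ a * dl a = 2 * Real.pi := by unfold dl; field_simp
  set ρ : ℕ := x.val % 2 ^ (M - a) with hρ
  have hρ1 : ρ + 1 ≤ 2 ^ (M - a) := Nat.mod_lt _ (by positivity)
  have hρ2 : (ρ : ℝ) + 1 ≤ 2 ^ (M - a) := by exact_mod_cast hρ1
  have hx : (x.val : ℝ) = 2 ^ (M - a) * (cell M a x : ℝ) + ρ := by
    have := Nat.div_add_mod x.val (2 ^ (M - a))
    unfold cell
    exact_mod_cast this.symm
  have hkr : (cell M a y : ℝ) - cell M a x = j + 2 ^ a * k := by exact_mod_cast hk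
  set u := h + ρ * dl M with hu
  have harg : h + x.val * dl M - cell M a y * dl a = (u - j * dl a) - k * (2 * Real.pi) := by
    rw [hx, ← hdl2, hu]
    have : (cell M a y : ℝ) = cell M a x + j + 2 ^ a * k := by linarith
    rw [this]
    have e3 : (2 ^ (M - a) * (cell M a x : ℝ) + ρ) * dl M = cell M a x * dl a + ρ * dl M := by
      rw [hdl]; ring
    rw [e3]; ring
  have hu0 : 0 ≤ u := by rw [hu]; positivity
  have hu1 : u < dl a := by
    rw [hu, hdl]
    have := mul_le_mul_of_nonneg_right hρ2 hdlM.le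
    linarith
  have hb := hbd u j hu0 hu1 hj
  unfold kM
  rw [harg, hper.sub_int_mul_eq, abs_mul, abs_of_pos (by positivity : (0:ℝ) < (2 ^ (M - a))⁻¹)]
  have hpos : 0 ≤ C * 2 ^ (r * a) := by positivity
  calc ((2 : ℝ) ^ (M - a))⁻¹ * |η (u - j * dl a)| ≤ ((2 : ℝ) ^ (M - a))⁻¹ * (C * 2 ^ (r * a) * om r j) :=
        mul_le_mul_of_nonneg_left hb (by positivity)
    _ = C * 2 ^ (r * a) * (om r j * ((2 : ℝ) ^ (M - a))⁻¹) := by ring
    _ ≤ _ := mul_le_mul_of_nonneg_left hw hpos

theorem dM_le (b : ℤ) (x y : Gr M) : |dM M b x y| ≤ (eM M b.toNat + eM M (b.toNat - 1)) x y := by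
  have p1 := eM_nn b.toNat x y
  have p2 := eM_nn (b.toNat - 1) x y
  rw [Matrix.add_apply]
  unfold dM
  split_ifs with h1 h2
  · subst h1
    simp only [Int.toNat_zero] at p1 p2 ⊢
    rw [abs_of_nonneg p1]; linarith
  · rw [Matrix.sub_apply, abs_le]; constructor <;> linarith
  · simp only [Matrix.zero_apply, abs_zero]; linarith

theorem thm_dom : S_grid → S_dom := by
  intro hG r C hr _ hC
  set Cw : ℝ := ∑' j, om r j with hCw
  have hsum := om_summable hr
  have hJ : ∀ a, ∑ j ∈ JJ a, om r j ≤ Cw := fun a => hsum.sum_le_tsum _ (fun j _ => (om_pos r j).le)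
  have hCw0 : 0 < Cw := hsum.tsum_pos (fun j => (om_pos r j).le) 0 (om_pos r 0)
  refine ⟨2 * Cw * C, by positivity, ?_⟩
  intro M a η h ha hη h0 h1 b
  obtain ⟨g1, g2, _, _, _, g6, _⟩ := hG M
  have hcomm : ∀ s t, eM M s * eM M t = eM M t * eM M s := by
    intro s t; rw [g1, g1, min_comm]
  set e : Mat M := eM M b.toNat + eM M (b.toNat - 1) with he
  have henn : ∀ x y, 0 ≤ e x y := by
    intro x y; rw [he, Matrix.add_apply]; exact add_nonneg (eM_nn _ _ _) (eM_nn _ _ _)
  have herow : ∀ x, ∑ y, e x y ≤ 2 := by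
    intro x
    simp only [he, Matrix.add_apply, Finset.sum_add_distrib, g2]; norm_num
  have hecomm : ∀ t, eM M t * e = e * eM M t := by
    intro t; rw [he, mul_add, add_mul, hcomm t, hcomm t]
  set w : Mat M := wM M a r with hw
  have hwrow : ∀ x, ∑ y, w x y ≤ Cw := by
    intro x
    simp only [hw, wM_apply]
    rw [Finset.sum_comm]
    simp only [← Finset.mul_sum, g2, mul_one]
    exact hJ a
  have hew : eM M a * w = w := by
    ext x y
    rw [Matrix.mul_apply]
    have : ∀ z, eM M a x z * w z y = eM M a x z * w x y := by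
      intro z
      by_cases hz : cell M a x = cell M a z
      · congr 1
        simp only [hw, wM_apply]
        apply Finset.sum_congr rfl
        intro j _
        have e1 := cell_shift ha x j
        have e2 := cell_shift ha z j
        rw [hz, ← e2] at e1
        have e3 : cell M a (x + (j : Gr M) * 2 ^ (M - a)) = cell M a (z + (j : Gr M) * 2 ^ (M - a)) := by
          exact_mod_cast e1
        unfold eM
        rw [e3]
      · have : eM M a x z = 0 := by unfold eM; rw [if_neg hz]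
        rw [this, zero_mul, zero_mul]
    simp only [this]
    rw [← Finset.sum_mul, g2, one_mul]
  set c : ℝ := (2 * Cw)⁻¹ with hc
  have hc0 : 0 < c := by positivity
  refine ⟨c • (e * w), ?_, ?_, ?_, ?_, ?_⟩
  · intro x y
    rw [Matrix.smul_apply, smul_eq_mul]
    exact mul_nonneg hc0.le (mulNN henn (wM_nn a r) x y)
  · intro x y
    rw [Matrix.smul_apply, smul_eq_mul]
    have hpos : 0 ≤ C * 2 ^ (r * a) := by positivity
    calc |(dM M b * kM M a η h) x y| ≤ ∑ z, |dM M b x z * kM M a η h z y| := by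
          rw [Matrix.mul_apply]; exact Finset.abs_sum_le_sum_abs _ _
      _ ≤ ∑ z, e x z * (C * 2 ^ (r * a) * w z y) := by
          apply Finset.sum_le_sum
          intro z _
          rw [abs_mul]
          exact mul_le_mul (dM_le b x z) (kM_le hC ha hη h0 h1 z y) (abs_nonneg _) (henn x z)
      _ = C * 2 ^ (r * a) * (e * w) x y := by
          rw [Matrix.mul_apply, Finset.mul_sum]
          apply Finset.sum_congr rfl
          intro z _; ring
      _ = _ := by rw [hc]; field_simp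
  · intro x
    simp only [Matrix.smul_apply, smul_eq_mul]
    rw [← Finset.mul_sum]
    have := rowMul henn hCw0.le herow hwrow x
    calc c * ∑ y, (e * w) x y ≤ c * (2 * Cw) := mul_le_mul_of_nonneg_left this hc0.le
      _ = 1 := by rw [hc]; field_simp
  · rw [Matrix.mul_smul, ← mul_assoc, hecomm a, mul_assoc, hew]
  · intro t
    set S3 : ℤ → Mat M := fun j => T ((j : Gr M) * 2 ^ (M - a)) + T ((j : Gr M) * 2 ^ (M - a) + 2 ^ (M - t)) +
      T ((j : Gr M) * 2 ^ (M - a) - 2 ^ (M - t)) with hS3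
    set Pm : Mat M := ∑ j ∈ JJ a, om r j • S3 j with hPm
    have hPa : ∀ x y, Pm x y = ∑ j ∈ JJ a, om r j * S3 j x y := by
      intro x y
      rw [hPm, Matrix.sum_apply]
      simp only [Matrix.smul_apply, smul_eq_mul]
    have hS3nn : ∀ j x y, 0 ≤ S3 j x y := by
      intro j x y
      simp only [hS3, Matrix.add_apply]
      exact add_nonneg (add_nonneg (T_nn _ _ _) (T_nn _ _ _)) (T_nn _ _ _)
    have hPnn : ∀ x y, 0 ≤ Pm x y := by
      intro x y; rw [hPa]
      exact Finset.sum_nonneg (fun j _ => mul_nonneg (om_pos r j).le (hS3nn j x y))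
    have hProw : ∀ x, ∑ y, Pm x y ≤ 3 * Cw := by
      intro x
      simp only [hPa]
      rw [Finset.sum_comm]
      have : ∀ j, ∑ y, S3 j x y = 3 := by
        intro j
        simp only [hS3, Matrix.add_apply, Finset.sum_add_distrib, T_row]; norm_num
      simp only [← Finset.mul_sum, this]
      rw [← Finset.sum_mul]
      linarith [hJ a]
    have key : ∀ x y, (eM M t * w) x y ≤ (Pm * eM M a * eM M t) x y := by
      intro x y
      have e1 : eM M t * w = ∑ j ∈ JJ a, om r j • (eM M t * T ((j : Gr M) * 2 ^ (M - a)) * eM M a) := by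
        rw [hw]; unfold wM
        rw [Finset.mul_sum]
        apply Finset.sum_congr rfl
        intro j _
        rw [Matrix.mul_smul, mul_assoc]
      have e2 : Pm * eM M a * eM M t = ∑ j ∈ JJ a, om r j • (S3 j * eM M t * eM M a) := by
        rw [mul_assoc, hcomm a t, hPm, Finset.sum_mul]
        apply Finset.sum_congr rfl
        intro j _
        rw [Matrix.smul_mul, mul_assoc]
      rw [e1, e2, Matrix.sum_apply, Matrix.sum_apply]
      apply Finset.sum_le_sum
      intro j _
      simp only [Matrix.smul_apply, smul_eq_mul]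
      apply mul_le_mul_of_nonneg_left _ (om_pos r j).le
      apply mulR (eM_nn a)
      intro x y
      rw [mul_T]
      simp only [hS3, add_mul, Matrix.add_apply, T_mul]
      have := g6 t ((j : Gr M) * 2 ^ (M - a)) x y
      rw [← add_assoc, ← add_sub_assoc]
      exact this
    refine ⟨c • (e * (Pm * eM M a)), ?_, ?_, ?_⟩
    · intro x y
      rw [Matrix.smul_apply, smul_eq_mul]
      exact mul_nonneg hc0.le (mulNN henn (mulNN hPnn (eM_nn a)) x y)
    · intro x
      simp only [Matrix.smul_apply, smul_eq_mul]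
      rw [← Finset.mul_sum]
      have h3 := rowMul (B := eM M a) hPnn zero_le_one hProw (fun x => (g2 a x).le)
      have h4 := rowMul henn (by positivity) herow h3 x
      calc c * ∑ y, (e * (Pm * eM M a)) x y ≤ c * (2 * (3 * Cw * 1)) := mul_le_mul_of_nonneg_left h4 hc0.le
        _ = 3 := by rw [hc]; field_simp
    · intro x y
      rw [Matrix.mul_smul, Matrix.smul_mul, ← mul_assoc, hecomm t, mul_assoc, mul_assoc]
      simp only [Matrix.smul_apply, smul_eq_mul]
      exact mul_le_mul_of_nonneg_left (mulL henn key x y) hc0.le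

end

end Pool.Agent.H820Z.CubDom
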