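import Mathlib

set_option autoImplicit false

namespace Pool.Agent.H820Z.Dom

/-- `D` is `k`-dominating: every vertex is at distance at most `k` from a vertex of `D`. -/
def IsKDom {V : Type} (G : SimpleGraph V) (k : ℕ) (D : Finset V) : Prop :=
  ∀ v : V, ∃ d ∈ D, G.edist d v ≤ (k : ℕ∞)

/-- The `k`-domination number: the least size of a `k`-dominating set. -/
noncomputable def gammaK {V : Type} (G : SimpleGraph V) (k : ℕ) : ℕ :=
  sInf {m : ℕ | ∃ D : Finset V, IsKDom G k D ∧ D.card = m}

/-- The `k`-degree of `v`: the number of vertices `u ≠ v` at distance at most `k` from `v`. -/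
noncomputable def kDegree {V : Type} (G : SimpleGraph V) (k : ℕ) (v : V) : ℕ :=
  {u : V | u ≠ v ∧ G.edist u v ≤ (k : ℕ∞)}.ncard

/-- The minimum `k`-degree. -/
noncomputable def deltaK {V : Type} (G : SimpleGraph V) (k : ℕ) : ℕ :=
  sInf (Set.range (kDegree G k))

/-- Every vertex is `k`-critical: deleting it (distances measured in `G - v`) lowers the
`k`-domination number. -/
def IsKCritical {V : Type} (G : SimpleGraph V) (k : ℕ) : Prop :=
  ∀ v : V, gammaK (G.induce {u : V | u ≠ v}) k < gammaK G k

end Pool.Agent.H820Z.Dom
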