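import Mathlib
import Pool.Agent.H820Z.DomDefs

set_option autoImplicit false

namespace Pool.Agent.H820Z.Dom

open Finset

lemma edist_le_iff {V : Type} (G : SimpleGraph V) (u v : V) (r : ℕ) :
    G.edist u v ≤ (r : ℕ∞) ↔ ∃ w : G.Walk u v, w.length ≤ r := by
  constructor
  · intro h
    obtain ⟨w, hw⟩ := G.exists_walk_of_edist_ne_top (ne_top_of_le_ne_top (ENat.natCast_ne_top r) h)
    exact ⟨w, by rw [← hw] at h; exact_mod_cast h⟩
  · rintro ⟨w, hw⟩
    exact (SimpleGraph.edist_le w).trans (by exact_mod_cast hw)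

lemma edist_induce {V : Type} (G : SimpleGraph V) (k : ℕ) (d u v : V) (hd : d ≠ v) (hu : u ≠ v)
    (h1 : G.edist d u ≤ (k : ℕ∞)) (h2 : ¬ G.edist d v ≤ (k : ℕ∞)) :
    (G.induce {x : V | x ≠ v}).edist ⟨d, hd⟩ ⟨u, hu⟩ ≤ (k : ℕ∞) := by
  classical
  obtain ⟨w, hw⟩ := (edist_le_iff G d u k).1 h1
  have hs : ∀ x ∈ w.support, x ∈ {x : V | x ≠ v} := by
    intro x hx hxv
    subst hxv
    exact h2 ((edist_le_iff G d x k).2 ⟨w.takeUntil x hx, (w.length_takeUntil_le_length hx).trans hw⟩)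
  refine (edist_le_iff _ _ _ k).2 ⟨w.induce _ hs, ?_⟩
  have := congrArg SimpleGraph.Walk.length (SimpleGraph.Walk.map_induce w hs)
  rw [SimpleGraph.Walk.length_map] at this
  exact this.le.trans hw

lemma gammaK_le {V : Type} {G : SimpleGraph V} {k : ℕ} {D : Finset V} (h : IsKDom G k D) :
    gammaK G k ≤ D.card :=
  Nat.sInf_le (show D.card ∈ {m : ℕ | ∃ D : Finset V, IsKDom G k D ∧ D.card = m} from ⟨D, h, rfl⟩)

lemma gammaK_mem {V : Type} {G : SimpleGraph V} {k : ℕ} {D : Finset V} (h : IsKDom G k D) :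
    ∃ D' : Finset V, IsKDom G k D' ∧ D'.card = gammaK G k :=
  Nat.sInf_mem (s := {m : ℕ | ∃ D : Finset V, IsKDom G k D ∧ D.card = m}) ⟨D.card, D, h, rfl⟩

section ladder

variable {A : Type} [AddCommGroup A]

/-- The Cayley graph with generators `± a` and `b`. -/
def ladder (a b : A) : SimpleGraph A := SimpleGraph.fromRel fun x y => y = x + a ∨ y = x + b

/-- hypotheses describing a (twisted) circular ladder with `m` rungs -/
structure Lad (a b : A) (m : ℤ) : Prop where
  bb : b + b = 0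
  inj0 : ∀ i : ℤ, |i| < m → i • a = 0 → i = 0
  inj1 : ∀ i : ℤ, |i| < m → i • a + b ≠ 0
  gen : ∀ x : A, ∃ i : ℤ, 0 ≤ i ∧ i < m ∧ (x = i • a ∨ x = i • a + b)

/-- ball relation -/
def Near (a b : A) (r : ℕ) (x y : A) : Prop :=
  ∃ i : ℤ, (|i| ≤ r ∧ y = x + i • a) ∨ (|i| + 1 ≤ r ∧ y = x + i • a + b)

lemma walk_a (a b : A) (ha : a ≠ 0) (x : A) (i : ℤ) :
    ∃ w : (ladder a b).Walk x (x + i • a), (w.length : ℤ) ≤ |i| := by
  have hadj : ∀ y : A, (ladder a b).Adj y (y + a) := fun y => by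
    simp [ladder, ha]
  induction i using Int.induction_on with
  | zero => exact ⟨SimpleGraph.Walk.nil.copy rfl (by simp), by simp⟩
  | succ j ih =>
    obtain ⟨w, hw⟩ := ih
    refine ⟨(w.concat (hadj _)).copy rfl (by rw [add_smul, one_smul, add_assoc]), ?_⟩
    rw [abs_of_nonneg (by positivity)] at hw ⊢
    simp only [SimpleGraph.Walk.length_copy, SimpleGraph.Walk.length_concat]
    push_cast; omega
  | pred j ih =>
    obtain ⟨w, hw⟩ := ih
    have h' : (ladder a b).Adj (x + (-(j : ℤ)) • a) (x + (-(j : ℤ) - 1) • a) := by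
      have := (hadj (x + (-(j : ℤ) - 1) • a)).symm
      convert this using 1
      rw [sub_smul, one_smul]; abel
    refine ⟨w.concat h', ?_⟩
    rw [abs_of_nonpos (by omega)] at hw ⊢
    simp only [SimpleGraph.Walk.length_concat]
    push_cast; omega

lemma near_of_walk (a b : A) (hb : b + b = 0) {x y : A} (w : (ladder a b).Walk x y) :
    Near a b w.length x y := by
  induction w with
  | nil => exact ⟨0, Or.inl ⟨by simp, by simp⟩⟩
  | @cons u v z h w ih =>
    obtain ⟨i, hi⟩ := ih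
    simp only [ladder, SimpleGraph.fromRel_adj] at h
    simp only [SimpleGraph.Walk.length_cons]
    have hb' : -b = b := by rw [neg_eq_iff_add_eq_zero, hb]
    obtain ⟨-, h⟩ := h
    have h' : v = u + a ∨ v = u - a ∨ v = u + b := by
      rcases h with (h | h) | (h | h)
      · exact Or.inl h
      · exact Or.inr (Or.inr h)
      · exact Or.inr (Or.inl (by rw [h]; abel))
      · exact Or.inr (Or.inr (by rw [h, add_assoc, hb, add_zero]))
    have e1 : |i + 1| ≤ |i| + 1 := by simpa using abs_add_le i 1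
    have e2 : |i - 1| ≤ |i| + 1 := by simpa using abs_sub i 1
    rcases h' with h | h | h <;> rcases hi with ⟨h1, h2⟩ | ⟨h1, h2⟩
    · exact ⟨i + 1, Or.inl ⟨by push_cast; omega, by rw [h2, h, add_smul, one_smul]; abel⟩⟩
    · exact ⟨i + 1, Or.inr ⟨by push_cast; omega, by rw [h2, h, add_smul, one_smul]; abel⟩⟩
    · exact ⟨i - 1, Or.inl ⟨by push_cast; omega, by rw [h2, h, sub_smul, one_smul]; abel⟩⟩
    · exact ⟨i - 1, Or.inr ⟨by push_cast; omega, by rw [h2, h, sub_smul, one_smul]; abel⟩⟩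
    · exact ⟨i, Or.inr ⟨by push_cast; omega, by rw [h2, h]; abel⟩⟩
    · refine ⟨i, Or.inl ⟨by push_cast; omega, ?_⟩⟩
      rw [h2, h]
      calc u + b + i • a + b = u + i • a + (b + b) := by abel
        _ = u + i • a := by rw [hb, add_zero]

lemma Near.mono {a b : A} {r s : ℕ} {x y : A} (h : Near a b r x y) (hrs : r ≤ s) :
    Near a b s x y := by
  obtain ⟨i, h | h⟩ := h
  · exact ⟨i, Or.inl ⟨by omega, h.2⟩⟩
  · exact ⟨i, Or.inr ⟨by omega, h.2⟩⟩

lemma Lad.a_ne {a b : A} {m : ℤ} (h : Lad a b m) (hm : 1 < m) : a ≠ 0 := by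
  intro h0
  have := h.inj0 1 (by simpa using hm) (by simp [h0])
  omega

lemma Lad.b_ne {a b : A} {m : ℤ} (h : Lad a b m) (hm : 1 < m) : b ≠ 0 := by
  have := h.inj1 0 (by simp; omega)
  simpa using this

lemma edist_iff {a b : A} {m : ℤ} (h : Lad a b m) (hm : 1 < m) (r : ℕ) (x y : A) :
    (ladder a b).edist x y ≤ (r : ℕ∞) ↔ Near a b r x y := by
  rw [edist_le_iff]
  constructor
  · rintro ⟨w, hw⟩
    exact (near_of_walk a b h.bb w).mono hw
  · rintro ⟨i, ⟨h1, h2⟩ | ⟨h1, h2⟩⟩
    · obtain ⟨w, hw⟩ := walk_a a b (h.a_ne hm) x i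
      subst h2
      exact ⟨w, by omega⟩
    · obtain ⟨w, hw⟩ := walk_a a b (h.a_ne hm) x i
      subst h2
      have hadj : (ladder a b).Adj (x + i • a) (x + i • a + b) := by
        simp [ladder, h.b_ne hm]
      refine ⟨w.concat hadj, ?_⟩
      simp only [SimpleGraph.Walk.length_concat]
      omega

variable [DecidableEq A]

/-- The ball as a finset. -/
noncomputable def ball (a b : A) (k : ℕ) (x : A) : Finset A :=
  (Icc (-(k : ℤ)) k).image (fun i => x + i • a) ∪
    (Icc (-(k : ℤ) + 1) (k - 1)).image (fun i => x + i • a + b)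

lemma mem_ball (a b : A) (k : ℕ) (x y : A) : y ∈ ball a b k x ↔ Near a b k x y := by
  simp only [ball, mem_union, mem_image, mem_Icc, Near]
  constructor
  · rintro (⟨i, h1, h2⟩ | ⟨i, h1, h2⟩)
    · exact ⟨i, Or.inl ⟨abs_le.2 h1, h2.symm⟩⟩
    · refine ⟨i, Or.inr ⟨?_, h2.symm⟩⟩
      have : |i| ≤ k - 1 := abs_le.2 ⟨by omega, h1.2⟩
      omega
  · rintro ⟨i, ⟨h1, h2⟩ | ⟨h1, h2⟩⟩
    · exact Or.inl ⟨i, abs_le.1 h1, h2.symm⟩
    · have : |i| ≤ k - 1 := by omega
      have := abs_le.1 this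
      exact Or.inr ⟨i, ⟨by omega, by omega⟩, h2.symm⟩

lemma card_ball {a b : A} {m : ℤ} (h : Lad a b m) (k : ℕ) (hk : 1 ≤ k) (hm : 2 * (k : ℤ) < m)
    (x : A) : (ball a b k x).card = 4 * k := by
  have hinj : ∀ i j : ℤ, |i - j| < m → i • a = j • a → i = j := fun i j h1 h2 => by
    have := h.inj0 (i - j) h1 (by rw [sub_smul, h2, sub_self])
    omega
  rw [ball, card_union_of_disjoint, card_image_of_injOn, card_image_of_injOn]
  · simp only [Int.card_Icc]; omega
  · intro i hi j hj hij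
    simp only [coe_Icc, Set.mem_Icc] at hi hj
    exact hinj i j (abs_lt.2 ⟨by omega, by omega⟩) (by simpa using hij)
  · intro i hi j hj hij
    simp only [coe_Icc, Set.mem_Icc] at hi hj
    exact hinj i j (abs_lt.2 ⟨by omega, by omega⟩) (by simpa using hij)
  · rw [disjoint_left]
    intro y h1 h2
    simp only [mem_image, mem_Icc] at h1 h2
    obtain ⟨i, hi, rfl⟩ := h1
    obtain ⟨j, hj, hij⟩ := h2
    apply h.inj1 (j - i) (abs_lt.2 ⟨by omega, by omega⟩)
    rw [sub_smul]
    calc j • a - i • a + b = (x + j • a + b) - (x + i • a) := by abel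
      _ = 0 := by rw [hij, sub_self]

variable [Fintype A]

lemma no_small_cover {a b : A} (k s : ℕ) (hk : 1 ≤ k) (hs : 2 ≤ s)
    (h : Lad a b (2 * k * s)) (htw : ((2 * k * s : ℤ)) • a + (s : ℤ) • b = b)
    (hcard : Fintype.card A = 4 * k * s) (D : Finset A)
    (hD : ∀ v, ∃ d ∈ D, Near a b k d v) : s + 1 ≤ D.card := by
  by_contra hlt
  have hDs : D.card ≤ s := by omega
  have hm : 2 * (k : ℤ) < 2 * k * s := by nlinarith
  -- unique covering
  have huniq : ∀ v, ∀ d ∈ D, ∀ e ∈ D, Near a b k d v → Near a b k e v → d = e := by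
    have h1 : ∑ v : A, (D.filter fun d => v ∈ ball a b k d).card = ∑ d ∈ D, (ball a b k d).card := by
      simp only [card_filter]
      rw [sum_comm]
      refine sum_congr rfl fun d _ => ?_
      rw [← card_filter]; congr 1; ext; simp
    have h2 : ∑ d ∈ D, (ball a b k d).card ≤ Fintype.card A := by
      rw [sum_congr rfl fun d _ => card_ball h k hk hm d, sum_const, smul_eq_mul, hcard]
      nlinarith
    have h3 : ∀ v ∈ (univ : Finset A), 1 ≤ (D.filter fun d => v ∈ ball a b k d).card := by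
      intro v _
      obtain ⟨d, hd, hdv⟩ := hD v
      exact card_pos.2 ⟨d, mem_filter.2 ⟨hd, (mem_ball _ _ _ _ _).2 hdv⟩⟩
    have h4 := (sum_eq_sum_iff_of_le h3).1 (le_antisymm (sum_le_sum h3) (by
      rw [h1]; simpa using h2))
    intro v d hd e he h5 h6
    exact card_le_one.1 (h4 v (mem_univ _)).ge d (mem_filter.2 ⟨hd, (mem_ball _ _ _ _ _).2 h5⟩) e
      (mem_filter.2 ⟨he, (mem_ball _ _ _ _ _).2 h6⟩)
  have hb := h.bb
  have hk' : |(k : ℤ)| = k := abs_of_nonneg (by positivity)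
  have step : ∀ d ∈ D, d + (2 * k : ℤ) • a + b ∈ D := by
    intro d hd
    obtain ⟨e, he, i, ⟨h1, h2⟩ | ⟨h1, h2⟩⟩ := hD (d + (k : ℤ) • a + b)
    · have hi := abs_le.1 h1
      have hq : d + (k : ℤ) • a = e + i • a + b := by
        rw [← h2, add_assoc _ b b, hb, add_zero]
      by_cases c1 : i = -k
      · have : e = d + (2 * k : ℤ) • a + b := by
          rw [c1, neg_smul] at h2
          rw [two_mul, add_smul]
          calc e = (e + -((k : ℤ) • a)) + (k : ℤ) • a := by abel
            _ = _ := by rw [← h2]; abel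
        exact this ▸ he
      by_cases c2 : i = k
      · exfalso
        have hde : d = e + (0 : ℤ) • a + b := by
          rw [c2] at hq
          calc d = d + (k : ℤ) • a - (k : ℤ) • a := by abel
            _ = _ := by rw [hq, zero_smul]; abel
        have := huniq d d hd e he ⟨0, Or.inl ⟨by simp, by simp⟩⟩
          ⟨0, Or.inr ⟨by simp; omega, hde⟩⟩
        rw [← this] at hde
        exact h.b_ne (by omega) (by simpa using hde)
      exfalso
      have hi' : |i| ≤ k - 1 := abs_le.2 ⟨by omega, by omega⟩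
      have := huniq (d + (k : ℤ) • a) d hd e he ⟨k, Or.inl ⟨by omega, rfl⟩⟩
        ⟨i, Or.inr ⟨by omega, hq⟩⟩
      rw [← this] at hq
      apply h.inj1 (i - k) (abs_lt.2 ⟨by omega, by omega⟩)
      rw [sub_smul]
      calc i • a - (k : ℤ) • a + b = (d + i • a + b) - (d + (k : ℤ) • a) := by abel
        _ = 0 := by rw [hq, sub_self]
    · exfalso
      have hq : d + (k : ℤ) • a = e + i • a := add_right_cancel h2
      have hi' : |i| ≤ k - 1 := by omega
      have hi := abs_le.1 hi'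
      have := huniq (d + (k : ℤ) • a) d hd e he ⟨k, Or.inl ⟨by omega, rfl⟩⟩
        ⟨i, Or.inl ⟨by omega, hq⟩⟩
      rw [← this] at hq
      have := h.inj0 (k - i) (abs_lt.2 ⟨by omega, by omega⟩) (by
        rw [sub_smul, add_left_cancel hq, sub_self])
      omega
  obtain ⟨d, hd, -⟩ := hD 0
  have iter : ∀ r : ℕ, d + (2 * k * r : ℤ) • a + (r : ℤ) • b ∈ D := by
    intro r
    induction r with
    | zero => simpa using hd
    | succ r ih =>
      have := step _ ih
      convert this using 1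
      push_cast
      rw [mul_add, mul_one, add_smul, add_smul, one_smul]; abel
  have hdb := iter s
  rw [add_assoc, htw] at hdb
  have := huniq d d hd (d + b) hdb ⟨0, Or.inl ⟨by simp, by simp⟩⟩
    ⟨0, Or.inr ⟨by simp; omega, by rw [zero_smul, add_zero, add_assoc, hb, add_zero]⟩⟩
  exact h.b_ne (by omega) (by simpa using this)

omit [Fintype A] in
lemma almost_cover {a b : A} (k s : ℕ) (hk : 1 ≤ k)
    (h : Lad a b (2 * k * s)) (v : A) :
    ∃ D : Finset A, D.card ≤ s ∧ ∀ u, u ≠ v → ∃ d ∈ D, Near a b k d u := by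
  have hb := h.bb
  refine ⟨(range s).image fun r : ℕ => v + b + ((k : ℤ) + 2 * k * r) • a + (r : ℤ) • b,
    card_image_le.trans (by simp), fun u hu => ?_⟩
  obtain ⟨x, hx0, hxm, hx⟩ := h.gen (u - (v + b))
  have hk0 : (0 : ℤ) < 2 * k := by omega
  obtain ⟨r, hr⟩ : ∃ r : ℕ, (r : ℤ) = x / (2 * k) := ⟨(x / (2 * k)).toNat, by
    rw [Int.toNat_of_nonneg (Int.ediv_nonneg hx0 hk0.le)]⟩
  have hy0 := Int.emod_nonneg x hk0.ne'
  have hy1 := Int.emod_lt_of_pos x hk0
  have hxy := Int.mul_ediv_add_emod x (2 * k)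
  rw [← hr] at hxy
  set y := x % (2 * k) with hy
  have hrs : r < s := by
    by_contra hh
    have : (s : ℤ) ≤ r := by omega
    nlinarith
  have hpar : ∀ r : ℕ, (r : ℤ) • b = 0 ∧ ((r : ℤ) + 1) • b = b ∨
      (r : ℤ) • b = b ∧ ((r : ℤ) + 1) • b = 0 := by
    intro r
    induction r with
    | zero => left; simp
    | succ r ih =>
      push_cast
      rcases ih with ⟨h1, h2⟩ | ⟨h1, h2⟩
      · right; exact ⟨h2, by rw [add_smul _ (1 : ℤ), h2, one_smul, hb]⟩
      · left; exact ⟨h2, by rw [add_smul _ (1 : ℤ), h2, one_smul, zero_add]⟩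
  -- `u` is on the same side as the centre `r`, or on the other side
  have hu' : u = v + b + x • a + (r : ℤ) • b ∨ u = v + b + x • a + (r : ℤ) • b + b := by
    rcases hpar r with ⟨h1, -⟩ | ⟨h1, -⟩ <;> rcases hx with hx | hx
    · left; rw [h1, ← hx]; abel
    · right; rw [h1, add_zero, add_assoc, ← hx]; abel
    · right; rw [h1, add_assoc, hb, ← hx]; abel
    · left; rw [h1, add_assoc, ← hx]; abel
  have hmem : ∀ r' : ℕ, r' < s → v + b + ((k : ℤ) + 2 * k * r') • a + (r' : ℤ) • b ∈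
      (range s).image fun r : ℕ => v + b + ((k : ℤ) + 2 * k * r) • a + (r : ℤ) • b :=
    fun r' hr' => mem_image.2 ⟨r', mem_range.2 hr', rfl⟩
  have hsm : x • a = ((k : ℤ) + 2 * k * r) • a + (y - k) • a := by
    rw [← add_smul]; congr 1; omega
  rcases hu' with hu' | hu'
  · exact ⟨_, hmem r hrs, y - k, Or.inl ⟨abs_le.2 ⟨by omega, by omega⟩, by rw [hu', hsm]; abel⟩⟩
  by_cases hy' : y = 0
  · rcases Nat.eq_zero_or_pos r with hr0 | hr0
    · exfalso
      apply hu
      have : x = 0 := by rw [← hxy, hr0, hy']; simp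
      rw [hu', this, hr0]
      simp [add_assoc, hb]
    · obtain ⟨r', rfl⟩ : ∃ r', r = r' + 1 := ⟨r - 1, by omega⟩
      refine ⟨_, hmem r' (by omega), k, Or.inl ⟨by rw [abs_of_nonneg (by positivity)], ?_⟩⟩
      have hx' : x • a = ((k : ℤ) + 2 * k * r') • a + (k : ℤ) • a := by
        rw [← add_smul]; congr 1; rw [← hxy, hy']; push_cast; ring
      rw [hu', hx']
      push_cast
      rw [add_smul (r' : ℤ) 1 b, one_smul]
      calc _ = v + b + ((k : ℤ) + 2 * k * r') • a + (r' : ℤ) • b + (k : ℤ) • a + (b + b) := by abel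
        _ = _ := by rw [hb, add_zero]
  · refine ⟨_, hmem r hrs, y - k, Or.inr ⟨?_, by rw [hu', hsm]; abel⟩⟩
    have : |y - k| ≤ k - 1 := abs_le.2 ⟨by omega, by omega⟩
    omega

theorem ladder_main {a b : A} (k s : ℕ) (hk : 1 ≤ k) (hs : 2 ≤ s)
    (h : Lad a b (2 * k * s)) (htw : ((2 * k * s : ℤ)) • a + (s : ℤ) • b = b)
    (hcard : Fintype.card A = 4 * k * s) :
    (ladder a b).Connected ∧ IsKCritical (ladder a b) k ∧ gammaK (ladder a b) k = s + 1 ∧
      deltaK (ladder a b) k + 1 = 4 * k := by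
  have hm : 2 * (k : ℤ) < 2 * k * s := by nlinarith
  have hm1 : (1 : ℤ) < 2 * k * s := by omega
  have hlow : ∀ D : Finset A, IsKDom (ladder a b) k D → s + 1 ≤ D.card := fun D hD =>
    no_small_cover k s hk hs h htw hcard D fun v => by
      obtain ⟨d, hd, hdv⟩ := hD v
      exact ⟨d, hd, (edist_iff h hm1 _ _ _).1 hdv⟩
  have hgam : gammaK (ladder a b) k = s + 1 := by
    obtain ⟨D, hD, hcov⟩ := almost_cover k s hk h 0
    have hdom : IsKDom (ladder a b) k (insert 0 D) := by
      intro v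
      by_cases hv : v = 0
      · exact ⟨0, mem_insert_self _ _, by simp [hv]⟩
      · obtain ⟨d, hd, hdv⟩ := hcov v hv
        exact ⟨d, mem_insert_of_mem hd, (edist_iff h hm1 _ _ _).2 hdv⟩
    apply le_antisymm
    · exact (gammaK_le hdom).trans ((card_insert_le _ _).trans (by omega))
    · obtain ⟨D', hD', h'⟩ := gammaK_mem hdom
      rw [← h']
      exact hlow D' hD'
  refine ⟨?_, ?_, hgam, ?_⟩
  · rw [SimpleGraph.connected_iff_exists_forall_reachable]
    refine ⟨0, fun w => ?_⟩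
    obtain ⟨i, -, -, hi⟩ := h.gen w
    have : Near a b (i.natAbs + 1) 0 w := by
      refine ⟨i, ?_⟩
      rcases hi with hi | hi
      · left; exact ⟨by push_cast; omega, by rw [hi, zero_add]⟩
      · right; exact ⟨by push_cast; omega, by rw [hi, zero_add]⟩
    obtain ⟨p, -⟩ := (edist_le_iff _ _ _ _).1 ((edist_iff h hm1 _ _ _).2 this)
    exact ⟨p⟩
  · intro v
    rw [hgam]
    obtain ⟨D, hD, hcov⟩ := almost_cover k s hk h v
    have hv : ∀ d ∈ D, ¬ (ladder a b).edist d v ≤ (k : ℕ∞) := by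
      intro d hd hdv
      have : IsKDom (ladder a b) k D := by
        intro u
        by_cases hu : u = v
        · exact ⟨d, hd, hu ▸ hdv⟩
        · obtain ⟨e, he, heu⟩ := hcov u hu
          exact ⟨e, he, (edist_iff h hm1 _ _ _).2 heu⟩
      have := hlow D this
      omega
    have hne : ∀ d ∈ D, d ∈ {u : A | u ≠ v} := by
      intro d hd hdv
      exact hv d hd (by simp [hdv])
    have hdom : IsKDom ((ladder a b).induce {u : A | u ≠ v}) k
        (D.subtype fun u => u ∈ {u : A | u ≠ v}) := by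
      rintro ⟨u, hu⟩
      obtain ⟨d, hd, hdu⟩ := hcov u hu
      exact ⟨⟨d, hne d hd⟩, mem_subtype.2 hd,
        edist_induce _ k d u v (hne d hd) hu ((edist_iff h hm1 _ _ _).2 hdu) (hv d hd)⟩
    refine (gammaK_le hdom).trans_lt ?_
    rw [card_subtype]
    exact (card_filter_le _ _).trans_lt (by omega)
  · have hdeg : ∀ v, kDegree (ladder a b) k v + 1 = 4 * k := by
      intro v
      have : {u : A | u ≠ v ∧ (ladder a b).edist u v ≤ (k : ℕ∞)} = ((ball a b k v).erase v : Finset A) := by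
        ext u
        simp only [Set.mem_ofPred_eq, mem_coe, mem_erase, mem_ball]
        rw [SimpleGraph.edist_comm, edist_iff h hm1]
      rw [kDegree, this, Set.ncard_coe_finset, card_erase_add_one, card_ball h k hk hm]
      exact (mem_ball _ _ _ _ _).2 ⟨0, Or.inl ⟨by simp, by simp⟩⟩
    obtain ⟨v, hv⟩ : deltaK (ladder a b) k ∈ Set.range (kDegree (ladder a b) k) :=
      Nat.sInf_mem ⟨_, 0, rfl⟩
    rw [← hv, hdeg]

end ladder

lemma lad_prism (m : ℕ) (hm : 0 < m) :
    Lad ((1, 0) : ZMod m × ZMod 2) (0, 1) m where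
  bb := by
    ext
    · simp
    · simp only [Prod.snd_add, Prod.snd_zero]; decide
  inj0 := fun i hi h => by
    have h1 := congrArg Prod.fst h
    rw [Prod.smul_fst, zsmul_eq_mul, mul_one, Prod.fst_zero] at h1
    rw [ZMod.intCast_zmod_eq_zero_iff_dvd] at h1
    exact Int.eq_zero_of_abs_lt_dvd h1 hi
  inj1 := fun i _ h => by
    have h1 := congrArg Prod.snd h
    simp at h1
  gen := fun x => by
    have : NeZero m := ⟨hm.ne'⟩
    refine ⟨x.1.val, by positivity, by exact_mod_cast ZMod.val_lt x.1, ?_⟩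
    obtain ⟨x1, x2⟩ := x
    have : x2 = 0 ∨ x2 = 1 := by revert x2; decide
    rcases this with rfl | rfl
    · left; simp
    · right; simp

lemma lad_moebius (m : ℕ) (hm : 0 < m) :
    Lad (1 : ZMod (2 * m)) (m : ZMod (2 * m)) m where
  bb := by
    have : ((2 * m : ℕ) : ZMod (2 * m)) = 0 := ZMod.natCast_self _
    rw [← this]; push_cast; ring
  inj0 := fun i hi h => by
    simp only [zsmul_eq_mul, mul_one] at h
    rw [ZMod.intCast_zmod_eq_zero_iff_dvd] at h
    exact Int.eq_zero_of_abs_lt_dvd h (by push_cast; omega)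
  inj1 := fun i hi h => by
    simp only [zsmul_eq_mul, mul_one] at h
    have h' : ((i + m : ℤ) : ZMod (2 * m)) = 0 := by push_cast; exact h
    rw [ZMod.intCast_zmod_eq_zero_iff_dvd] at h'
    have hi' := abs_lt.1 hi
    have := Int.eq_zero_of_abs_lt_dvd h' (abs_lt.2 ⟨by push_cast; omega, by push_cast; omega⟩)
    omega
  gen := fun x => by
    have : NeZero (2 * m) := ⟨by omega⟩
    have hx := ZMod.val_lt x
    by_cases h : x.val < m
    · exact ⟨x.val, by positivity, by omega, Or.inl (by simp)⟩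
    · exact ⟨x.val - m, by omega, by omega, Or.inr (by simp)⟩

theorem main (k l : ℕ) (hk : 1 ≤ k) (hl : 3 ≤ l) :
    ∃ (V : Type) (_ : Fintype V) (G : SimpleGraph V), G.Connected ∧ IsKCritical G k ∧
      gammaK G k = l ∧ Fintype.card V < (deltaK G k + 1) * (gammaK G k - 1) + 1 := by
  obtain ⟨s, rfl⟩ : ∃ s, l = s + 1 := ⟨l - 1, by omega⟩
  have hs : 2 ≤ s := by omega
  have hm : 0 < 2 * k * s := by positivity
  rcases Nat.even_or_odd s with ⟨t, ht⟩ | ⟨t, ht⟩
  · have : NeZero (2 * (2 * k * s)) := ⟨by omega⟩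
    have hL := lad_moebius (2 * k * s) hm
    have hc : Fintype.card (ZMod (2 * (2 * k * s))) = 4 * k * s := by rw [ZMod.card]; ring
    obtain ⟨h1, h2, h3, h4⟩ := ladder_main k s hk hs (by exact_mod_cast hL) (by
      have := hL.bb
      rw [show (s : ℤ) = t + t by omega, add_smul (t : ℤ), ← smul_add, this, smul_zero, add_zero]
      simp [ht]) hc
    exact ⟨_, inferInstance, _, h1, h2, h3, by rw [h4, h3, hc]; simp⟩
  · have : NeZero (2 * k * s) := ⟨by omega⟩
    have hL := lad_prism (2 * k * s) hm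
    have hc : Fintype.card (ZMod (2 * k * s) × ZMod 2) = 4 * k * s := by
      rw [Fintype.card_prod, ZMod.card, ZMod.card]; ring
    obtain ⟨h1, h2, h3, h4⟩ := ladder_main k s hk hs (by exact_mod_cast hL) (by
      have := hL.bb
      have h0 : ((2 * k * s : ℤ)) • ((1, 0) : ZMod (2 * k * s) × ZMod 2) = 0 := by
        have : ((2 * k * s : ℕ) : ZMod (2 * k * s)) = 0 := ZMod.natCast_self _
        ext
        · rw [Prod.smul_fst, zsmul_eq_mul, mul_one, Prod.fst_zero, ← this]; push_cast; rfl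
        · simp
      rw [h0, zero_add, show (s : ℤ) = t + t + 1 by omega, add_smul, add_smul (t : ℤ), ← smul_add,
        this, smul_zero, zero_add, one_smul]) hc
    exact ⟨_, inferInstance, _, h1, h2, h3, by rw [h4, h3, hc]; simp⟩

end Pool.Agent.H820Z.Dom
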