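import Mathlib

set_option autoImplicit false

namespace Pool.Agent.H820Z.Sphere

/-- The geometric realisation of the simplicial complex generated by the sets in `F`: the union over
`e ∈ F` of the convex hull of the standard basis vectors indexed by `e`. -/
def realisation {n : ℕ} (F : Finset (Finset (Fin n))) : Set (EuclideanSpace ℝ (Fin n)) :=
  ⋃ e ∈ F, convexHull ℝ ((fun v : Fin n => EuclideanSpace.single v (1 : ℝ)) '' (e : Set (Fin n)))

/-- `H` contains a spanning `(k-1)`-sphere: a set `F` of edges which covers every vertex and whose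
geometric realisation is homeomorphic to the unit sphere of `ℝ^k`. -/
def HasSpanningSphere (k : ℕ) {n : ℕ} (H : Finset (Finset (Fin n))) : Prop :=
  ∃ F ⊆ H, (∀ v : Fin n, ∃ e ∈ F, v ∈ e) ∧
    Nonempty (↥(realisation F) ≃ₜ ↥(Metric.sphere (0 : EuclideanSpace ℝ (Fin k)) 1))

end Pool.Agent.H820Z.Sphere
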