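import Mathlib
import Pool.Agent.Helper475.Miranda

set_option autoImplicit false

namespace Pool.Agent.H820Z.SphereSep

open Set Metric Module

lemma exists_proj (d : ℕ) (P Q : EuclideanSpace ℝ (Fin (d + 2))) :
    ∃ (π : EuclideanSpace ℝ (Fin (d + 2)) →L[ℝ] (Fin d → ℝ))
      (σ : (Fin d → ℝ) →L[ℝ] EuclideanSpace ℝ (Fin (d + 2))),
      (∀ y, π (σ y) = y) ∧ π P = 0 ∧ π Q = 0 := by
  classical
  let K : Submodule ℝ (EuclideanSpace ℝ (Fin (d + 2))) := Submodule.span ℝ (({P, Q} : Finset _) : Set _)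
  have hK : finrank ℝ K ≤ 2 := (finrank_span_finset_le_card _).trans Finset.card_le_two
  have hK2 := Submodule.finrank_add_finrank_orthogonal K
  rw [finrank_euclideanSpace_fin] at hK2
  have hd : d ≤ finrank ℝ Kᗮ := by omega
  let b := stdOrthonormalBasis ℝ Kᗮ
  let u : Fin d → EuclideanSpace ℝ (Fin (d + 2)) := fun i => b (Fin.castLE hd i)
  have hu : Orthonormal ℝ u := by
    have h1 : Orthonormal ℝ (fun i => (b i : EuclideanSpace ℝ (Fin (d + 2)))) :=
      b.orthonormal.comp_linearIsometry Kᗮ.subtypeₗᵢ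
    exact h1.comp _ (Fin.castLE_injective hd)
  refine ⟨ContinuousLinearMap.pi fun i => innerSL ℝ (u i),
    ∑ i, (ContinuousLinearMap.proj i).smulRight (u i), fun y => ?_, ?_, ?_⟩
  · ext i
    simpa [inner_sum, inner_smul_right] using hu.inner_right_fintype y i
  · ext i
    have hP : P ∈ K := Submodule.subset_span (by simp)
    simpa using Submodule.inner_left_of_mem_orthogonal hP (b (Fin.castLE hd i)).2
  · ext i
    have hP : Q ∈ K := Submodule.subset_span (by simp)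
    simpa using Submodule.inner_left_of_mem_orthogonal hP (b (Fin.castLE hd i)).2

lemma exists_path (d : ℕ) (P Q : EuclideanSpace ℝ (Fin (d + 2))) (hP : P ≠ 0) (hQ : Q ≠ 0)
    (π : EuclideanSpace ℝ (Fin (d + 2)) →L[ℝ] (Fin d → ℝ)) (h1 : π P = 0) (h2 : π Q = 0) :
    ∃ γ : ℝ → EuclideanSpace ℝ (Fin (d + 2)), Continuous γ ∧ γ 0 = P ∧ γ 1 = Q ∧
      (∀ t, γ t ≠ 0 ∧ π (γ t) = 0) ∧ ∃ M, ∀ t, ‖γ t‖ ≤ M := by
  let W := LinearMap.ker π.toLinearMap
  have hW : 2 ≤ finrank ℝ W := by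
    have := LinearMap.finrank_range_add_finrank_ker π.toLinearMap
    have h3 := Submodule.finrank_le (LinearMap.range π.toLinearMap)
    rw [finrank_euclideanSpace_fin] at this
    simp only [finrank_fintype_fun_eq_card, Fintype.card_fin] at h3
    change 2 ≤ finrank ℝ (LinearMap.ker π.toLinearMap)
    omega
  have hr : 1 < Module.rank ℝ W := by
    rw [← finrank_eq_rank]; exact_mod_cast hW
  have hpc := isPathConnected_compl_singleton_of_one_lt_rank hr (0 : W)
  obtain ⟨γ, hγ⟩ := hpc.joinedIn ⟨P, h1⟩ (by simpa [Subtype.ext_iff] using hP) ⟨Q, h2⟩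
    (by simpa [Subtype.ext_iff] using hQ)
  refine ⟨fun t => (γ.extend t : W), by fun_prop, by simp, by simp, fun t => ⟨?_, (γ.extend t).2⟩, ?_⟩
  · have : γ.extend t ∈ range γ := γ.extend_range ▸ mem_range_self t
    obtain ⟨s, hs⟩ := this
    have := hγ s
    rw [hs] at this
    exact fun h0 => this (Subtype.ext h0)
  · obtain ⟨M, hM⟩ := (isCompact_range γ.continuous).isBounded.exists_norm_le
    exact ⟨M, fun t => hM _ (γ.extend_range ▸ mem_range_self t)⟩

/-- A closed set of Hausdorff dimension less than `d` does not separate a space homeomorphic to the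
sphere of dimension `d + 1`. -/
theorem not_homeo (d : ℕ) {E : Type} [NormedAddCommGroup E] [NormedSpace ℝ E] [FiniteDimensional ℝ E]
    (X₁ X₂ : Set E) (c₁ : IsClosed X₁) (c₂ : IsClosed X₂) (p q : E) (hp : p ∈ X₁) (hp' : p ∉ X₂)
    (hq : q ∈ X₂) (hq' : q ∉ X₁) (hdim : dimH (X₁ ∩ X₂) < d)
    (h : ↥(X₁ ∪ X₂) ≃ₜ ↥(sphere (0 : EuclideanSpace ℝ (Fin (d + 2))) 1)) : False := by
  classical
  set P : EuclideanSpace ℝ (Fin (d + 2)) := (h ⟨p, Or.inl hp⟩).1 with hP
  set Q : EuclideanSpace ℝ (Fin (d + 2)) := (h ⟨q, Or.inr hq⟩).1 with hQ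
  have hP1 : ‖P‖ = 1 := mem_sphere_zero_iff_norm.1 (h ⟨p, Or.inl hp⟩).2
  have hQ1 : ‖Q‖ = 1 := mem_sphere_zero_iff_norm.1 (h ⟨q, Or.inr hq⟩).2
  have hP0 : P ≠ 0 := by intro h0; rw [h0] at hP1; simp at hP1
  have hQ0 : Q ≠ 0 := by intro h0; rw [h0] at hQ1; simp at hQ1
  obtain ⟨π, σ, hπσ, hπP, hπQ⟩ := exists_proj d P Q
  obtain ⟨γ, γc, γ0, γ1, hγ, M, hM⟩ := exists_path d P Q hP0 hQ0 π hπP hπQ
  -- the tube
  let v : ℝ × (Fin d → ℝ) → EuclideanSpace ℝ (Fin (d + 2)) := fun z => γ z.1 + σ z.2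
  have vc : Continuous v := by fun_prop
  have hπv : ∀ z, π (v z) = z.2 := fun z => by simp [v, (hγ z.1).2, hπσ]
  have v0 : ∀ z, v z ≠ 0 := fun z h0 => by
    have h1 := hπv z
    rw [h0, map_zero] at h1
    simp only [v, ← h1, map_zero, add_zero] at h0
    exact (hγ z.1).1 h0
  let Ψ : ℝ × (Fin d → ℝ) → sphere (0 : EuclideanSpace ℝ (Fin (d + 2))) 1 := fun z =>
    ⟨‖v z‖⁻¹ • v z, by
      rw [mem_sphere_zero_iff_norm, norm_smul, norm_inv, norm_norm,
        inv_mul_cancel₀ (norm_ne_zero_iff.2 (v0 z))]⟩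
  have Ψc : Continuous Ψ := by
    refine Continuous.subtype_mk ?_ _
    exact (vc.norm.inv₀ fun z => norm_ne_zero_iff.2 (v0 z)).smul vc
  let Z : ℝ × (Fin d → ℝ) → E := fun z => (h.symm (Ψ z) : E)
  have Zc : Continuous Z := by fun_prop
  have Zmem : ∀ z, Z z ∈ X₁ ∪ X₂ := fun z => (h.symm (Ψ z)).2
  have Z0 : Z (0, 0) = p := by
    have : Ψ (0, 0) = h ⟨p, Or.inl hp⟩ := by
      apply Subtype.ext
      simp [Ψ, v, γ0, hP]
    simp [Z, this]
  have Z1 : Z (1, 0) = q := by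
    have : Ψ (1, 0) = h ⟨q, Or.inr hq⟩ := by
      apply Subtype.ext
      simp [Ψ, v, γ1, hQ]
    simp [Z, this]
  obtain ⟨δ, δ0, δ1, hδ⟩ : ∃ δ : ℝ, 0 < δ ∧ δ ≤ 1 ∧ ∀ y : Fin d → ℝ, ‖y‖ ≤ δ →
      Z (0, y) ∉ X₂ ∧ Z (1, y) ∉ X₁ := by
    have o1 : IsOpen {y : Fin d → ℝ | Z (0, y) ∉ X₂ ∧ Z (1, y) ∉ X₁} :=
      (c₂.isOpen_compl.preimage (show Continuous fun y : Fin d → ℝ => Z (0, y) by fun_prop)).inter
        (c₁.isOpen_compl.preimage (show Continuous fun y : Fin d → ℝ => Z (1, y) by fun_prop))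
    obtain ⟨ε, ε0, hε⟩ := Metric.isOpen_iff.1 o1 0 ⟨by rwa [Z0], by rwa [Z1]⟩
    refine ⟨min (ε / 2) 1, by positivity, min_le_right _ _, fun y hy => hε ?_⟩
    rw [mem_ball_zero_iff]
    have := min_le_left (ε / 2) 1
    linarith
  set N : ℝ := M + ‖σ‖ + 1 with hN
  have hM0 : 0 ≤ M := (norm_nonneg _).trans (hM 0)
  have N0 : 0 < N := by positivity
  have vN : ∀ z : ℝ × (Fin d → ℝ), ‖z.2‖ ≤ δ → ‖v z‖ ≤ N := fun z hz => by
    have h1 := norm_add_le (γ z.1) (σ z.2)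
    have h2 := σ.le_opNorm z.2
    have h3 := hM z.1
    have h4 : ‖σ‖ * ‖z.2‖ ≤ ‖σ‖ * 1 := by gcongr; linarith
    simp only [v]; linarith
  set ε : ℝ := δ / (2 * N) with hε
  have ε0 : 0 < ε := by positivity
  -- extension and smoothing
  obtain ⟨φ, hφ⟩ := ContinuousMap.exists_restrict_eq (Y := Fin d → ℝ) (c₁.union c₂)
    ⟨fun x => π (h x), by fun_prop⟩
  have hφ' : ∀ z, φ (Z z) = ‖v z‖⁻¹ • z.2 := fun z => by
    have := congrArg (fun f : C(↥(X₁ ∪ X₂), Fin d → ℝ) => f (h.symm (Ψ z))) hφ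
    simp only [ContinuousMap.restrict_apply, ContinuousMap.coe_mk, Homeomorph.apply_symm_apply] at this
    simp only [Z]
    rw [this]
    simp [Ψ, hπv]
  obtain ⟨G, Gc, hG, -⟩ := φ.continuous.exists_contDiff_approx 1 (ε := fun _ => ε) continuous_const
    (fun _ => ε0)
  have hdense : Dense (G '' (X₁ ∩ X₂))ᶜ := by
    apply dense_compl_of_dimH_lt_finrank
    have := (Gc.contDiffOn (s := univ)).dimH_image_le convex_univ (subset_univ (X₁ ∩ X₂))
    simpa using this.trans_lt hdim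
  obtain ⟨w, hw, hw'⟩ := hdense.exists_dist_lt 0 ε0
  have hw2 : ‖w‖ < ε := by simpa using hw'
  -- the map on the cube
  let T : (Fin (d + 1) → ℝ) → ℝ × (Fin d → ℝ) := fun x => (x 0, fun i => δ * (2 * x i.succ - 1))
  have Tc : Continuous T := by fun_prop
  have Tn : ∀ x : Fin (d + 1) → ℝ, (∀ i, 0 ≤ x i ∧ x i ≤ 1) → ‖(T x).2‖ ≤ δ := fun x hx => by
    rw [pi_norm_le_iff_of_nonneg δ0.le]
    intro i
    simp only [T, Real.norm_eq_abs, abs_le]
    have := hx i.succ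
    constructor <;> nlinarith
  let F : (Fin (d + 1) → ℝ) → (Fin (d + 1) → ℝ) := fun x =>
    Fin.cons (infDist (Z (T x)) X₁ - infDist (Z (T x)) X₂) (G (Z (T x)) - w)
  have Fc : Continuous F := by
    refine continuous_pi fun i => ?_
    refine Fin.cases ?_ (fun j => ?_) i
    · simp only [F, Fin.cons_zero]
      exact ((continuous_infDist_pt X₁).comp (Zc.comp Tc)).sub
        ((continuous_infDist_pt X₂).comp (Zc.comp Tc))
    · simp only [F, Fin.cons_succ]
      have := Gc.continuous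
      fun_prop
  have hclose : ∀ (x : Fin (d + 1) → ℝ) (j : Fin d),
      |F x j.succ - ‖v (T x)‖⁻¹ * (δ * (2 * x j.succ - 1))| < 2 * ε := fun x j => by
    have h1 := hG (Z (T x))
    rw [hφ', dist_eq_norm] at h1
    have h2 := (norm_le_pi_norm _ j).trans_lt h1
    have h3 := (norm_le_pi_norm _ j).trans_lt hw2
    simp only [Pi.sub_apply, Pi.smul_apply, smul_eq_mul, Real.norm_eq_abs, abs_lt] at h2 h3
    simp only [F, Fin.cons_succ, Pi.sub_apply, abs_lt]
    simp only [T] at h2 ⊢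
    constructor <;> linarith
  have hbig : ∀ x : Fin (d + 1) → ℝ, (∀ i, 0 ≤ x i ∧ x i ≤ 1) → 2 * ε ≤ ‖v (T x)‖⁻¹ * δ :=
    fun x hx => by
      have h1 := vN (T x) (Tn x hx)
      have h2 : 0 < ‖v (T x)‖ := norm_pos_iff.2 (v0 _)
      have h3 : N⁻¹ ≤ ‖v (T x)‖⁻¹ := inv_anti₀ h2 h1
      have : 2 * ε = N⁻¹ * δ := by rw [hε]; field_simp
      rw [this]; gcongr
  obtain ⟨x, hx, hFx⟩ := Pool.Agent.Helper475.Miranda.poincare_miranda (d + 1) F Fc.continuousOn
    (fun x hx i => by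
      refine Fin.cases (fun h0 => ?_) (fun j h0 => ?_) i
      · have h1 : Z (T x) ∉ X₂ := by
          have := (hδ _ (Tn x hx)).1
          simpa [T, h0] using this
        have h2 : Z (T x) ∈ X₁ := (Zmem _).resolve_right h1
        simp only [F, Fin.cons_zero, infDist_zero_of_mem h2]
        have := infDist_nonneg (x := Z (T x)) (s := X₂)
        linarith
      · have h1 := hclose x j
        have h2 := hbig x hx
        rw [h0, abs_lt] at h1
        nlinarith)
    (fun x hx i => by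
      refine Fin.cases (fun h0 => ?_) (fun j h0 => ?_) i
      · have h1 : Z (T x) ∉ X₁ := by
          have := (hδ _ (Tn x hx)).2
          simpa [T, h0] using this
        have h2 : Z (T x) ∈ X₂ := (Zmem _).resolve_left h1
        simp only [F, Fin.cons_zero, infDist_zero_of_mem h2]
        have := infDist_nonneg (x := Z (T x)) (s := X₁)
        linarith
      · have h1 := hclose x j
        have h2 := hbig x hx
        rw [h0, abs_lt] at h1
        nlinarith)
  have e0 := congrFun hFx 0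
  simp only [F, Fin.cons_zero, Pi.zero_apply, sub_eq_zero] at e0
  have e1 : G (Z (T x)) = w := by
    ext j
    have := congrFun hFx j.succ
    simpa [F, sub_eq_zero] using this
  apply hw
  refine ⟨Z (T x), ?_, e1⟩
  rcases Zmem (T x) with h1 | h1
  · refine ⟨h1, (c₂.mem_iff_infDist_zero ⟨q, hq⟩).2 ?_⟩
    rw [← e0, infDist_zero_of_mem h1]
  · refine ⟨(c₁.mem_iff_infDist_zero ⟨p, hp⟩).2 ?_, h1⟩
    rw [e0, infDist_zero_of_mem h1]

end Pool.Agent.H820Z.SphereSep
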