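import Mathlib
import Pool.Agent.H820Z.TightData

set_option autoImplicit false

namespace Pool.Agent.H820Z.Tight

open Finset

variable {n : ℕ}

/-- the class of a vertex -/
def cls (v : Fin n) : ℕ := v.val % 9

lemma cls_lt (v : Fin n) : cls v < 9 := Nat.mod_lt _ (by norm_num)

/-- the label of a set of vertices -/
def L (S : Finset (Fin n)) : ℕ := lab (∑ v ∈ S, w (cls v))

/-- the hypergraph: 5-sets all of whose 4-subsets have the same label -/
def HH (n : ℕ) : Finset (Finset (Fin n)) :=
  univ.filter fun e => e.card = 5 ∧ ∀ x ∈ e, ∀ y ∈ e, L (e.erase x) = L (e.erase y)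

lemma L_four {a b c d : Fin n} (hab : a ≠ b) (hac : a ≠ c) (had : a ≠ d) (hbc : b ≠ c)
    (hbd : b ≠ d) (hcd : c ≠ d) :
    L {a, b, c, d} = lab (w (cls a) + w (cls b) + w (cls c) + w (cls d)) := by
  unfold L
  rw [sum_insert (by simp [hab, hac, had]), sum_insert (by simp [hbc, hbd]), sum_pair hcd]
  congr 1; ring

lemma L_lt (S : Finset (Fin n)) (hS : S.card = 4) : L S < 9 := by
  obtain ⟨a, b, c, d, hab, hac, had, hbc, hbd, hcd, rfl⟩ := card_eq_four.1 hS
  have := ok_true _ _ _ _ (cls_lt a) (cls_lt b) (cls_lt c) (cls_lt d)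
  simp only [ok, Bool.and_eq_true, decide_eq_true_eq] at this
  rw [L_four hab hac had hbc hbd hcd]
  exact this.1.1

lemma L_ne (S : Finset (Fin n)) (hS : S.card = 4) (v : Fin n) (hv : v ∈ S) : L S ≠ cls v := by
  have h3 : (S.erase v).card = 3 := by rw [card_erase_of_mem hv, hS]
  obtain ⟨b, c, d, hbc, hbd, hcd, h⟩ := card_eq_three.1 h3
  have hb : b ∈ S.erase v := by rw [h]; simp
  have hc : c ∈ S.erase v := by rw [h]; simp
  have hd : d ∈ S.erase v := by rw [h]; simp
  have hS' : S = {v, b, c, d} := by rw [← insert_erase hv, h]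
  have := ok_true _ _ _ _ (cls_lt v) (cls_lt b) (cls_lt c) (cls_lt d)
  simp only [ok, Bool.and_eq_true, decide_eq_true_eq, bne_iff_ne] at this
  rw [hS', L_four (ne_of_mem_erase hb).symm (ne_of_mem_erase hc).symm (ne_of_mem_erase hd).symm
    hbc hbd hcd]
  exact this.1.2

lemma insert_mem {a b c d v : Fin n} (hab : a ≠ b) (hac : a ≠ c) (had : a ≠ d) (hbc : b ≠ c)
    (hbd : b ≠ d) (hcd : c ≠ d) (hv : v ∉ ({a, b, c, d} : Finset (Fin n)))
    (hg : good (cls a) (cls b) (cls c) (cls d) (cls v) = true) :
    insert v {a, b, c, d} ∈ HH n := by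
  have hv' := hv
  simp only [mem_insert, mem_singleton, not_or] at hv'
  obtain ⟨hva, hvb, hvc, hvd⟩ := hv'
  simp only [good, Bool.and_eq_true, beq_iff_eq] at hg
  obtain ⟨⟨⟨g1, g2⟩, g3⟩, g4⟩ := hg
  have key : ∀ x ∈ insert v ({a, b, c, d} : Finset (Fin n)),
      L ((insert v ({a, b, c, d} : Finset (Fin n))).erase x) =
        lab (w (cls a) + w (cls b) + w (cls c) + w (cls d)) := by
    intro x hx
    simp only [mem_insert, mem_singleton] at hx
    rcases hx with rfl | rfl | rfl | rfl | rfl
    · rw [erase_insert hv, L_four hab hac had hbc hbd hcd]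
    · have : (insert v ({x, b, c, d} : Finset (Fin n))).erase x = {b, c, d, v} := by
        ext y; simp only [mem_erase, mem_insert, mem_singleton]
        constructor
        · tauto
        · rintro (rfl | rfl | rfl | rfl) <;> simp [*, Ne.symm]
      rw [this, L_four hbc hbd (Ne.symm hvb) hcd (Ne.symm hvc) (Ne.symm hvd), g1]
    · have : (insert v ({a, x, c, d} : Finset (Fin n))).erase x = {a, c, d, v} := by
        ext y; simp only [mem_erase, mem_insert, mem_singleton]
        constructor
        · tauto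
        · rintro (rfl | rfl | rfl | rfl) <;> simp [*, Ne.symm]
      rw [this, L_four hac had (Ne.symm hva) hcd (Ne.symm hvc) (Ne.symm hvd), g2]
    · have : (insert v ({a, b, x, d} : Finset (Fin n))).erase x = {a, b, d, v} := by
        ext y; simp only [mem_erase, mem_insert, mem_singleton]
        constructor
        · tauto
        · rintro (rfl | rfl | rfl | rfl) <;> simp [*, Ne.symm]
      rw [this, L_four hab had (Ne.symm hva) hbd (Ne.symm hvb) (Ne.symm hvd), g3]
    · have : (insert v ({a, b, c, x} : Finset (Fin n))).erase x = {a, b, c, v} := by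
        ext y; simp only [mem_erase, mem_insert, mem_singleton]
        constructor
        · tauto
        · rintro (rfl | rfl | rfl | rfl) <;> simp [*, Ne.symm]
      rw [this, L_four hab hac (Ne.symm hva) hbc (Ne.symm hvb) (Ne.symm hvc), g4]
  simp only [HH, mem_filter, mem_univ, true_and]
  refine ⟨?_, fun x hx y hy => by rw [key x hx, key y hy]⟩
  rw [card_insert_of_notMem hv, card_eq_four.2 ⟨a, b, c, d, hab, hac, had, hbc, hbd, hcd, rfl⟩]

lemma card_cls (j : ℕ) (hj : j < 9) :
    n / 9 ≤ (univ.filter fun v : Fin n => cls v = j).card := by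
  have : (univ : Finset (Fin (n / 9))).card ≤ (univ.filter fun v : Fin n => cls v = j).card := by
    apply card_le_card_of_injOn (fun i : Fin (n / 9) => (⟨9 * i.val + j, by omega⟩ : Fin n))
    · intro i _
      refine mem_coe.2 (mem_filter.2 ⟨mem_univ _, ?_⟩)
      simp only [cls]
      omega
    · intro i _ i' _ h
      simp only [Fin.mk.injEq] at h
      exact Fin.ext (by omega)
  simpa using this

lemma codeg (S : Finset (Fin n)) (hS : S.card = 4) :
    2 * (n / 9) ≤ ((HH n).filter fun e => S ⊆ e).card + 4 := by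
  obtain ⟨a, b, c, d, hab, hac, had, hbc, hbd, hcd, rfl⟩ := card_eq_four.1 hS
  have := ok_true _ _ _ _ (cls_lt a) (cls_lt b) (cls_lt c) (cls_lt d)
  simp only [ok, Bool.and_eq_true, decide_eq_true_eq] at this
  obtain ⟨j₁, j₂, hj, h₁, h₂, g₁, g₂⟩ : ∃ j₁ j₂, j₁ ≠ j₂ ∧ j₁ < 9 ∧ j₂ < 9 ∧
      good (cls a) (cls b) (cls c) (cls d) j₁ = true ∧
      good (cls a) (cls b) (cls c) (cls d) j₂ = true := by
    have h2 := this.2
    have hnd : ((List.range 9).filter (good (cls a) (cls b) (cls c) (cls d))).Nodup :=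
      List.nodup_range.filter _
    rcases hl : (List.range 9).filter (good (cls a) (cls b) (cls c) (cls d)) with
      _ | ⟨x, _ | ⟨y, l⟩⟩
    · simp [hl] at h2
    · simp [hl] at h2
    · have hx : x ∈ (List.range 9).filter (good (cls a) (cls b) (cls c) (cls d)) := by
        rw [hl]; simp
      have hy : y ∈ (List.range 9).filter (good (cls a) (cls b) (cls c) (cls d)) := by
        rw [hl]; simp
      rw [hl] at hnd
      simp only [List.mem_filter, List.mem_range] at hx hy
      refine ⟨x, y, ?_, hx.1, hy.1, hx.2, hy.2⟩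
      rintro rfl
      simp at hnd
  set S : Finset (Fin n) := {a, b, c, d} with hSdef
  set U : Finset (Fin n) := (univ.filter fun v : Fin n => cls v = j₁) ∪
    (univ.filter fun v : Fin n => cls v = j₂) with hU
  have hUc : 2 * (n / 9) ≤ U.card := by
    rw [hU, card_union_of_disjoint]
    · have := card_cls (n := n) j₁ h₁
      have := card_cls (n := n) j₂ h₂
      omega
    · rw [disjoint_filter]; intro x _ h1 h2; exact hj (h1.symm.trans h2)
  have h1 : (U \ S).card ≤ ((HH n).filter fun e => S ⊆ e).card := by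
    apply card_le_card_of_injOn (fun v => insert v S)
    · intro v hv
      simp only [coe_sdiff, Set.mem_sdiff, mem_coe] at hv
      simp only [coe_filter, Set.mem_ofPred_eq]
      refine ⟨insert_mem hab hac had hbc hbd hcd hv.2 ?_, subset_insert _ _⟩
      have := hv.1
      simp only [hU, mem_union, mem_filter, mem_univ, true_and] at this
      rcases this with h | h <;> rw [h] <;> assumption
    · intro v hv v' hv' h
      simp only [coe_sdiff, Set.mem_sdiff, mem_coe] at hv hv'
      have : v ∈ insert v' S := by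
        simp only at h
        rw [← h]; exact mem_insert_self _ _
      rcases mem_insert.1 this with h | h
      · exact h
      · exact absurd h hv.2
  have h2 := le_card_sdiff S U
  omega

/-- the colour of an edge -/
noncomputable def col (e : Finset (Fin n)) : ℕ :=
  if h : e.Nonempty then L (e.erase h.choose) else 0

lemma col_eq {e : Finset (Fin n)} (he : e ∈ HH n) {x : Fin n} (hx : x ∈ e) :
    col e = L (e.erase x) := by
  have h : e.Nonempty := ⟨x, hx⟩
  simp only [HH, mem_filter, mem_univ, true_and] at he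
  rw [col, dif_pos h]
  exact he.2 _ h.choose_spec _ hx

lemma card_of_mem {e : Finset (Fin n)} (he : e ∈ HH n) : e.card = 5 := by
  simp only [HH, mem_filter, mem_univ, true_and] at he
  exact he.1

lemma col_eq_of_subset {e S : Finset (Fin n)} (he : e ∈ HH n) (hS : S.card = 4) (hSe : S ⊆ e) :
    col e = L S := by
  have h5 := card_of_mem he
  obtain ⟨x, hx, hxS⟩ := exists_mem_notMem_of_card_lt_card (show S.card < e.card by omega)
  rw [col_eq he hx]
  congr 1
  symm
  apply eq_of_subset_of_card_le
  · intro y hy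
    exact mem_erase.2 ⟨fun h => hxS (h ▸ hy), hSe hy⟩
  · rw [card_erase_of_mem hx]; omega

lemma col_adj {e f : Finset (Fin n)} (he : e ∈ HH n) (hf : f ∈ HH n) (h : 4 ≤ (e ∩ f).card) :
    col e = col f := by
  obtain ⟨S, hS, hS4⟩ := exists_subset_card_eq h
  rw [col_eq_of_subset he hS4 (hS.trans inter_subset_left),
    col_eq_of_subset hf hS4 (hS.trans inter_subset_right)]

lemma col_lt {e : Finset (Fin n)} (he : e ∈ HH n) : col e < 9 := by
  have h5 := card_of_mem he
  obtain ⟨x, hx⟩ : e.Nonempty := card_pos.1 (by omega)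
  rw [col_eq he hx]
  exact L_lt _ (by rw [card_erase_of_mem hx, h5])

lemma col_ne {e : Finset (Fin n)} (he : e ∈ HH n) {v : Fin n} (hv : v ∈ e) : col e ≠ cls v := by
  have h5 := card_of_mem he
  obtain ⟨x, hx, hxv⟩ := exists_mem_ne (show 1 < e.card by omega) v
  rw [col_eq he hx]
  exact L_ne _ (by rw [card_erase_of_mem hx, h5]) v (mem_erase.2 ⟨hxv.symm, hv⟩)

/-- every colour class misses a vertex -/
lemma exists_missed (hn : 9 ≤ n) {e : Finset (Fin n)} (he : e ∈ HH n) :
    ∃ v : Fin n, ∀ f ∈ HH n, v ∈ f → col f ≠ col e := by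
  have := col_lt he
  refine ⟨⟨col e, by omega⟩, fun f hf hv h => col_ne hf hv ?_⟩
  rw [h, cls]
  exact (Nat.mod_eq_of_lt this).symm

theorem no_spanning : ¬ ∀ (k n : ℕ), 2 ≤ k → k ≤ n →
      ∀ H : Finset (Finset (Fin n)),
        (∀ e ∈ H, e.card = k) →
        (∀ S : Finset (Fin n), S.card = k - 1 →
          n ≤ k * (H.filter (fun e => S ⊆ e)).card) →
        ∃ e ∈ H, ∀ v : Fin n, ∃ f ∈ H,
          Relation.ReflTransGen
            (fun a b : Finset (Fin n) => a ∈ H ∧ b ∈ H ∧ k - 1 ≤ (a ∩ b).card) e f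
          ∧ v ∈ f := by
  intro h
  obtain ⟨e, he, hv⟩ := h 5 180 (by norm_num) (by norm_num) (HH 180) (fun e he => card_of_mem he)
    (fun S hS => by have := codeg S hS; omega)
  obtain ⟨v, hv'⟩ := exists_missed (by norm_num) he
  obtain ⟨f, hf, hef, hvf⟩ := hv v
  apply hv' f hf hvf
  clear hf hvf
  induction hef with
  | refl => rfl
  | tail _ hbc ih => rw [← ih]; exact (col_adj hbc.1 hbc.2.1 hbc.2.2).symm

end Pool.Agent.H820Z.Tight
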