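import Mathlib
import Pool.Agent.H820Z.SphereDefs
import Pool.Agent.H820Z.SphereSep
import Pool.Agent.H820Z.TightMain

set_option autoImplicit false

namespace Pool.Agent.H820Z.Sphere

open Set Pool.Agent.H820Z.Tight

variable {n : ℕ}

/-- the simplex spanned by `e` -/
def simp (e : Finset (Fin n)) : Set (EuclideanSpace ℝ (Fin n)) :=
  convexHull ℝ ((fun v : Fin n => EuclideanSpace.single v (1 : ℝ)) '' (e : Set (Fin n)))

lemma mem_simp_iff (e : Finset (Fin n)) (x : EuclideanSpace ℝ (Fin n)) :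
    x ∈ simp e ↔ (∀ v, 0 ≤ x v) ∧ (∀ v, v ∉ e → x v = 0) ∧ ∑ v, x v = 1 := by
  constructor
  · intro hx
    refine convexHull_min (t := {x : EuclideanSpace ℝ (Fin n) |
      (∀ v, 0 ≤ x v) ∧ (∀ v, v ∉ e → x v = 0) ∧ ∑ v, x v = 1}) ?_ ?_ hx
    · rintro _ ⟨u, hu, rfl⟩
      refine ⟨fun v => ?_, fun v hv => ?_, ?_⟩
      · by_cases h : v = u <;> simp [h]
      · have : v ≠ u := fun h => hv (h ▸ hu)
        simp [this]
      · simp
    · rintro x ⟨x1, x2, x3⟩ y ⟨y1, y2, y3⟩ a b ha hb hab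
      refine ⟨fun v => ?_, fun v hv => ?_, ?_⟩
      · have := x1 v
        have := y1 v
        simp only [PiLp.add_apply, PiLp.smul_apply, smul_eq_mul]
        positivity
      · simp [x2 v hv, y2 v hv]
      · simp only [PiLp.add_apply, PiLp.smul_apply, smul_eq_mul]
        rw [Finset.sum_add_distrib, ← Finset.mul_sum, ← Finset.mul_sum, x3, y3]; linarith
  · rintro ⟨x1, x2, x3⟩
    have hs : ∑ v ∈ e, x v = 1 := by
      rw [← x3]
      exact Finset.sum_subset (Finset.subset_univ _) fun v _ hv => x2 v hv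
    have hx : x = ∑ v ∈ e, x v • EuclideanSpace.single v (1 : ℝ) := by
      ext u
      by_cases hu : u ∈ e
      · simp [Pi.single_apply, hu]
      · simp [Pi.single_apply, hu, x2 u hu]
    rw [hx]
    exact (convex_convexHull ℝ _).sum_mem (fun v _ => x1 v) hs
      fun v hv => subset_convexHull ℝ _ ⟨v, hv, rfl⟩

lemma simp_closed (e : Finset (Fin n)) : IsClosed (simp e) :=
  ((e.finite_toSet.image _).isCompact_convexHull ℝ).isClosed

lemma real_closed (F : Finset (Finset (Fin n))) : IsClosed (realisation F) :=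
  F.finite_toSet.isClosed_biUnion fun e _ => simp_closed e

lemma dim_simp (e : Finset (Fin n)) (he : e.card ≤ 3) : dimH (simp e) ≤ 2 := by
  rcases e.eq_empty_or_nonempty with rfl | ⟨a, ha⟩
  · simp [simp]
  let f : (↥(e.erase a) → ℝ) → EuclideanSpace ℝ (Fin n) := fun t =>
    EuclideanSpace.single a (1 : ℝ) + ∑ v : ↥(e.erase a),
      t v • (EuclideanSpace.single (v : Fin n) (1 : ℝ) - EuclideanSpace.single a (1 : ℝ))
  have hf : ContDiff ℝ 1 f := by fun_prop
  have hsub : simp e ⊆ range f := by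
    intro x hx
    obtain ⟨x1, x2, x3⟩ := (mem_simp_iff e x).1 hx
    have hs : ∑ v ∈ e, x v = 1 := by
      rw [← x3]
      exact Finset.sum_subset (Finset.subset_univ _) fun v _ hv => x2 v hv
    have hx : x = ∑ v ∈ e, x v • EuclideanSpace.single v (1 : ℝ) := by
      ext u
      by_cases hu : u ∈ e
      · simp [Pi.single_apply, hu]
      · simp [Pi.single_apply, hu, x2 u hu]
    refine ⟨fun v => x v, ?_⟩
    simp only [f]
    rw [Finset.sum_coe_sort (e.erase a) (fun v => x v • (EuclideanSpace.single v (1 : ℝ) -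
      EuclideanSpace.single a (1 : ℝ)))]
    conv_rhs => rw [hx]
    rw [← Finset.add_sum_erase e _ ha] at hs ⊢
    simp only [smul_sub, Finset.sum_sub_distrib, ← Finset.sum_smul]
    rw [show ∑ v ∈ e.erase a, x v = 1 - x a by linarith, sub_smul, one_smul]
    abel
  refine (dimH_mono hsub).trans (hf.dimH_range_le.trans ?_)
  have : (e.erase a).card ≤ 2 := by rw [Finset.card_erase_of_mem ha]; omega
  simp only [Module.finrank_fintype_fun_eq_card, Fintype.card_coe]
  exact_mod_cast this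

lemma exists_point (e : Finset (Fin n)) (he : e.card = 5) :
    ∃ x ∈ simp e, ∀ f : Finset (Fin n), x ∈ simp f → e ⊆ f := by
  refine ⟨WithLp.toLp 2 fun v => if v ∈ e then 1 / 5 else 0, (mem_simp_iff _ _).2 ⟨?_, ?_, ?_⟩, ?_⟩
  · intro v; simp only; split_ifs <;> norm_num
  · intro v hv; simp [hv]
  · simp [he]
  · intro f hf v hv
    by_contra hvf
    have := ((mem_simp_iff _ _).1 hf).2.1 v hvf
    simp [hv] at this

theorem sep (F₁ F₂ : Finset (Finset (Fin n))) (h₁ : ∀ e ∈ F₁, e.card = 5) (h₂ : ∀ e ∈ F₂, e.card = 5)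
    (n₁ : F₁.Nonempty) (n₂ : F₂.Nonempty) (h : ∀ e ∈ F₁, ∀ f ∈ F₂, (e ∩ f).card ≤ 3)
    (φ : ↥(realisation (F₁ ∪ F₂)) ≃ₜ ↥(Metric.sphere (0 : EuclideanSpace ℝ (Fin 5)) 1)) : False := by
  have hU : realisation (F₁ ∪ F₂) = realisation F₁ ∪ realisation F₂ := by
    simp only [realisation, Finset.set_biUnion_union]
  obtain ⟨e, he⟩ := n₁
  obtain ⟨f, hf⟩ := n₂
  obtain ⟨p, hp, hp'⟩ := exists_point e (h₁ e he)
  obtain ⟨q, hq, hq'⟩ := exists_point f (h₂ f hf)
  refine SphereSep.not_homeo 3 (realisation F₁) (realisation F₂) (real_closed _) (real_closed _) p q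
    (mem_iUnion₂.2 ⟨e, he, hp⟩) ?_ (mem_iUnion₂.2 ⟨f, hf, hq⟩) ?_ ?_
    ((Homeomorph.setCongr hU.symm).trans φ)
  · intro hh
    obtain ⟨g, hg, hpg⟩ := mem_iUnion₂.1 hh
    have h3 := h e he g hg
    rw [Finset.inter_eq_left.2 (hp' g hpg), h₁ e he] at h3
    omega
  · intro hh
    obtain ⟨g, hg, hqg⟩ := mem_iUnion₂.1 hh
    have h3 := h g hg f hf
    rw [Finset.inter_eq_right.2 (hq' g hqg), h₂ f hf] at h3
    omega
  · have hsub : realisation F₁ ∩ realisation F₂ ⊆
        ⋃ g : {g : Finset (Fin n) // g.card ≤ 3}, simp g.1 := by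
      rintro x ⟨hx1, hx2⟩
      obtain ⟨a, ha, hxa⟩ := mem_iUnion₂.1 hx1
      obtain ⟨b, hb, hxb⟩ := mem_iUnion₂.1 hx2
      obtain ⟨a1, a2, a3⟩ := (mem_simp_iff a x).1 hxa
      obtain ⟨-, b2, -⟩ := (mem_simp_iff b x).1 hxb
      refine mem_iUnion.2 ⟨⟨a ∩ b, h a ha b hb⟩, (mem_simp_iff _ x).2 ⟨a1, fun v hv => ?_, a3⟩⟩
      rw [Finset.mem_inter, not_and_or] at hv
      exact hv.elim (a2 v) (b2 v)
    refine (dimH_mono hsub).trans_lt ?_
    rw [dimH_iUnion]
    have h2 : (⨆ g : {g : Finset (Fin n) // g.card ≤ 3}, dimH (simp g.1)) ≤ 2 :=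
      iSup_le fun g => dim_simp g.1 g.2
    exact h2.trans_lt (by norm_num)

theorem no_sphere (hn : 9 ≤ n) : ¬ HasSpanningSphere 5 (HH n) := by
  classical
  rintro ⟨F, hF, hcov, ⟨φ⟩⟩
  obtain ⟨e, he, -⟩ := hcov ⟨0, by omega⟩
  obtain ⟨v, hv⟩ := exists_missed hn (hF he)
  obtain ⟨f, hf, hvf⟩ := hcov v
  have hU : F.filter (fun g => col g = col e) ∪ F.filter (fun g => ¬ col g = col e) = F :=
    Finset.filter_union_filter_not_eq _ F
  refine sep (F.filter fun g => col g = col e) (F.filter fun g => ¬ col g = col e)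
    (fun g hg => card_of_mem (hF (Finset.mem_filter.1 hg).1))
    (fun g hg => card_of_mem (hF (Finset.mem_filter.1 hg).1))
    ⟨e, Finset.mem_filter.2 ⟨he, rfl⟩⟩ ⟨f, Finset.mem_filter.2 ⟨hf, hv f (hF hf) hvf⟩⟩
    (fun a ha b hb => ?_) (hU.symm ▸ φ)
  by_contra hh
  rw [Finset.mem_filter] at ha hb
  exact hb.2 ((col_adj (hF ha.1) (hF hb.1) (by omega)).symm.trans ha.2)

theorem main (n : ℕ) (hn : 260 ≤ n) : ∃ H : Finset (Finset (Fin n)), (∀ e ∈ H, e.card = 5) ∧
    (∀ S : Finset (Fin n), S.card = 4 →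
      n ≤ 5 * (H.filter (fun e => S ⊆ e)).card ∧ 2 * (n / 9) ≤ (H.filter (fun e => S ⊆ e)).card + 4) ∧
    ¬ HasSpanningSphere 5 H :=
  ⟨HH n, fun _ he => card_of_mem he, fun S hS => by have := codeg S hS; omega, no_sphere (by omega)⟩

end Pool.Agent.H820Z.Sphere
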