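import Pool.Agent.Helper52.TriI
open MeasureTheory ProbabilityTheory Filter Topology Set
open scoped ENNReal NNReal BoundedContinuousFunction

set_option linter.unusedSectionVars false
namespace Pool.Agent.H820Z.Tq
open Pool.Agent.Helper52.Tri

abbrev Mark := Fin 3 × (ℝ × ℝ)

/-- the law giving mass one half to each of two points -/
noncomputable def two (a b : ℝ) : Measure ℝ :=
  (2⁻¹ : ℝ≥0∞) • Measure.dirac a + (2⁻¹ : ℝ≥0∞) • Measure.dirac b

instance (a b : ℝ) : IsProbabilityMeasure (two a b) := by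
  constructor
  unfold two
  simp only [Measure.coe_add, Measure.coe_smul, Pi.add_apply, Pi.smul_apply, measure_univ, smul_eq_mul, mul_one]
  exact ENNReal.inv_two_add_inv_two

theorem two_self (a : ℝ) : two a a = Measure.dirac a := by
  unfold two
  rw [← add_smul, ENNReal.inv_two_add_inv_two, one_smul]

theorem lint_two (a b : ℝ) {f : ℝ → ℝ≥0∞} (hf : Measurable f) :
    ∫⁻ x, f x ∂(two a b) = 2⁻¹ * f a + 2⁻¹ * f b := by
  unfold two
  rw [lintegral_add_measure, lintegral_smul_measure, lintegral_smul_measure, lintegral_dirac' _ hf,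
    lintegral_dirac' _ hf]
  rfl

noncomputable abbrev mu (r : Fin 2 → ℝ) : Measure Mark := markLaw (Measure.dirac 1) (two (r 0) (r 1))

def mk (r : Fin 2 → ℝ) (o : Fin 3 × Fin 2) : Mark := (o.1, (1, r o.2))

noncomputable def Av (r : Fin 2 → ℝ) (f : Mark → ℝ) : ℝ := (∑ o, f (mk r o)) / 6

variable {r : Fin 2 → ℝ}

theorem lint_mu {f : Mark → ℝ≥0∞} (hf : Measurable f) :
    ∫⁻ k, f k ∂(mu r) = (∑ o, f (mk r o)) * 6⁻¹ := by
  unfold mu markLaw
  rw [lintegral_prod _ hf.aemeasurable]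
  have h1 : ∀ c : Fin 3, ∫⁻ q, f (c, q) ∂((Measure.dirac (1:ℝ)).prod (two (r 0) (r 1))) =
      2⁻¹ * f (c, (1, r 0)) + 2⁻¹ * f (c, (1, r 1)) := by
    intro c
    have hm : Measurable (fun q : ℝ × ℝ => f (c, q)) := hf.comp (measurable_const.prodMk measurable_id)
    rw [lintegral_prod _ hm.aemeasurable, lintegral_dirac' _ hm.lintegral_prod_right']
    exact lint_two _ _ (hm.comp (measurable_const.prodMk measurable_id))
  simp only [h1]
  rw [lintegral_fintype, Fintype.sum_prod_type, Finset.sum_mul]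
  apply Finset.sum_congr rfl
  intro c _
  rw [PMF.toMeasure_apply_singleton _ _ (measurableSet_singleton c), PMF.uniformOfFintype_apply]
  have h6 : (6:ℝ≥0∞)⁻¹ = 2⁻¹ * 3⁻¹ := by
    rw [← ENNReal.mul_inv (by simp) (by simp)]; norm_num
  simp only [Fin.sum_univ_two, mk, Fintype.card_fin, Nat.cast_ofNat, h6]
  ring

theorem lint_mu_ofReal {f : Mark → ℝ} (hf : Measurable f) (h0 : ∀ o, 0 ≤ f (mk r o)) :
    ∫⁻ k, ENNReal.ofReal (f k) ∂(mu r) = ENNReal.ofReal (Av r f) := by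
  unfold Av
  rw [lint_mu hf.ennreal_ofReal, ← ENNReal.ofReal_sum_of_nonneg (fun c _ => h0 c),
    ENNReal.ofReal_div_of_pos (by norm_num), div_eq_mul_inv]
  congr 2
  simp

theorem ae_mu : ∀ᵐ k ∂(mu r), ∃ o, k = mk r o := by
  have hfin : ({k : Mark | ∃ o, k = mk r o}).Finite := by
    have : {k : Mark | ∃ o, k = mk r o} = range (mk r) := by
      ext k; simp only [mem_ofPred_eq, mem_range]; exact ⟨fun ⟨o, h⟩ => ⟨o, h.symm⟩, fun ⟨o, h⟩ => ⟨o, h.symm⟩⟩
    rw [this]; exact finite_range _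
  have hm : MeasurableSet {k : Mark | ¬ ∃ o, k = mk r o} := hfin.measurableSet.compl
  rw [ae_iff, ← lintegral_indicator_one hm, lint_mu (measurable_one.indicator hm)]
  have : ∀ o, ({k : Mark | ¬ ∃ o, k = mk r o}).indicator (1 : Mark → ℝ≥0∞) (mk r o) = 0 := by
    intro o
    apply indicator_of_notMem
    simp only [mem_ofPred_eq, not_not]
    exact ⟨o, rfl⟩
  simp only [this]; simp

theorem Av_mono {f g : Mark → ℝ} (h : ∀ o, f (mk r o) ≤ g (mk r o)) : Av r f ≤ Av r g := by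
  unfold Av
  gcongr with o _
  exact h o

theorem Av_affine (f : Mark → ℝ) (a b : ℝ) : Av r (fun k => a * f k + b) = a * Av r f + b := by
  unfold Av
  rw [Finset.sum_add_distrib, ← Finset.mul_sum]
  simp only [Finset.sum_const, Finset.card_univ, Fintype.card_prod, Fintype.card_fin, nsmul_eq_mul]
  push_cast; ring

theorem Av_add (f g : Mark → ℝ) : Av r (fun k => f k + g k) = Av r f + Av r g := by
  unfold Av
  rw [Finset.sum_add_distrib]; ring

theorem Av_nonneg {f : Mark → ℝ} (h : ∀ o, 0 ≤ f (mk r o)) : 0 ≤ Av r f := by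
  unfold Av
  have : 0 ≤ ∑ o, f (mk r o) := Finset.sum_nonneg (fun o _ => h o)
  positivity

noncomputable abbrev kp (lam : ℝ) (r : Fin 2 → ℝ) : Measure (ℝ × Mark) := (expMeasure lam).prod (mu r)

noncomputable abbrev PQ (lam : ℝ) (r : Fin 2 → ℝ) : Measure (ℕ → ℝ × Mark) :=
  Measure.infinitePi (fun _ => kp lam r)

theorem ae_gen {lam : ℝ} (hl : 0 < lam) (W : Load) :
    ∀ᵐ z ∂(kp lam r), 0 < z.1 ∧ (∃ o, z.2 = mk r o) ∧ ∀ i, NI (W i - z.1) := by
  have hp := isProbabilityMeasure_expMeasure hl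
  have h1 : ∀ᵐ z ∂(kp lam r), 0 < z.1 := ae_fst_pos hl
  have h2 : ∀ᵐ z ∂(kp lam r), ∃ o, z.2 = mk r o :=
    (Measure.quasiMeasurePreserving_snd (μ := expMeasure lam) (ν := mu r)).ae ae_mu
  have h3 : ∀ᵐ s ∂(expMeasure lam), ∀ i, NI (W i - s) := by
    have hac : expMeasure lam ≪ volume := withDensity_absolutelyContinuous _ _
    apply hac.ae_le
    show ∀ᵐ s : ℝ, ∀ i, NI (W i - s)
    rw [ae_all_iff]
    intro i
    have : ∀ᵐ s : ℝ, ∀ n : ℤ, W i - s ≠ n := by
      rw [ae_all_iff]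
      intro n
      have : {s : ℝ | ¬ (W i - s ≠ n)} = {W i - n} := by
        ext s
        simp only [ne_eq, not_not, mem_ofPred_eq, mem_singleton_iff]
        constructor
        · intro h; linarith
        · intro h; linarith
      rw [ae_iff, this]; simp
    exact this
  have h4 : ∀ᵐ z ∂(kp lam r), ∀ i, NI (W i - z.1) :=
    (Measure.quasiMeasurePreserving_fst (μ := expMeasure lam) (ν := mu r)).ae h3
  filter_upwards [h1, h2, h4] with z a b c
  exact ⟨a, b, c⟩

/-- data of a stability proof -/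
structure SD (lam : ℝ) (r : Fin 2 → ℝ) where
  Good : Load → Prop
  U : Load → ℝ
  th : ℝ
  aa : ℝ
  K1 : ℝ
  cc : ℝ
  th_pos : 0 < th
  aa_pos : 0 < aa
  K1_pos : 0 < K1
  cc_nonneg : 0 ≤ cc
  mU : Measurable U
  g0 : Good 0
  gnn : ∀ W, Good W → ∀ i, 0 ≤ W i
  gdrain : ∀ W, Good W → ∀ s, 0 ≤ s → Good (drain W s)
  gae : ∀ W, Good W → ∀ᵐ z ∂(kp lam r), Good (join (drain W z.1) z.2)
  vdrain : ∀ W, Good W → ∀ s, 0 ≤ s →
    Real.exp (th * U (drain W s)) ≤ Real.exp (-(3 * th * s)) * Real.exp (th * U W) + K1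
  vjoin : ∀ W, Good W → ∀ s, 0 ≤ s → Av r (fun k => Real.exp (th * U (join (drain W s) k))) ≤
    (1 + aa) * (Real.exp (-(3 * th * s)) * Real.exp (th * U W)) + K1
  coord : ∀ W, Good W → ∀ i, 3 * W i ≤ U W + cc

noncomputable def SD.V {lam : ℝ} (S : SD lam r) (W : Load) : ℝ := Real.exp (S.th * S.U W)

theorem SD.V_pos {lam : ℝ} (S : SD lam r) (W : Load) : 0 < S.V W := Real.exp_pos _

theorem SD.mV {lam : ℝ} (S : SD lam r) : Measurable S.V := (S.mU.const_mul S.th).exp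

theorem SD.V_drain {lam : ℝ} (S : SD lam r) {W : Load} (hW : S.Good W) {s : ℝ} (hs : 0 ≤ s) :
    S.V (drain W s) ≤ Real.exp (-(3 * S.th * s)) * S.V W + S.K1 := S.vdrain W hW s hs

theorem SD.V_join {lam : ℝ} (S : SD lam r) {W : Load} (hW : S.Good W) {s : ℝ} (hs : 0 ≤ s) :
    Av r (fun k => S.V (join (drain W s) k)) ≤
      (1 + S.aa) * (Real.exp (-(3 * S.th * s)) * S.V W) + S.K1 := S.vjoin W hW s hs

end Pool.Agent.H820Z.Tq
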