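import Pool.Agent.H820Z.Tq1
open MeasureTheory ProbabilityTheory Filter Topology Set
open scoped ENNReal NNReal BoundedContinuousFunction

set_option linter.unusedSectionVars false
namespace Pool.Agent.H820Z.Tq
open Pool.Agent.Helper52.Tri

variable {r : Fin 2 → ℝ} {lam : ℝ} (S : SD lam r)

/-- supersolution for the moment bound -/
theorem moment_superQ {δ A : ℝ} (hl : 0 < lam) (hδ : 0 < δ) (h1 : lam * (1 + S.aa) ≤ lam + 3 * S.th - δ)
    (hA : lam * S.K1 ≤ A * δ) (hδl : δ ≤ lam) {t : ℝ} (ht : 0 ≤ t) {W : Load} (hW : S.Good W) :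
    ∫⁻ z, (if t < z.1 then ENNReal.ofReal (S.V (drain W t)) else
      ENNReal.ofReal (Real.exp (-(δ * (t - z.1))) * S.V (join (drain W z.1) z.2) +
        A * (2 - Real.exp (-(δ * (t - z.1)))))) ∂(kp lam r) ≤
      ENNReal.ofReal (Real.exp (-(δ * t)) * S.V W + A * (2 - Real.exp (-(δ * t)))) := by
  have hA0 : 0 < A := by
    have := mul_pos hl S.K1_pos
    by_contra hcon
    push Not at hcon
    nlinarith
  have hAK : S.K1 ≤ A := by
    have h2 : lam * S.K1 ≤ A * lam := hA.trans (by gcongr)
    nlinarith
  set V := S.V W with hV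
  have hVp : 0 < V := S.V_pos W
  set B : ℝ × Mark → ℝ := fun z => Real.exp (-(δ * (t - z.1))) * S.V (join (drain W z.1) z.2) +
        A * (2 - Real.exp (-(δ * (t - z.1)))) with hB
  have hBm : Measurable B := by
    have hj : Measurable (fun z : ℝ × Mark => join (drain W z.1) z.2) :=
      measurable_join.comp ((measurable_drain.comp (measurable_const.prodMk measurable_fst)).prodMk measurable_snd)
    have hv := S.mV.comp hj
    have he : Measurable (fun z : ℝ × Mark => Real.exp (-(δ * (t - z.1)))) := by fun_prop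
    exact (he.mul hv).add ((measurable_const.sub he).const_mul A)
  rw [T_eq hl ht _ hBm.ennreal_ofReal]
  -- inner integral
  set E : ℝ → ℝ := fun s => Real.exp (-(δ * (t - s))) with hE
  have hEle : ∀ s ∈ Ioc 0 t, E s ≤ 1 := by
    intro s hs
    apply Real.exp_le_one_iff.2
    have := mul_nonneg hδ.le (sub_nonneg.2 hs.2)
    linarith
  have hEpos : ∀ s, 0 < E s := fun s => Real.exp_pos _
  have inner : ∀ s ∈ Ioc 0 t, (∫⁻ k, ENNReal.ofReal (B (s, k)) ∂(mu r)) ≤
      ENNReal.ofReal (E s * ((1 + S.aa) * (Real.exp (-(3 * S.th * s)) * V) + S.K1) + A * (2 - E s)) := by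
    intro s hs
    have hBs : Measurable (fun k : Mark => B (s, k)) := hBm.comp (measurable_const.prodMk measurable_id)
    rw [lint_mu_ofReal hBs]
    · apply ENNReal.ofReal_le_ofReal
      have hj := S.V_join hW hs.1.le
      have e : Av r (fun k => B (s, k)) = E s * Av r (fun k => S.V (join (drain W s) k)) + A * (2 - E s) := by
        rw [← Av_affine]
      rw [e]
      have : E s * Av r (fun k => S.V (join (drain W s) k)) ≤
          E s * ((1 + S.aa) * (Real.exp (-(3 * S.th * s)) * V) + S.K1) :=
        mul_le_mul_of_nonneg_left hj (hEpos s).le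
      linarith
    · intro c
      have h2 := hEle s hs
      have h3 := mul_pos (hEpos s) (S.V_pos (join (drain W s) (mk r c)))
      have h4 : 0 ≤ A * (2 - E s) := mul_nonneg hA0.le (by linarith)
      exact add_nonneg h3.le h4
  -- the primitive
  set q : ℝ → ℝ := fun s => Real.exp (-(lam * s)) * ((lam + 3 * S.th - δ) * (E s * (Real.exp (-(3 * S.th * s)) * V)) +
    2 * A * lam - A * (lam - δ) * E s) with hq
  set P : ℝ → ℝ := fun s => Real.exp (-(lam * s)) * (E s * (Real.exp (-(3 * S.th * s)) * V) + 2 * A - A * E s) with hP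
  have hderiv : ∀ s, HasDerivAt P (-q s) s := by
    intro s
    have d1 := hd1 lam s
    have d2 := hd1 (3 * S.th) s
    have d3 : HasDerivAt E (δ * E s) s := hd2 δ t s
    have d4 := d1.mul ((((d3.mul (d2.mul_const V)).add_const (2 * A)).sub (d3.const_mul A)))
    refine (d4.congr_deriv ?_).congr_of_eventuallyEq (Eventually.of_forall fun r => ?_)
    · simp only [hq, Pi.mul_apply, Pi.sub_apply]; ring
    · simp only [hP, Pi.mul_apply, Pi.sub_apply]
  have hqc : Continuous q := by simp only [hq, hE]; fun_prop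
  have hqle : ∀ s ∈ Ioc 0 t, lam * Real.exp (-(lam * s)) *
      (E s * ((1 + S.aa) * (Real.exp (-(3 * S.th * s)) * V) + S.K1) + A * (2 - E s)) ≤ q s := by
    intro s hs
    simp only [hq]
    have e1 : 0 < Real.exp (-(lam * s)) := Real.exp_pos _
    have e2 : 0 < E s * (Real.exp (-(3 * S.th * s)) * V) := mul_pos (hEpos s) (mul_pos (Real.exp_pos _) hVp)
    have k1 : lam * (1 + S.aa) * (E s * (Real.exp (-(3 * S.th * s)) * V)) ≤
        (lam + 3 * S.th - δ) * (E s * (Real.exp (-(3 * S.th * s)) * V)) := by gcongr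
    have k2 : lam * S.K1 * E s ≤ A * δ * E s := mul_le_mul_of_nonneg_right hA (hEpos s).le
    calc _ = Real.exp (-(lam * s)) * (lam * (1 + S.aa) * (E s * (Real.exp (-(3 * S.th * s)) * V)) + lam * S.K1 * E s
          + lam * (A * (2 - E s))) := by ring
      _ ≤ Real.exp (-(lam * s)) * ((lam + 3 * S.th - δ) * (E s * (Real.exp (-(3 * S.th * s)) * V)) + A * δ * E s
          + lam * (A * (2 - E s))) := by gcongr
      _ = _ := by ring
  have hq0 : ∀ s ∈ Ioc 0 t, 0 ≤ q s := by
    intro s hs
    refine le_trans ?_ (hqle s hs)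
    have h2 := hEle s hs
    have h4 : 0 ≤ A * (2 - E s) := mul_nonneg hA0.le (by linarith)
    have h5 : 0 ≤ E s * ((1 + S.aa) * (Real.exp (-(3 * S.th * s)) * V) + S.K1) := by
      have := S.aa_pos; have := S.K1_pos; have := hEpos s
      positivity
    have := Real.exp_pos (-(lam * s))
    positivity
  have hint : ∫⁻ s in Ioc (0:ℝ) t, ENNReal.ofReal (lam * Real.exp (-(lam * s))) *
      ∫⁻ k, ENNReal.ofReal (B (s, k)) ∂(mu r) ≤ ENNReal.ofReal (P 0 - P t) := by
    rw [← int_deriv ht hderiv hqc hq0]
    apply setLIntegral_mono (hqc.measurable.ennreal_ofReal)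
    intro s hs
    calc _ ≤ ENNReal.ofReal (lam * Real.exp (-(lam * s))) * ENNReal.ofReal
          (E s * ((1 + S.aa) * (Real.exp (-(3 * S.th * s)) * V) + S.K1) + A * (2 - E s)) := by
            gcongr; exact inner s hs
      _ = ENNReal.ofReal (lam * Real.exp (-(lam * s)) *
          (E s * ((1 + S.aa) * (Real.exp (-(3 * S.th * s)) * V) + S.K1) + A * (2 - E s))) := by
            rw [← ENNReal.ofReal_mul]
            have := Real.exp_pos (-(lam * s)); positivity
      _ ≤ _ := ENNReal.ofReal_le_ofReal (hqle s hs)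
  have hPt : P t = Real.exp (-(lam * t)) * (Real.exp (-(3 * S.th * t)) * V + A) := by
    simp only [hP, hE, sub_self, mul_zero, neg_zero, Real.exp_zero]; ring
  have hP0 : P 0 = Real.exp (-(δ * t)) * V + A * (2 - Real.exp (-(δ * t))) := by
    simp only [hP, hE, sub_zero, mul_zero, neg_zero, Real.exp_zero]; ring
  have hPle : 0 ≤ P 0 - P t := by
    have := int_deriv ht hderiv hqc hq0
    by_contra hcon
    push Not at hcon
    have hPt' : P 0 - P t = ∫ s in (0:ℝ)..t, q s := by
      have := intervalIntegral.integral_eq_sub_of_hasDerivAt (a := 0) (b := t) (f := P) (f' := fun s => -q s)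
        (fun s _ => hderiv s) (hqc.intervalIntegrable _ _).neg
      rw [intervalIntegral.integral_neg] at this
      linarith
    rw [hPt'] at hcon
    have : 0 ≤ ∫ s in (0:ℝ)..t, q s := by
      rw [intervalIntegral.integral_of_le ht]
      exact setIntegral_nonneg measurableSet_Ioc hq0
    linarith
  have hd := S.V_drain hW ht
  calc _ ≤ ENNReal.ofReal (Real.exp (-(lam * t))) * ENNReal.ofReal (Real.exp (-(3 * S.th * t)) * V + A) +
        ENNReal.ofReal (P 0 - P t) := by
        gcongr
        linarith
    _ = ENNReal.ofReal (P t) + ENNReal.ofReal (P 0 - P t) := by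
        rw [← ENNReal.ofReal_mul (Real.exp_pos _).le, hPt]
    _ = ENNReal.ofReal (P 0) := by
        rw [← ENNReal.ofReal_add _ hPle]
        · congr 1; ring
        · rw [hPt]
          have := Real.exp_pos (-(lam * t))
          have := Real.exp_pos (-(3 * S.th * t))
          positivity
    _ = _ := by rw [hP0]

noncomputable def Ph (δ ε t : ℝ) (p : Load × Load) : ℝ :=
  2 * Real.exp (-(δ * t)) * (1 + ε * (S.V p.1 + S.V p.2)) * neq p

theorem Ph_nonneg {δ ε t : ℝ} (hε : 0 ≤ ε) (p : Load × Load) : 0 ≤ Ph S δ ε t p := by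
  unfold Ph
  have := S.V_pos p.1
  have := S.V_pos p.2
  have := neq_nonneg p
  positivity

/-- supersolution for the coupled pair -/
theorem pair_superQ {δ ε : ℝ} (hl : 0 < lam) (hδ : 0 < δ) (hδl : δ < lam) (hε : 0 < ε)
    (h1 : lam * (1 + S.aa) ≤ lam + 3 * S.th - δ) {p : Load × Load} (hp1 : S.Good p.1) (hp2 : S.Good p.2)
    (H : ∃ m, 0 ≤ m ∧ (∀ i, p.1 i ≤ m) ∧ (∀ i, p.2 i ≤ m) ∧
      (lam * (1 + 2 * ε * S.K1) / (lam - δ) - 1 ≤ Real.exp (-(lam * m)) / 2 ∨
       lam * (1 + 2 * ε * S.K1) / (lam - δ) - 1 ≤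
        ε * (1 - lam * (1 + S.aa) / (lam + 3 * S.th - δ)) * (S.V p.1 + S.V p.2))) {t : ℝ} (ht : 0 ≤ t) :
    ∫⁻ z, (if t < z.1 then ENNReal.ofReal (neq (dr2 p t)) else
      ENNReal.ofReal (Ph S δ ε (t - z.1) (jn2 (dr2 p z.1) z.2))) ∂(kp lam r) ≤
      ENNReal.ofReal (Ph S δ ε t p) := by
  set B : ℝ × Mark → ℝ := fun z => Ph S δ ε (t - z.1) (jn2 (dr2 p z.1) z.2) with hB
  have hBm : Measurable B := by
    have hj : Measurable (fun z : ℝ × Mark => jn2 (dr2 p z.1) z.2) :=
      measurable_jn2.comp ((measurable_dr2.comp (measurable_const.prodMk measurable_fst)).prodMk measurable_snd)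
    have hv1 := S.mV.comp (measurable_fst.comp hj)
    have hv2 := S.mV.comp (measurable_snd.comp hj)
    have hn := measurable_neq.comp hj
    have he : Measurable (fun z : ℝ × Mark => 2 * Real.exp (-(δ * (t - z.1)))) := by fun_prop
    exact (he.mul (((hv1.add hv2).const_mul ε).const_add 1)).mul hn
  rw [T_eq hl ht _ hBm.ennreal_ofReal]
  by_cases hpp : p.1 = p.2
  · have z1 : neq (dr2 p t) = 0 := by unfold neq dr2; rw [if_pos (by rw [hpp])]
    have z2 : ∀ s k, B (s, k) = 0 := by
      intro s k
      simp only [hB]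
      unfold Ph
      have : neq (jn2 (dr2 p s) k) = 0 := by
        unfold neq jn2 dr2; rw [if_pos (by rw [hpp])]
      rw [this, mul_zero]
    rw [z1]
    simp [z2]
  · obtain ⟨m, hm0, hm1, hm2, hη⟩ := H
    have hneq : neq p = 1 := by unfold neq; rw [if_neg hpp]
    set P2 := S.V p.1 + S.V p.2 with hP2
    have hP2pos : 0 < P2 := add_pos (S.V_pos _) (S.V_pos _)
    have hzero : ∀ s, m ≤ s → (dr2 p s).1 = (dr2 p s).2 := by
      intro s hs
      unfold dr2
      dsimp only
      rw [drain_zero_of_le hm1 hs, drain_zero_of_le hm2 hs]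
    set τ := min t m with hτ
    have hτ0 : 0 ≤ τ := le_min ht hm0
    have hK := S.K1_pos
    have haa := S.aa_pos
    have hth := S.th_pos
    -- bound of the integrand
    set q : ℝ → ℝ := fun s => 2 * Real.exp (-(δ * t)) * (lam * (1 + 2 * ε * S.K1) * Real.exp (-((lam - δ) * s)) +
      lam * (1 + S.aa) * ε * P2 * Real.exp (-((lam + 3 * S.th - δ) * s))) with hq
    have hq0 : ∀ s, 0 ≤ q s := by intro s; simp only [hq]; positivity
    have inner : ∀ s ∈ Ioc 0 t, ENNReal.ofReal (lam * Real.exp (-(lam * s))) *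
        (∫⁻ k, ENNReal.ofReal (B (s, k)) ∂(mu r)) ≤
        (Ioc 0 τ).indicator (fun s => ENNReal.ofReal (q s)) s := by
      intro s hs
      by_cases hsm : m ≤ s
      · have z2 : ∀ k, B (s, k) = 0 := by
          intro k
          simp only [hB]
          unfold Ph
          have : neq (jn2 (dr2 p s) k) = 0 := by
            unfold neq jn2; rw [if_pos (by rw [hzero s hsm])]
          rw [this, mul_zero]
        simp [z2]
      · push Not at hsm
        rw [indicator_of_mem (show s ∈ Ioc 0 τ from ⟨hs.1, le_min hs.2 hsm.le⟩)]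
        have hBs : Measurable (fun k : Mark => B (s, k)) :=
          hBm.comp (measurable_const.prodMk measurable_id)
        rw [lint_mu_ofReal hBs (fun c => Ph_nonneg S hε.le _), ← ENNReal.ofReal_mul (by positivity)]
        apply ENNReal.ofReal_le_ofReal
        have j1 := S.V_join hp1 hs.1.le
        have j2 := S.V_join hp2 hs.1.le
        have e : Av r (fun k => B (s, k)) ≤ 2 * Real.exp (-(δ * (t - s))) *
            (1 + ε * (Av r (fun k => S.V (join (drain p.1 s) k)) + Av r (fun k => S.V (join (drain p.2 s) k)))) := by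
          have hb : ∀ k, B (s, k) ≤ (2 * Real.exp (-(δ * (t - s))) * ε) *
              (S.V (join (drain p.1 s) k) + S.V (join (drain p.2 s) k)) + 2 * Real.exp (-(δ * (t - s))) := by
            intro k
            simp only [hB]
            unfold Ph
            have h0 : 0 ≤ 2 * Real.exp (-(δ * (t - s))) *
              (1 + ε * (S.V (join (drain p.1 s) k) + S.V (join (drain p.2 s) k))) := by
              have := S.V_pos (join (drain p.1 s) k)
              have := S.V_pos (join (drain p.2 s) k)
              positivity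
            calc _ ≤ 2 * Real.exp (-(δ * (t - s))) *
              (1 + ε * (S.V (join (drain p.1 s) k) + S.V (join (drain p.2 s) k))) * 1 :=
                  mul_le_mul_of_nonneg_left (neq_le _) h0
              _ = _ := by ring
          calc _ ≤ Av r (fun k => (2 * Real.exp (-(δ * (t - s))) * ε) *
              (S.V (join (drain p.1 s) k) + S.V (join (drain p.2 s) k)) + 2 * Real.exp (-(δ * (t - s)))) :=
                Av_mono (fun o => hb _)
            _ = _ := by rw [Av_affine, Av_add]; ring
        have e2 : Av r (fun k => S.V (join (drain p.1 s) k)) + Av r (fun k => S.V (join (drain p.2 s) k)) ≤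
            (1 + S.aa) * (Real.exp (-(3 * S.th * s)) * P2) + 2 * S.K1 := by
          rw [hP2]; linarith
        have hE : Real.exp (-(lam * s)) * Real.exp (-(δ * (t - s))) =
            Real.exp (-(δ * t)) * Real.exp (-((lam - δ) * s)) := by
          rw [← Real.exp_add, ← Real.exp_add]; congr 1; ring
        have hE2 : Real.exp (-((lam - δ) * s)) * Real.exp (-(3 * S.th * s)) =
            Real.exp (-((lam + 3 * S.th - δ) * s)) := by
          rw [← Real.exp_add]; congr 1; ring
        calc lam * Real.exp (-(lam * s)) * Av r (fun k => B (s, k))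
            ≤ lam * Real.exp (-(lam * s)) * (2 * Real.exp (-(δ * (t - s))) *
              (1 + ε * ((1 + S.aa) * (Real.exp (-(3 * S.th * s)) * P2) + 2 * S.K1))) := by
              apply mul_le_mul_of_nonneg_left _ (by positivity)
              refine e.trans ?_
              gcongr
          _ = 2 * lam * (Real.exp (-(lam * s)) * Real.exp (-(δ * (t - s)))) *
              (1 + 2 * ε * S.K1 + ε * (1 + S.aa) * P2 * Real.exp (-(3 * S.th * s))) := by ring
          _ = 2 * lam * Real.exp (-(δ * t)) * ((1 + 2 * ε * S.K1) * Real.exp (-((lam - δ) * s)) +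
              ε * (1 + S.aa) * P2 * (Real.exp (-((lam - δ) * s)) * Real.exp (-(3 * S.th * s)))) := by
              rw [hE]; ring
          _ = q s := by rw [hE2]; simp only [hq]; ring
    have hld : 0 < lam - δ := by linarith
    have hld2 : 0 < lam + 3 * S.th - δ := by linarith
    set ρ := lam * (1 + S.aa) / (lam + 3 * S.th - δ) with hρ
    have hρ1 : ρ ≤ 1 := by rw [hρ, div_le_one hld2]; exact h1
    have hρ0 : 0 ≤ ρ := by rw [hρ]; positivity
    set η := lam * (1 + 2 * ε * S.K1) / (lam - δ) - 1 with hηd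
    have hη0 : 0 ≤ η := by
      rw [hηd, sub_nonneg, one_le_div hld]
      nlinarith [mul_pos hl (mul_pos hε hK)]
    set P : ℝ → ℝ := fun s => 2 * Real.exp (-(δ * t)) * ((1 + η) * Real.exp (-((lam - δ) * s)) +
      ε * ρ * P2 * Real.exp (-((lam + 3 * S.th - δ) * s))) with hP
    have hderiv : ∀ s, HasDerivAt P (-q s) s := by
      intro s
      have d1 := hd1 (lam - δ) s
      have d2 := hd1 (lam + 3 * S.th - δ) s
      have d4 := ((d1.const_mul (1 + η)).add (d2.const_mul (ε * ρ * P2))).const_mul (2 * Real.exp (-(δ * t)))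
      refine (d4.congr_deriv ?_)
      have e1 : (1 + η) * (lam - δ) = lam * (1 + 2 * ε * S.K1) := by rw [hηd]; field_simp; ring
      have e2 : ρ * (lam + 3 * S.th - δ) = lam * (1 + S.aa) := by rw [hρ]; field_simp
      simp only [hq]
      rw [← e1, ← e2]; ring
    have hqc : Continuous q := by simp only [hq]; fun_prop
    have hint : ∫⁻ s in Ioc (0:ℝ) t, ENNReal.ofReal (lam * Real.exp (-(lam * s))) *
        ∫⁻ k, ENNReal.ofReal (B (s, k)) ∂(mu r) ≤ ENNReal.ofReal (P 0 - P τ) := by
      rw [← int_deriv hτ0 hderiv hqc (fun s _ => hq0 s)]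
      calc _ ≤ ∫⁻ s in Ioc (0:ℝ) t, (Ioc 0 τ).indicator (fun s => ENNReal.ofReal (q s)) s := by
            apply setLIntegral_mono ((hqc.measurable.ennreal_ofReal).indicator measurableSet_Ioc)
            exact inner
        _ ≤ ∫⁻ s, (Ioc 0 τ).indicator (fun s => ENNReal.ofReal (q s)) s := setLIntegral_le_lintegral _ _
        _ = _ := lintegral_indicator measurableSet_Ioc _
    set y := Real.exp (-((lam - δ) * τ)) with hy
    have hy1 : y ≤ 1 := by
      rw [hy]; apply Real.exp_le_one_iff.2
      have := mul_nonneg hld.le hτ0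
      linarith
    have hy0 : 0 < y := Real.exp_pos _
    -- boundary term
    have hbd : Real.exp (-(lam * t)) * neq (dr2 p t) ≤ Real.exp (-(δ * t)) * y := by
      by_cases htm : m ≤ t
      · have : neq (dr2 p t) = 0 := by unfold neq; rw [if_pos (hzero t htm)]
        rw [this, mul_zero]; positivity
      · push Not at htm
        have hτt : τ = t := min_eq_left htm.le
        have : Real.exp (-(lam * t)) = Real.exp (-(δ * t)) * y := by
          rw [hy, hτt, ← Real.exp_add]; congr 1; ring
        rw [← this]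
        have := neq_le (dr2 p t)
        have h2 := Real.exp_pos (-(lam * t))
        nlinarith
    have hPP : P 0 - P τ ≤ 2 * Real.exp (-(δ * t)) * ((1 + η) * (1 - y) + ε * ρ * P2) := by
      simp only [hP, mul_zero, neg_zero, Real.exp_zero, mul_one]
      have h3 := Real.exp_pos (-((lam + 3 * S.th - δ) * τ))
      have h4 : 0 ≤ ε * ρ * P2 := by positivity
      have h5 : 0 ≤ ε * ρ * P2 * Real.exp (-((lam + 3 * S.th - δ) * τ)) := by positivity
      rw [← mul_sub]
      apply mul_le_mul_of_nonneg_left _ (by positivity)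
      rw [← hy]
      linarith
    have hPP0 : 0 ≤ P 0 - P τ := int_nonneg hτ0 hderiv hqc (fun s _ => hq0 s)
    have hfinal : Real.exp (-(δ * t)) * y + 2 * Real.exp (-(δ * t)) * ((1 + η) * (1 - y) + ε * ρ * P2) ≤
        2 * Real.exp (-(δ * t)) * (1 + ε * P2) := by
      have hkey : y / 2 + (1 + η) * (1 - y) + ε * ρ * P2 ≤ 1 + ε * P2 := by
        rcases hη with h | h
        · have hyl : Real.exp (-(lam * m)) ≤ y := by
            rw [hy]; apply Real.exp_le_exp.2
            have hτm : τ ≤ m := min_le_right _ _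
            nlinarith
          have h6 : η ≤ y / 2 := by linarith
          have h7 : ε * ρ * P2 ≤ ε * P2 := by
            have : ε * P2 * ρ ≤ ε * P2 * 1 := mul_le_mul_of_nonneg_left hρ1 (by positivity)
            linarith
          have h8 : η * (1 - y) ≤ η := by nlinarith
          nlinarith
        · have h9 : η * (1 - y) ≤ η := by nlinarith
          have h10 : ε * (1 - ρ) * P2 = ε * P2 - ε * ρ * P2 := by ring
          nlinarith
      have := Real.exp_pos (-(δ * t))
      nlinarith
    calc _ ≤ ENNReal.ofReal (Real.exp (-(lam * t))) * ENNReal.ofReal (neq (dr2 p t)) +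
          ENNReal.ofReal (P 0 - P τ) := by gcongr
      _ = ENNReal.ofReal (Real.exp (-(lam * t)) * neq (dr2 p t) + (P 0 - P τ)) := by
          rw [← ENNReal.ofReal_mul (Real.exp_pos _).le, ← ENNReal.ofReal_add _ hPP0]
          exact mul_nonneg (Real.exp_pos _).le (neq_nonneg _)
      _ ≤ _ := by
          apply ENNReal.ofReal_le_ofReal
          unfold Ph
          rw [hneq, mul_one]
          linarith

end Pool.Agent.H820Z.Tq
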