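import Pool.Agent.H820Z.Tq2
open MeasureTheory ProbabilityTheory Filter Topology Set
open scoped ENNReal NNReal BoundedContinuousFunction

set_option linter.unusedSectionVars false
namespace Pool.Agent.H820Z.Tq
open Pool.Agent.Helper52.Tri

variable {r : Fin 2 → ℝ} {lam : ℝ} (S : SD lam r)

theorem paramsQ (hl : 0 < lam) (hD : lam * S.aa < 3 * S.th) :
    ∃ δ ε : ℝ, 0 < δ ∧ δ < lam ∧ 0 < ε ∧ lam * (1 + S.aa) ≤ lam + 3 * S.th - δ ∧
      ∀ p : Load × Load, S.Good p.1 → S.Good p.2 → ∃ m, 0 ≤ m ∧ (∀ i, p.1 i ≤ m) ∧ (∀ i, p.2 i ≤ m) ∧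
      (lam * (1 + 2 * ε * S.K1) / (lam - δ) - 1 ≤ Real.exp (-(lam * m)) / 2 ∨
       lam * (1 + 2 * ε * S.K1) / (lam - δ) - 1 ≤
        ε * (1 - lam * (1 + S.aa) / (lam + 3 * S.th - δ)) * (S.V p.1 + S.V p.2)) := by
  have hK := S.K1_pos
  have haa := S.aa_pos
  have hth := S.th_pos
  set D := 3 * S.th - lam * S.aa with hDd
  have hDp : 0 < D := by linarith
  set c0 := (D / 2) / (lam + 3 * S.th) with hc0
  have hc0p : 0 < c0 := by positivity
  set B := (4 * S.K1 + 2) / c0 with hB
  have hBp : 0 < B := by positivity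
  set mB := max 8 ((Real.log B / S.th + S.cc) / 3) with hmB
  have hmB0 : 0 ≤ mB := le_trans (by norm_num) (le_max_left _ _)
  set y0 := Real.exp (-(lam * mB)) with hy0
  have hy0p : 0 < y0 := Real.exp_pos _
  set ε := y0 / (2 * (4 * S.K1 + 2)) with hε
  have hεp : 0 < ε := by positivity
  set δ := min (D / 2) (min (ε * lam) (lam / 2)) with hδ
  have hδ1 : δ ≤ D / 2 := min_le_left _ _
  have hδ2 : δ ≤ ε * lam := (min_le_right _ _).trans (min_le_left _ _)
  have hδ3 : δ ≤ lam / 2 := (min_le_right _ _).trans (min_le_right _ _)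
  have hδp : 0 < δ := lt_min (by positivity) (lt_min (by positivity) (by positivity))
  have hη : lam * (1 + 2 * ε * S.K1) / (lam - δ) - 1 ≤ ε * (4 * S.K1 + 2) := by
    have hld : 0 < lam - δ := by linarith
    rw [sub_le_iff_le_add, div_le_iff₀ hld]
    have k1 : lam / 2 ≤ lam - δ := by linarith
    have k2 : 0 ≤ ε * (4 * S.K1 + 2) := by positivity
    have k3 : ε * (4 * S.K1 + 2) * (lam / 2) ≤ ε * (4 * S.K1 + 2) * (lam - δ) := mul_le_mul_of_nonneg_left k1 k2
    nlinarith
  refine ⟨δ, ε, hδp, by linarith, hεp, by linarith, ?_⟩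
  intro p hp1 hp2
  by_cases hP : S.V p.1 + S.V p.2 ≤ B
  · -- bounded case
    have hbd : ∀ W : Load, S.Good W → S.V W ≤ B → ∀ i, W i ≤ mB := by
      intro W hW hV i
      have h := S.coord W hW i
      have : S.th * S.U W ≤ Real.log B := by
        rw [Real.le_log_iff_exp_le hBp]; exact hV
      have h2 : S.U W ≤ Real.log B / S.th := by rw [le_div_iff₀ hth]; linarith
      exact le_trans (by linarith) (le_max_right _ _)
    refine ⟨mB, hmB0, hbd _ hp1 (by linarith [S.V_pos p.2]), hbd _ hp2 (by linarith [S.V_pos p.1]), Or.inl ?_⟩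
    refine hη.trans ?_
    rw [hε, ← hy0]
    apply le_of_eq
    field_simp
  · push Not at hP
    obtain ⟨m1, hm1⟩ : ∃ m1, ∀ i, p.1 i ≤ m1 := by
      exact ⟨∑ i, |p.1 i|, fun i => (le_abs_self _).trans (Finset.single_le_sum (f := fun i => |p.1 i|)
        (fun i _ => abs_nonneg _) (Finset.mem_univ i))⟩
    obtain ⟨m2, hm2⟩ : ∃ m2, ∀ i, p.2 i ≤ m2 := by
      exact ⟨∑ i, |p.2 i|, fun i => (le_abs_self _).trans (Finset.single_le_sum (f := fun i => |p.2 i|)
        (fun i _ => abs_nonneg _) (Finset.mem_univ i))⟩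
    refine ⟨max 0 (max m1 m2), le_max_left _ _, fun i => (hm1 i).trans ((le_max_left _ _).trans (le_max_right _ _)),
      fun i => (hm2 i).trans ((le_max_right _ _).trans (le_max_right _ _)), Or.inr ?_⟩
    refine hη.trans ?_
    have hρ : c0 ≤ 1 - lam * (1 + S.aa) / (lam + 3 * S.th - δ) := by
      have hld2 : 0 < lam + 3 * S.th - δ := by linarith
      have : 1 - lam * (1 + S.aa) / (lam + 3 * S.th - δ) = (D - δ) / (lam + 3 * S.th - δ) := by
        rw [hDd]; field_simp; ring
      rw [this, hc0, div_le_div_iff₀ (by positivity) hld2]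
      have k1 : D / 2 ≤ D - δ := by linarith
      have k2 : lam + 3 * S.th - δ ≤ lam + 3 * S.th := by linarith
      exact mul_le_mul k1 k2 hld2.le (by linarith)
    have e1 : ε * (4 * S.K1 + 2) = ε * c0 * B := by rw [hB]; field_simp
    rw [e1]
    apply mul_le_mul _ hP.le hBp.le
    · exact mul_nonneg hεp.le (hc0p.le.trans hρ)
    · exact mul_le_mul_of_nonneg_left hρ hεp.le

theorem couple_boundQ (hl : 0 < lam) {δ ε : ℝ} (hδ : 0 < δ) (hδl : δ < lam) (hε : 0 < ε)
    (h1 : lam * (1 + S.aa) ≤ lam + 3 * S.th - δ)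
    (H : ∀ p : Load × Load, S.Good p.1 → S.Good p.2 → ∃ m, 0 ≤ m ∧ (∀ i, p.1 i ≤ m) ∧ (∀ i, p.2 i ≤ m) ∧
      (lam * (1 + 2 * ε * S.K1) / (lam - δ) - 1 ≤ Real.exp (-(lam * m)) / 2 ∨
       lam * (1 + 2 * ε * S.K1) / (lam - δ) - 1 ≤
        ε * (1 - lam * (1 + S.aa) / (lam + 3 * S.th - δ)) * (S.V p.1 + S.V p.2)))
    {x y : Load} (hx : S.Good x) (hy : S.Good y) {t : ℝ} (ht : 0 ≤ t) :
    ∫⁻ ω, ENNReal.ofReal (neq (gW drain join x ω t, gW drain join y ω t)) ∂(PQ lam r) ≤
      ENNReal.ofReal (Ph S δ ε t (x, y)) := by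
  have hp := isProbabilityMeasure_expMeasure hl
  have h2 : ∀ ω, ENNReal.ofReal (neq (gW drain join x ω t, gW drain join y ω t)) =
      (fun p => ENNReal.ofReal (neq p)) (gW dr2 jn2 (x, y) ω t) := by
    intro ω; rw [gW2]
  simp only [h2]
  rw [expect_eq hl measurable_dr2 measurable_jn2 measurable_neq.ennreal_ofReal t (x, y)]
  refine Us_le (kp lam r) (fun p => ENNReal.ofReal (neq p)) (fun t p => ENNReal.ofReal (Ph S δ ε t p))
    {p | S.Good p.1 ∧ S.Good p.2} ?_ ?_ ?_ ht ⟨hx, hy⟩
  · filter_upwards [ae_fst_pos (μK := mu r) hl] with z hz; exact hz.le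
  · rintro p ⟨hp1, hp2⟩
    filter_upwards [S.gae _ hp1, S.gae _ hp2] with z a b
    exact ⟨a, b⟩
  · rintro t ht p ⟨hp1, hp2⟩
    exact pair_superQ S hl hδ hδl hε h1 hp1 hp2 (H p hp1 hp2) ht

theorem moment_boundQ (hl : 0 < lam) {δ : ℝ} (hδ : 0 < δ) (hδl : δ < lam)
    (h1 : lam * (1 + S.aa) ≤ lam + 3 * S.th - δ) {x : Load} (hx : S.Good x) {t : ℝ} (ht : 0 ≤ t) :
    ∫⁻ ω, ENNReal.ofReal (S.V (gW drain join x ω t)) ∂(PQ lam r) ≤
      ENNReal.ofReal (S.V x + 2 * (lam * S.K1 / δ)) := by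
  have hp := isProbabilityMeasure_expMeasure hl
  have hK := S.K1_pos
  set A := lam * S.K1 / δ with hA
  have hA0 : 0 < A := by positivity
  have hAe : lam * S.K1 ≤ A * δ := by rw [hA]; apply le_of_eq; field_simp
  have e1 := expect_eq (μK := mu r) hl measurable_drain measurable_join S.mV.ennreal_ofReal t x
  have h2 : ∫⁻ ω, ENNReal.ofReal (S.V (gW drain join x ω t)) ∂(PQ lam r) =
      Us (kp lam r) drain join (fun y => ENNReal.ofReal (S.V y)) t x := e1
  rw [h2]
  refine le_trans (Us_le (kp lam r) (fun y => ENNReal.ofReal (S.V y)) (fun t y => ENNReal.ofReal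
    (Real.exp (-(δ * t)) * S.V y + A * (2 - Real.exp (-(δ * t))))) {y | S.Good y} ?_ ?_ ?_ ht hx) ?_
  · filter_upwards [ae_fst_pos (μK := mu r) hl] with z hz; exact hz.le
  · intro y hy; exact S.gae _ hy
  · intro t ht y hy
    exact moment_superQ S hl hδ h1 hAe hδl.le ht hy
  · apply ENNReal.ofReal_le_ofReal
    have h3 : Real.exp (-(δ * t)) ≤ 1 := by
      apply Real.exp_le_one_iff.2; have := mul_nonneg hδ.le ht; linarith
    have h4 := Real.exp_pos (-(δ * t))
    have h5 := S.V_pos x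
    have h6 : Real.exp (-(δ * t)) * S.V x ≤ S.V x := by nlinarith
    have h7 : A * (2 - Real.exp (-(δ * t))) ≤ A * 2 := by
      apply mul_le_mul_of_nonneg_left _ hA0.le; linarith
    linarith

/-- the expectations are Cauchy as `t → ∞` -/
theorem cauchy_boundQ (hl : 0 < lam) (hD : lam * S.aa < 3 * S.th) :
    ∃ C δ : ℝ, 0 < C ∧ 0 < δ ∧ ∀ (g : Load → ℝ≥0∞) (b : ℝ≥0), Measurable g → (∀ x, g x ≤ b) →
      ∀ s t, 0 ≤ s → 0 ≤ t →
      (∫⁻ ω, g (gW drain join 0 ω (s + t)) ∂(PQ lam r) ≤
        ∫⁻ ω, g (gW drain join 0 ω t) ∂(PQ lam r) + b * ENNReal.ofReal (C * Real.exp (-(δ * t)))) ∧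
      (∫⁻ ω, g (gW drain join 0 ω t) ∂(PQ lam r) ≤
        ∫⁻ ω, g (gW drain join 0 ω (s + t)) ∂(PQ lam r) + b * ENNReal.ofReal (C * Real.exp (-(δ * t)))) := by
  have hp := isProbabilityMeasure_expMeasure hl
  obtain ⟨δ, ε, hδ, hδl, hε, h1, H⟩ := paramsQ S hl hD
  have hK := S.K1_pos
  set M0 := S.V 0 + 2 * (lam * S.K1 / δ) with hM0
  have hM0p : 0 < M0 := by have := S.V_pos 0; positivity
  have hV0 := S.V_pos 0
  set C := 2 * (1 + ε * (M0 + S.V 0)) with hC
  refine ⟨C, δ, by positivity, hδ, ?_⟩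
  intro g b hg hgb s t hs ht
  have hpos : ∀ᵐ z ∂(kp lam r), 0 ≤ z.1 := by
    filter_upwards [ae_fst_pos (μK := mu r) hl] with z hz; exact hz.le
  have hE : ∀ (h : Load → ℝ≥0∞), Measurable h → ∀ u x, ∫⁻ ω, h (gW drain join x ω u) ∂(PQ lam r) =
      Us (kp lam r) drain join h u x := fun h hh u x =>
    expect_eq (μK := mu r) hl measurable_drain measurable_join hh u x
  set F := ∫⁻ ω, g (gW drain join 0 ω t) ∂(PQ lam r) with hF
  -- pointwise comparison of Us g t y and F
  have hmg := measurable_gW'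
  have comp : ∀ x y, S.Good x → S.Good y → ∫⁻ ω, g (gW drain join x ω t) ∂(PQ lam r) ≤
      ∫⁻ ω, g (gW drain join y ω t) ∂(PQ lam r) + b * ENNReal.ofReal (Ph S δ ε t (x, y)) := by
    intro x y hx hy
    have hm2 : Measurable (fun ω : ℕ → ℝ × Mark =>
        ENNReal.ofReal (neq (gW drain join x ω t, gW drain join y ω t))) :=
      (measurable_neq.comp ((hmg x t).prodMk (hmg y t))).ennreal_ofReal
    calc _ ≤ ∫⁻ ω, (g (gW drain join y ω t) +
          b * ENNReal.ofReal (neq (gW drain join x ω t, gW drain join y ω t))) ∂(PQ lam r) := by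
          apply lintegral_mono
          intro ω
          dsimp only
          by_cases h : gW drain join x ω t = gW drain join y ω t
          · rw [h]; exact le_self_add
          · have : neq (gW drain join x ω t, gW drain join y ω t) = 1 := by
              unfold neq; rw [if_neg h]
            rw [this, ENNReal.ofReal_one, mul_one]
            exact (hgb _).trans le_add_self
      _ = ∫⁻ ω, g (gW drain join y ω t) ∂(PQ lam r) + b * ∫⁻ ω,
          ENNReal.ofReal (neq (gW drain join x ω t, gW drain join y ω t)) ∂(PQ lam r) := by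
          have hgm : Measurable (fun ω : ℕ → ℝ × Mark => g (gW drain join y ω t)) := hg.comp (hmg y t)
          rw [lintegral_add_left hgm, lintegral_const_mul _ hm2]
      _ ≤ _ := by
          gcongr
          exact couple_boundQ S hl hδ hδl hε h1 H hx hy ht
  have hUg : Measurable (fun y => Us (kp lam r) drain join g t y) :=
    (measurable_Us (kp lam r) measurable_drain measurable_join hg).comp (measurable_const.prodMk measurable_id)
  have hsemi : ∫⁻ ω, g (gW drain join 0 ω (s + t)) ∂(PQ lam r) =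
      ∫⁻ ω, Us (kp lam r) drain join g t (gW drain join 0 ω s) ∂(PQ lam r) := by
    rw [hE g hg, hE _ hUg]
    exact Us_semigroup hl measurable_drain measurable_join (fun x s t hs ht => drain_drain x s t hs ht) hg ht s hs 0
  -- the error function
  set e : Load → ℝ≥0∞ := fun y => b * ENNReal.ofReal (2 * Real.exp (-(δ * t)) * (1 + ε * (S.V y + S.V 0))) with he
  have hem : Measurable e := by
    simp only [he]
    apply Measurable.const_mul
    apply Measurable.ennreal_ofReal
    exact ((((S.mV.add_const (S.V 0)).const_mul ε).const_add 1).const_mul _)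
  have hPhi1 : ∀ y, b * ENNReal.ofReal (Ph S δ ε t (y, 0)) ≤ e y := by
    intro y
    simp only [he]
    gcongr
    unfold Ph
    dsimp only
    have hy := S.V_pos y
    have h0 : 0 ≤ 2 * Real.exp (-(δ * t)) * (1 + ε * (S.V y + S.V 0)) := by positivity
    calc _ ≤ 2 * Real.exp (-(δ * t)) * (1 + ε * (S.V y + S.V 0)) * 1 :=
          mul_le_mul_of_nonneg_left (neq_le _) h0
      _ = _ := mul_one _
  have hPhi2 : ∀ y, b * ENNReal.ofReal (Ph S δ ε t (0, y)) ≤ e y := by
    intro y
    simp only [he]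
    gcongr
    unfold Ph
    dsimp only
    have hy := S.V_pos y
    have h0 : 0 ≤ 2 * Real.exp (-(δ * t)) * (1 + ε * (S.V 0 + S.V y)) := by positivity
    calc _ ≤ 2 * Real.exp (-(δ * t)) * (1 + ε * (S.V 0 + S.V y)) * 1 :=
          mul_le_mul_of_nonneg_left (neq_le _) h0
      _ = _ := by rw [mul_one, add_comm (S.V 0)]
  have heint : ∫⁻ ω, e (gW drain join 0 ω s) ∂(PQ lam r) ≤ b * ENNReal.ofReal (C * Real.exp (-(δ * t))) := by
    simp only [he]
    have hmv : Measurable (fun ω : ℕ → ℝ × Mark => ENNReal.ofReal (S.V (gW drain join 0 ω s))) :=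
      (S.mV.comp (hmg 0 s)).ennreal_ofReal
    have hmm : Measurable (fun ω : ℕ → ℝ × Mark =>
        ENNReal.ofReal (2 * Real.exp (-(δ * t)) * (1 + ε * (S.V (gW drain join 0 ω s) + S.V 0)))) := by
      apply Measurable.ennreal_ofReal
      exact (((((S.mV.comp (hmg 0 s)).add_const (S.V 0)).const_mul ε).const_add 1).const_mul _)
    rw [lintegral_const_mul _ hmm]
    gcongr
    have hsplit : ∀ ω : ℕ → ℝ × Mark, ENNReal.ofReal
        (2 * Real.exp (-(δ * t)) * (1 + ε * (S.V (gW drain join 0 ω s) + S.V 0))) =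
        ENNReal.ofReal (2 * Real.exp (-(δ * t)) * (1 + ε * S.V 0)) +
        ENNReal.ofReal (2 * Real.exp (-(δ * t)) * ε) * ENNReal.ofReal (S.V (gW drain join 0 ω s)) := by
      intro ω
      have := S.V_pos (gW drain join 0 ω s)
      rw [← ENNReal.ofReal_mul (by positivity), ← ENNReal.ofReal_add (by positivity) (by positivity)]
      congr 1; ring
    simp only [hsplit]
    rw [lintegral_add_left measurable_const, lintegral_const_mul _ hmv]
    simp only [lintegral_const, measure_univ, mul_one]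
    calc _ ≤ ENNReal.ofReal (2 * Real.exp (-(δ * t)) * (1 + ε * S.V 0)) +
        ENNReal.ofReal (2 * Real.exp (-(δ * t)) * ε) * ENNReal.ofReal M0 := by
          gcongr
          exact moment_boundQ S hl hδ hδl h1 S.g0 hs
      _ = _ := by
          rw [← ENNReal.ofReal_mul (by positivity), ← ENNReal.ofReal_add (by positivity) (by positivity)]
          congr 1; rw [hC]; ring
  have hmono : ∀ (f h : Load → ℝ≥0∞), Measurable f → Measurable h → (∀ x, S.Good x → f x ≤ h x) →
      ∫⁻ ω, f (gW drain join 0 ω s) ∂(PQ lam r) ≤ ∫⁻ ω, h (gW drain join 0 ω s) ∂(PQ lam r) := by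
    intro f h hf hh hfh
    rw [hE f hf, hE h hh]
    exact Us_mono_on (kp lam r) measurable_drain measurable_join hh {x | S.Good x} hpos
      (fun x hx => S.gae _ hx) (fun x hx s hs => S.gdrain _ hx _ hs) hfh hs S.g0
  have hUeq : ∀ y, Us (kp lam r) drain join g t y = ∫⁻ ω, g (gW drain join y ω t) ∂(PQ lam r) :=
    fun y => (hE g hg t y).symm
  constructor
  · rw [hsemi]
    calc _ ≤ ∫⁻ ω, (fun y => F + e y) (gW drain join 0 ω s) ∂(PQ lam r) := by
          apply hmono _ _ hUg (measurable_const.add hem)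
          intro y hy
          rw [hUeq]
          exact (comp y 0 hy S.g0).trans (add_le_add le_rfl (hPhi1 y))
      _ = F + ∫⁻ ω, e (gW drain join 0 ω s) ∂(PQ lam r) := by
          rw [lintegral_add_left measurable_const]
          simp
      _ ≤ _ := by gcongr
  · rw [hsemi]
    calc F = ∫⁻ ω, (fun _ => F) (gW drain join 0 ω s) ∂(PQ lam r) := by simp
      _ ≤ ∫⁻ ω, (fun y => Us (kp lam r) drain join g t y + e y) (gW drain join 0 ω s) ∂(PQ lam r) := by
          apply hmono _ _ measurable_const (hUg.add hem)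
          intro y hy
          show F ≤ Us (kp lam r) drain join g t y + e y
          rw [hUeq]
          exact (comp 0 y S.g0 hy).trans (add_le_add le_rfl (hPhi2 y))
      _ = ∫⁻ ω, Us (kp lam r) drain join g t (gW drain join 0 ω s) ∂(PQ lam r) +
          ∫⁻ ω, e (gW drain join 0 ω s) ∂(PQ lam r) := by
          have hUm : Measurable (fun ω : ℕ → ℝ × Mark =>
              Us (kp lam r) drain join g t (gW drain join 0 ω s)) := hUg.comp (hmg 0 s)
          rw [lintegral_add_left hUm]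
      _ ≤ _ := by gcongr

/-- tightness -/
theorem tight_boundQ (hl : 0 < lam) (hD : lam * S.aa < 3 * S.th) :
    ∃ C : ℝ, 0 < C ∧ ∀ (m : ℕ) (t : ℝ), 0 ≤ t →
      (PQ lam r) {ω | gW drain join 0 ω t ∉ Icc (0 : Load) (fun _ => (m : ℝ) + S.cc)} ≤
        ENNReal.ofReal (C * Real.exp (-(3 * S.th * m))) := by
  have hp := isProbabilityMeasure_expMeasure hl
  obtain ⟨δ, ε, hδ, hδl, hε, h1, H⟩ := paramsQ S hl hD
  have hK := S.K1_pos
  have hV0 := S.V_pos 0
  set M0 := S.V 0 + 2 * (lam * S.K1 / δ) with hM0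
  have hM0p : 0 < M0 := by positivity
  refine ⟨M0, hM0p, ?_⟩
  intro m t ht
  have hmK : MeasurableSet (Icc (0 : Load) (fun _ => (m : ℝ) + S.cc)) := measurableSet_Icc
  have hpos : ∀ᵐ z ∂(kp lam r), 0 ≤ z.1 := by
    filter_upwards [ae_fst_pos (μK := mu r) hl] with z hz; exact hz.le
  have hE : ∀ (h : Load → ℝ≥0∞), Measurable h → ∀ u x, ∫⁻ ω, h (gW drain join x ω u) ∂(PQ lam r) =
      Us (kp lam r) drain join h u x := fun h hh u x =>
    expect_eq (μK := mu r) hl measurable_drain measurable_join hh u x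
  have e0 : (PQ lam r) {ω | gW drain join 0 ω t ∉ Icc (0 : Load) (fun _ => (m : ℝ) + S.cc)} =
      ∫⁻ ω, ((Icc (0 : Load) (fun _ => (m : ℝ) + S.cc))ᶜ.indicator 1 : Load → ℝ≥0∞) (gW drain join 0 ω t) ∂(PQ lam r) := by
    have hset : {ω : ℕ → ℝ × Mark | gW drain join 0 ω t ∉ Icc (0 : Load) (fun _ => (m : ℝ) + S.cc)} =
      (fun ω => gW drain join 0 ω t) ⁻¹' (Icc (0 : Load) (fun _ => (m : ℝ) + S.cc))ᶜ := rfl
    rw [hset, ← lintegral_indicator_one ((measurable_gW' 0 t) hmK.compl)]
    rfl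
  rw [e0, hE _ (measurable_one.indicator hmK.compl)]
  have hh : Measurable (fun y : Load => ENNReal.ofReal (Real.exp (-(3 * S.th * m))) * ENNReal.ofReal (S.V y)) :=
    S.mV.ennreal_ofReal.const_mul _
  refine le_trans (Us_mono_on (kp lam r) measurable_drain measurable_join hh {x | S.Good x} hpos
      (fun x hx => S.gae _ hx) (fun x hx s hs => S.gdrain _ hx _ hs) ?_ ht S.g0) ?_
  · intro x hx
    by_cases hxK : x ∈ Icc (0 : Load) (fun _ => (m : ℝ) + S.cc)
    · rw [indicator_of_notMem (by simpa using hxK)]; exact zero_le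
    · rw [indicator_of_mem (by simpa using hxK)]
      obtain ⟨i, hi⟩ : ∃ i, (m : ℝ) + S.cc < x i := by
        by_contra hcon
        push Not at hcon
        exact hxK ⟨fun i => S.gnn x hx i, fun i => hcon i⟩
      have hm0 : (0:ℝ) ≤ m := Nat.cast_nonneg m
      have h3 : 3 * x i ≤ S.U x + S.cc := S.coord x hx i
      have hcc := S.cc_nonneg
      rw [← ENNReal.ofReal_mul (Real.exp_pos _).le]
      show (1:ℝ≥0∞) ≤ _
      rw [ENNReal.one_le_ofReal]
      unfold SD.V
      rw [← Real.exp_add]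
      apply Real.one_le_exp
      have := S.th_pos
      nlinarith
  · have hmv : Measurable (fun ω : ℕ → ℝ × Mark => ENNReal.ofReal (S.V (gW drain join 0 ω t))) :=
      (S.mV.comp (measurable_gW' 0 t)).ennreal_ofReal
    rw [← hE _ hh, lintegral_const_mul _ hmv]
    calc _ ≤ ENNReal.ofReal (Real.exp (-(3 * S.th * m))) * ENNReal.ofReal M0 := by
          gcongr
          exact moment_boundQ S hl hδ hδl h1 S.g0 ht
      _ = _ := by rw [← ENNReal.ofReal_mul (Real.exp_pos _).le, mul_comm]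


theorem stable_convQ (hl : 0 < lam) (hD : lam * S.aa < 3 * S.th) :
    ∃ π : Measure Load, IsProbabilityMeasure π ∧ π {x | ∀ i, 0 ≤ x i} = 1 ∧
      ∀ g : Load →ᵇ ℝ, Tendsto (fun t : ℝ => ∫ ω, g (gW drain join 0 ω t) ∂(PQ lam r)) atTop
        (𝓝 (∫ x, g x ∂π)) := by
  have hp := isProbabilityMeasure_expMeasure hl
  obtain ⟨C, hC, htight⟩ := tight_boundQ S hl hD
  obtain ⟨C', δ, hC', hδ, hcau⟩ := cauchy_boundQ S hl hD
  have hth := S.th_pos
  have hmap : ∀ t : ℝ, IsProbabilityMeasure ((PQ lam r).map (fun ω => gW drain join 0 ω t)) := fun t =>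
    Measure.isProbabilityMeasure_map (measurable_gW' 0 t).aemeasurable
  set ν : ℝ → ProbabilityMeasure Load := fun t => ⟨(PQ lam r).map (fun ω => gW drain join 0 ω t), hmap t⟩ with hν
  set K : ℕ → Set Load := fun m => Icc (0 : Load) (fun _ => (m : ℝ) + S.cc) with hK
  set u : ℕ → ℝ≥0 := fun m => Real.toNNReal (C * Real.exp (-(3 * S.th * m))) with hu
  have hut : Tendsto u atTop (𝓝 0) := by
    have h1 : Tendsto (fun m : ℕ => 3 * S.th * (m : ℝ)) atTop atTop :=
      tendsto_natCast_atTop_atTop.const_mul_atTop (by positivity)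
    have h2 : Tendsto (fun m : ℕ => C * Real.exp (-(3 * S.th * (m : ℝ)))) atTop (𝓝 (C * 0)) :=
      (Real.tendsto_exp_neg_atTop_nhds_zero.comp h1).const_mul C
    rw [mul_zero] at h2
    have h4 := (continuous_real_toNNReal.tendsto 0).comp h2
    simpa [Function.comp_def] using h4
  have hKc : ∀ m, IsCompact (K m) := fun m => isCompact_Icc
  have hcomp := isCompact_setOfPred_probabilityMeasure_mass_eq_compl_isCompact_le (E := Load) hut hKc
    (Or.inl inferInstance)
  set νn : ℕ → ProbabilityMeasure Load := fun n => ν (n : ℝ) with hνn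
  obtain ⟨π, hπmem, hπlim⟩ := hcomp.ultrafilter_le_nhds ((hyperfilter ℕ).map νn) (by
    rw [le_principal_iff]
    apply Filter.mem_map.2
    apply Filter.univ_mem'
    intro n m
    show (νn n) (K m)ᶜ ≤ u m
    rw [← ENNReal.coe_le_coe, ProbabilityMeasure.ennreal_coeFn_eq_coeFn_toMeasure]
    have h1 := htight m n (Nat.cast_nonneg n)
    have h2 : ((νn n : ProbabilityMeasure Load) : Measure Load) (K m)ᶜ =
        (PQ lam r) {ω | gW drain join 0 ω n ∉ Icc (0 : Load) (fun _ => (m : ℝ) + S.cc)} := by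
      show ((PQ lam r).map (fun ω => gW drain join 0 ω n)) (K m)ᶜ = _
      rw [Measure.map_apply (measurable_gW' 0 n) measurableSet_Icc.compl]
      rfl
    rw [h2]
    exact h1)
  have hlim : Tendsto νn (hyperfilter ℕ : Filter ℕ) (𝓝 π) := hπlim
  refine ⟨(π : Measure Load), inferInstance, ?_, ?_⟩
  · -- support
    have hms : MeasurableSet {x : Load | ∀ i, 0 ≤ x i} := by
      have : {x : Load | ∀ i, 0 ≤ x i} = ⋂ i, {x | 0 ≤ x i} := by ext; simp
      rw [this]
      exact MeasurableSet.iInter (fun i => measurableSet_le measurable_const (measurable_pi_apply i))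
    rw [prob_compl_eq_zero_iff hms |>.symm]
    have hle : ∀ m, (π : Measure Load) {x | ∀ i, 0 ≤ x i}ᶜ ≤ (u m : ℝ≥0∞) := by
      intro m
      have h1 : (π : ProbabilityMeasure Load) (K m)ᶜ ≤ u m := hπmem m
      rw [← ENNReal.coe_le_coe, ProbabilityMeasure.ennreal_coeFn_eq_coeFn_toMeasure] at h1
      refine le_trans (measure_mono ?_) h1
      intro x hx hxK
      exact hx (fun i => hxK.1 i)
    have h0 : Tendsto (fun m => (u m : ℝ≥0∞)) atTop (𝓝 0) := by
      have := (ENNReal.continuous_coe.tendsto 0).comp hut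
      simpa [Function.comp_def] using this
    exact le_antisymm (ge_of_tendsto' h0 hle) zero_le
  · have hT : Tendsto ν atTop (𝓝 π) := by
      rw [ProbabilityMeasure.tendsto_iff_forall_lintegral_tendsto]
      intro g
      have hF : ∀ t : ℝ, ∫⁻ x, g x ∂(ν t : Measure Load) = ∫⁻ ω, g (gW drain join 0 ω t) ∂(PQ lam r) := by
        intro t
        show ∫⁻ x, g x ∂((PQ lam r).map (fun ω => gW drain join 0 ω t)) = _
        exact lintegral_map (g.continuous.measurable.coe_nnreal_ennreal) (measurable_gW' 0 t)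
      set b : ℝ≥0 := nndist g 0 with hb
      have hgb : ∀ x, (g x : ℝ≥0∞) ≤ b := fun x => by
        exact_mod_cast BoundedContinuousFunction.NNReal.upper_bound g x
      have hfin : ∀ (μ : ProbabilityMeasure Load), ∫⁻ x, g x ∂(μ : Measure Load) ≠ ⊤ := by
        intro μ
        have : ∫⁻ x, g x ∂(μ : Measure Load) ≤ b := by
          calc _ ≤ ∫⁻ _, (b : ℝ≥0∞) ∂(μ : Measure Load) := lintegral_mono hgb
            _ = b := by simp
        exact ne_top_of_le_ne_top ENNReal.coe_ne_top this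
      rw [← ENNReal.tendsto_toReal_iff (fun t => hfin (ν t)) (hfin π)]
      set f : ℝ → ℝ := fun t => (∫⁻ x, g x ∂(ν t : Measure Load)).toReal with hf
      set L : ℝ := (∫⁻ x, g x ∂(π : Measure Load)).toReal with hL
      have hdiff : ∀ s t, 0 ≤ s → 0 ≤ t → |f (s + t) - f t| ≤ b * (C' * Real.exp (-(δ * t))) := by
        intro s t hs ht
        obtain ⟨h1, h2⟩ := hcau (fun x => (g x : ℝ≥0∞)) b (g.continuous.measurable.coe_nnreal_ennreal) hgb s t hs ht
        rw [← hF, ← hF] at h1 h2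
        have hpos : 0 ≤ C' * Real.exp (-(δ * t)) := by positivity
        have e1 : ((b : ℝ≥0∞) * ENNReal.ofReal (C' * Real.exp (-(δ * t)))).toReal =
            b * (C' * Real.exp (-(δ * t))) := by
          rw [ENNReal.toReal_mul, ENNReal.toReal_ofReal hpos]; simp
        have hne : (b : ℝ≥0∞) * ENNReal.ofReal (C' * Real.exp (-(δ * t))) ≠ ⊤ :=
          ENNReal.mul_ne_top ENNReal.coe_ne_top ENNReal.ofReal_ne_top
        have h1' := ENNReal.toReal_mono (ENNReal.add_ne_top.2 ⟨hfin _, hne⟩) h1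
        have h2' := ENNReal.toReal_mono (ENNReal.add_ne_top.2 ⟨hfin _, hne⟩) h2
        rw [ENNReal.toReal_add (hfin _) hne, e1] at h1' h2'
        rw [abs_le]
        constructor
        · simp only [hf]; linarith
        · simp only [hf]; linarith
      have hlimn : Tendsto (fun n : ℕ => f (n : ℝ)) (hyperfilter ℕ : Filter ℕ) (𝓝 L) := by
        have h3 := (ProbabilityMeasure.tendsto_iff_forall_lintegral_tendsto.1 hlim) g
        exact (ENNReal.tendsto_toReal (hfin π)).comp h3
      rw [Metric.tendsto_atTop]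
      intro e he
      have hexp : Tendsto (fun n : ℕ => (b : ℝ) * (C' * Real.exp (-(δ * (n : ℝ))))) atTop (𝓝 (b * (C' * 0))) := by
        have h1 : Tendsto (fun m : ℕ => δ * (m : ℝ)) atTop atTop :=
          tendsto_natCast_atTop_atTop.const_mul_atTop hδ
        exact ((Real.tendsto_exp_neg_atTop_nhds_zero.comp h1).const_mul C').const_mul _
      simp only [mul_zero] at hexp
      have ev1 : ∀ᶠ n : ℕ in (hyperfilter ℕ : Filter ℕ), (b : ℝ) * (C' * Real.exp (-(δ * (n : ℝ)))) < e / 2 :=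
        Nat.hyperfilter_le_atTop (hexp.eventually_lt_const (by linarith))
      have ev2 : ∀ᶠ n : ℕ in (hyperfilter ℕ : Filter ℕ), dist (f n) L < e / 2 :=
        (Metric.tendsto_nhds.1 hlimn) (e / 2) (by linarith)
      obtain ⟨n, hn1, hn2⟩ := (ev1.and ev2).exists
      refine ⟨n, fun t ht => ?_⟩
      have h4 := hdiff (t - n) n (by linarith) (Nat.cast_nonneg n)
      rw [sub_add_cancel] at h4
      calc dist (f t) L ≤ dist (f t) (f n) + dist (f n) L := dist_triangle _ _ _
        _ < e / 2 + e / 2 := by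
            apply add_lt_add _ hn2
            rw [Real.dist_eq]; linarith
        _ = e := by ring
    intro g
    have h5 := (ProbabilityMeasure.tendsto_iff_forall_integral_tendsto.1 hT) g
    refine h5.congr ?_
    intro t
    show ∫ x, g x ∂((PQ lam r).map (fun ω => gW drain join 0 ω t)) = _
    exact integral_map (measurable_gW' 0 t).aemeasurable g.continuous.aestronglyMeasurable

end Pool.Agent.H820Z.Tq
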