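import Pool.Agent.H820Z.Tq1
open MeasureTheory ProbabilityTheory Filter Topology Set
open scoped ENNReal NNReal BoundedContinuousFunction

set_option linter.unusedSectionVars false
namespace Pool.Agent.H820Z.Tq
open Pool.Agent.Helper52.Tri

/-- data of an instability proof -/
structure UD (lam : ℝ) (r : Fin 2 → ℝ) where
  Lat : Load → Prop
  U : Load → ℝ
  ph : ℝ
  dd : ℝ
  ap : ℝ
  ph_pos : 0 < ph
  dd_pos : 0 < dd
  lam_pos : 0 < lam
  ap_lt : ap < 1
  rate : lam * (1 - ap) ≤ lam - 3 * ph - dd
  mU : Measurable U
  ule : ∀ W, Lat W → ∀ i, U W ≤ 3 * W i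
  lsub : ∀ W, Lat W → ∀ s, (∀ i, s ≤ W i) → Lat (drain W s) ∧ U (drain W s) = U W - 3 * s
  ljoin : ∀ W, Lat W → ∀ o, Lat (join W (mk r o))
  avg : ∀ W, Lat W → Av r (fun k => Real.exp (-(ph * U (join W k)))) ≤ (1 - ap) * Real.exp (-(ph * U W))
  up : ∀ W, Lat W → ∃ o, U W + 1 ≤ U (join W (mk r o))

variable {r : Fin 2 → ℝ} {lam : ℝ} (S : UD lam r)

theorem gk_latQ (k : ℝ) {W : Load} (hW : S.Lat W) : gk k W ≤ Real.exp (3 * S.ph * k) * Real.exp (-(S.ph * S.U W)) := by
  unfold gk
  split_ifs with h
  · obtain ⟨i, hi⟩ := h
    have h1 := S.ule _ hW i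
    rw [← Real.exp_add]
    apply Real.one_le_exp
    have := S.ph_pos
    nlinarith
  · positivity

open Classical in
noncomputable def vq (c t : ℝ) (W : Load) : ℝ :=
  if S.Lat W then min 1 (Real.exp (-(S.ph * S.U W)) * (1 + c * Real.exp (-(S.dd * t)))) else 1

theorem vq_le (c t : ℝ) (W : Load) : vq S c t W ≤ 1 := by
  unfold vq; split_ifs
  · exact min_le_left _ _
  · exact le_rfl

theorem unst_superQ {k c : ℝ} (hc : c = Real.exp (3 * S.ph * k)) {t : ℝ} (ht : 0 ≤ t) (W : Load) :
    ∫⁻ z, (if t < z.1 then ENNReal.ofReal (gk k (drain W t)) else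
      ENNReal.ofReal (vq S c (t - z.1) (join (drain W z.1) z.2))) ∂(kp lam r) ≤ ENNReal.ofReal (vq S c t W) := by
  have hp := isProbabilityMeasure_expMeasure S.lam_pos
  have hc0 : 0 < c := by rw [hc]; exact Real.exp_pos _
  have hph := S.ph_pos
  have hdd := S.dd_pos
  have hl := S.lam_pos
  have hone : ∫⁻ z, (if t < z.1 then ENNReal.ofReal (gk k (drain W t)) else
      ENNReal.ofReal (vq S c (t - z.1) (join (drain W z.1) z.2))) ∂(kp lam r) ≤ 1 := by
    calc _ ≤ ∫⁻ z, (1:ℝ≥0∞) ∂(kp lam r) := by
          apply lintegral_mono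
          intro z
          dsimp only
          split_ifs
          · exact ENNReal.ofReal_le_one.2 (gk_le _ _)
          · exact ENNReal.ofReal_le_one.2 (vq_le S _ _ _)
      _ = 1 := by simp
  by_cases hLat : S.Lat W
  swap
  · have hv1 : vq S c t W = 1 := by unfold vq; rw [if_neg hLat]
    rw [hv1]
    simpa using hone
  · have hv : vq S c t W = min 1 (Real.exp (-(S.ph * S.U W)) * (1 + c * Real.exp (-(S.dd * t)))) := by
      unfold vq; rw [if_pos hLat]
    rw [hv, ENNReal.ofReal_min]
    apply le_min (by simpa using hone)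
    set E0 := Real.exp (-(S.ph * S.U W)) with hE0
    have hE0p : 0 < E0 := Real.exp_pos _
    by_cases hU : S.U W < 0
    · refine hone.trans ?_
      rw [ENNReal.one_le_ofReal]
      have h1 : 1 ≤ E0 := Real.one_le_exp (by nlinarith)
      have h2 : 0 ≤ c * Real.exp (-(S.dd * t)) := by positivity
      nlinarith
    · push Not at hU
      set q := S.U W / 3 with hq
      have hq0 : 0 ≤ q := by positivity
      have hcoord : ∀ s, s ≤ q → ∀ i, s ≤ W i := by
        intro s hs i
        have := S.ule _ hLat i
        rw [hq] at hs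
        linarith
      -- the measurable bound
      set B : ℝ × Mark → ℝ := fun z =>
        if z.1 ≤ q then Real.exp (-(S.ph * S.U (join (drain W z.1) z.2))) * (1 + c * Real.exp (-(S.dd * (t - z.1)))) else 1
        with hB
      have hB0 : ∀ z, 0 ≤ B z := by
        intro z; simp only [hB]; split_ifs <;> positivity
      have hBm : Measurable B := by
        have hj : Measurable (fun z : ℝ × Mark => join (drain W z.1) z.2) :=
          measurable_join.comp ((measurable_drain.comp (measurable_const.prodMk measurable_fst)).prodMk measurable_snd)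
        have h1 : Measurable (fun z : ℝ × Mark => Real.exp (-(S.ph * S.U (join (drain W z.1) z.2)))) :=
          (((S.mU.comp hj).const_mul S.ph).neg).exp
        have h2 : Measurable (fun z : ℝ × Mark => (1 + c * Real.exp (-(S.dd * (t - z.1))))) := by fun_prop
        exact Measurable.ite (measurableSet_le measurable_fst measurable_const) (h1.mul h2) measurable_const
      have hstep1 : ∫⁻ z, (if t < z.1 then ENNReal.ofReal (gk k (drain W t)) else
          ENNReal.ofReal (vq S c (t - z.1) (join (drain W z.1) z.2))) ∂(kp lam r) ≤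
          ∫⁻ z, (if t < z.1 then ENNReal.ofReal (gk k (drain W t)) else ENNReal.ofReal (B z)) ∂(kp lam r) := by
        apply lintegral_mono_ae
        filter_upwards [ae_gen (r := r) S.lam_pos W] with z hz
        split_ifs with h
        · exact le_rfl
        · apply ENNReal.ofReal_le_ofReal
          simp only [hB]
          split_ifs with h2
          · obtain ⟨o, ho⟩ := hz.2.1
            have hL : S.Lat (join (drain W z.1) z.2) := by
              rw [ho]
              exact S.ljoin _ (S.lsub _ hLat _ (hcoord _ h2)).1 o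
            unfold vq
            rw [if_pos hL]
            exact min_le_right _ _
          · exact vq_le S _ _ _
      refine hstep1.trans ?_
      rw [T_eq S.lam_pos ht _ hBm.ennreal_ofReal]
      -- integrands
      set qq : ℝ → ℝ := fun s => E0 * Real.exp (-((lam - 3 * S.ph) * s)) *
        ((lam - 3 * S.ph) * (1 + c * Real.exp (-(S.dd * (t - s)))) - S.dd * (c * Real.exp (-(S.dd * (t - s))))) with hqq
      set P : ℝ → ℝ := fun s => E0 * Real.exp (-((lam - 3 * S.ph) * s)) * (1 + c * Real.exp (-(S.dd * (t - s)))) with hP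
      have hderiv : ∀ s, HasDerivAt P (-qq s) s := by
        intro s
        have d1 := (hd1 (lam - 3 * S.ph) s).const_mul E0
        have d2 := ((hd2 S.dd t s).const_mul c).const_add 1
        have d4 := d1.mul d2
        refine (d4.congr_deriv ?_).congr_of_eventuallyEq (Eventually.of_forall fun r => ?_)
        · simp only [hqq]; ring
        · simp only [hP, Pi.mul_apply]
      have hqqc : Continuous qq := by simp only [hqq]; fun_prop
      have hr := S.rate
      have hap := S.ap_lt
      have hinner : ∀ s, 0 < s → s ≤ q → ENNReal.ofReal (lam * Real.exp (-(lam * s))) *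
          (∫⁻ k, ENNReal.ofReal (B (s, k)) ∂(mu r)) ≤ ENNReal.ofReal (qq s) ∧ 0 ≤ qq s := by
        intro s hs0 hsq
        have hBs : Measurable (fun k : Mark => B (s, k)) := hBm.comp (measurable_const.prodMk measurable_id)
        have hL := S.lsub _ hLat _ (hcoord s hsq)
        have havg := S.avg _ hL.1
        set Z := c * Real.exp (-(S.dd * (t - s))) with hZ
        have hZ0 : 0 < Z := by positivity
        have e1 : Av r (fun k => B (s, k)) =
            Av r (fun k => Real.exp (-(S.ph * S.U (join (drain W s) k)))) * (1 + Z) := by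
          have e0 := Av_affine (r := r) (fun k => Real.exp (-(S.ph * S.U (join (drain W s) k)))) (1 + Z) 0
          rw [add_zero, mul_comm] at e0
          rw [← e0]
          congr 1
          funext k
          simp only [hB, if_pos hsq]; ring
        have e2 : Real.exp (-(S.ph * S.U (drain W s))) = E0 * Real.exp (3 * S.ph * s) := by
          rw [hL.2, hE0, ← Real.exp_add]; congr 1; ring
        have e3 : Real.exp (-(lam * s)) * Real.exp (3 * S.ph * s) = Real.exp (-((lam - 3 * S.ph) * s)) := by
          rw [← Real.exp_add]; congr 1; ring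
        have hmain : lam * Real.exp (-(lam * s)) * Av r (fun k => B (s, k)) ≤ qq s := by
          rw [e1]
          rw [e2] at havg
          calc lam * Real.exp (-(lam * s)) * (Av r (fun k => Real.exp (-(S.ph * S.U (join (drain W s) k)))) * (1 + Z))
              ≤ lam * Real.exp (-(lam * s)) * (((1 - S.ap) * (E0 * Real.exp (3 * S.ph * s))) * (1 + Z)) := by
                gcongr
            _ = (lam * (1 - S.ap)) * (E0 * (Real.exp (-(lam * s)) * Real.exp (3 * S.ph * s)) * (1 + Z)) := by ring
            _ = (lam * (1 - S.ap)) * (E0 * Real.exp (-((lam - 3 * S.ph) * s)) * (1 + Z)) := by rw [e3]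
            _ ≤ (lam - 3 * S.ph - S.dd) * (E0 * Real.exp (-((lam - 3 * S.ph) * s)) * (1 + Z)) := by gcongr
            _ ≤ qq s := by
                simp only [hqq]
                rw [← hZ]
                have : 0 ≤ E0 * Real.exp (-((lam - 3 * S.ph) * s)) * S.dd := by positivity
                nlinarith
        have hpos : 0 ≤ lam * Real.exp (-(lam * s)) * Av r (fun k => B (s, k)) := by
          have : 0 ≤ Av r (fun k => B (s, k)) := Av_nonneg (fun i => hB0 _)
          positivity
        refine ⟨?_, hpos.trans hmain⟩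
        rw [lint_mu_ofReal hBs (fun i => hB0 _), ← ENNReal.ofReal_mul (by positivity)]
        exact ENNReal.ofReal_le_ofReal hmain
      have hP0 : P 0 = E0 * (1 + c * Real.exp (-(S.dd * t))) := by
        simp only [hP, sub_zero, mul_zero, neg_zero, Real.exp_zero]; ring
      rw [← hP0]
      rcases le_or_gt t q with htq | htq
      · -- no exit before t
        have hq0' : ∀ s ∈ Ioc 0 t, 0 ≤ qq s := fun s hs => (hinner s hs.1 (hs.2.trans htq)).2
        obtain ⟨hi1, hi2⟩ := int_deriv_ab ht hderiv hqqc hq0'
        have hint : ∫⁻ s in Ioc (0:ℝ) t, ENNReal.ofReal (lam * Real.exp (-(lam * s))) *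
            ∫⁻ k, ENNReal.ofReal (B (s, k)) ∂(mu r) ≤ ENNReal.ofReal (P 0 - P t) := by
          rw [← hi1]
          apply setLIntegral_mono hqqc.measurable.ennreal_ofReal
          intro s hs
          exact (hinner s hs.1 (hs.2.trans htq)).1
        have hL := S.lsub _ hLat _ (hcoord t htq)
        have hg := gk_latQ S k hL.1
        have hbd : Real.exp (-(lam * t)) * gk k (drain W t) ≤ P t := by
          rw [hL.2, ← hc] at hg
          have e2 : Real.exp (-(S.ph * (S.U W - 3 * t))) = E0 * Real.exp (3 * S.ph * t) := by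
            rw [hE0, ← Real.exp_add]; congr 1; ring
          rw [e2] at hg
          have e3 : Real.exp (-(lam * t)) * Real.exp (3 * S.ph * t) = Real.exp (-((lam - 3 * S.ph) * t)) := by
            rw [← Real.exp_add]; congr 1; ring
          calc Real.exp (-(lam * t)) * gk k (drain W t) ≤
                Real.exp (-(lam * t)) * (c * (E0 * Real.exp (3 * S.ph * t))) := by gcongr
            _ = E0 * (Real.exp (-(lam * t)) * Real.exp (3 * S.ph * t)) * c := by ring
            _ = E0 * Real.exp (-((lam - 3 * S.ph) * t)) * c := by rw [e3]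
            _ ≤ P t := by
                simp only [hP, sub_self, mul_zero, neg_zero, Real.exp_zero]
                have : 0 < E0 * Real.exp (-((lam - 3 * S.ph) * t)) := by positivity
                nlinarith
        calc _ ≤ ENNReal.ofReal (Real.exp (-(lam * t))) * ENNReal.ofReal (gk k (drain W t)) +
              ENNReal.ofReal (P 0 - P t) := by gcongr
          _ = ENNReal.ofReal (Real.exp (-(lam * t)) * gk k (drain W t) + (P 0 - P t)) := by
              rw [← ENNReal.ofReal_mul (Real.exp_pos _).le, ← ENNReal.ofReal_add _ hi2]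
              exact mul_nonneg (Real.exp_pos _).le (gk_nonneg _ _)
          _ ≤ ENNReal.ofReal (P 0) := ENNReal.ofReal_le_ofReal (by linarith)
      · -- possible exit
        have hq0' : ∀ s ∈ Ioc 0 q, 0 ≤ qq s := fun s hs => (hinner s hs.1 hs.2).2
        obtain ⟨hi1, hi2⟩ := int_deriv_ab hq0 hderiv hqqc hq0'
        have hint1 : ∫⁻ s in Ioc (0:ℝ) q, ENNReal.ofReal (lam * Real.exp (-(lam * s))) *
            ∫⁻ k, ENNReal.ofReal (B (s, k)) ∂(mu r) ≤ ENNReal.ofReal (P 0 - P q) := by
          rw [← hi1]
          apply setLIntegral_mono hqqc.measurable.ennreal_ofReal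
          intro s hs
          exact (hinner s hs.1 hs.2).1
        have hd3 : ∀ s, HasDerivAt (fun s : ℝ => Real.exp (-(lam * s))) (-(lam * Real.exp (-(lam * s)))) s := by
          intro s
          exact (hd1 lam s).congr_deriv (by ring)
        have hc3 : Continuous (fun s : ℝ => lam * Real.exp (-(lam * s))) := by fun_prop
        obtain ⟨hj1, hj2⟩ := int_deriv_ab htq.le hd3 hc3 (fun s _ => by positivity)
        have hint2 : ∫⁻ s in Ioc q t, ENNReal.ofReal (lam * Real.exp (-(lam * s))) *
            ∫⁻ k, ENNReal.ofReal (B (s, k)) ∂(mu r) ≤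
            ENNReal.ofReal (Real.exp (-(lam * q)) - Real.exp (-(lam * t))) := by
          rw [← hj1]
          apply setLIntegral_mono hc3.measurable.ennreal_ofReal
          intro s hs
          have : ∀ k, B (s, k) = 1 := by
            intro k; simp only [hB]; rw [if_neg (not_le.2 hs.1)]
          simp [this]
        have hsplit : ∫⁻ s in Ioc (0:ℝ) t, ENNReal.ofReal (lam * Real.exp (-(lam * s))) *
            ∫⁻ k, ENNReal.ofReal (B (s, k)) ∂(mu r) ≤
            ENNReal.ofReal (P 0 - P q) + ENNReal.ofReal (Real.exp (-(lam * q)) - Real.exp (-(lam * t))) := by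
          rw [← Ioc_union_Ioc_eq_Ioc hq0 htq.le, lintegral_union measurableSet_Ioc (by
            rw [Set.disjoint_left]; intro s hs hs2; exact absurd hs.2 (not_le.2 hs2.1))]
          exact add_le_add hint1 hint2
        have hPq : Real.exp (-(lam * q)) ≤ P q := by
          have e4 : E0 * Real.exp (3 * S.ph * q) = 1 := by
            rw [hE0, ← Real.exp_add, hq]
            rw [show -(S.ph * S.U W) + 3 * S.ph * (S.U W / 3) = 0 by ring, Real.exp_zero]
          have e3 : Real.exp (-(lam * q)) * Real.exp (3 * S.ph * q) = Real.exp (-((lam - 3 * S.ph) * q)) := by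
            rw [← Real.exp_add]; congr 1; ring
          have e5 : E0 * Real.exp (-((lam - 3 * S.ph) * q)) = Real.exp (-(lam * q)) := by
            rw [← e3]
            calc _ = Real.exp (-(lam * q)) * (E0 * Real.exp (3 * S.ph * q)) := by ring
              _ = _ := by rw [e4, mul_one]
          simp only [hP]
          rw [e5]
          have h1 := Real.exp_pos (-(lam * q))
          have h2 : 0 < c * Real.exp (-(S.dd * (t - q))) := by positivity
          nlinarith
        calc _ ≤ ENNReal.ofReal (Real.exp (-(lam * t))) * 1 +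
              (ENNReal.ofReal (P 0 - P q) + ENNReal.ofReal (Real.exp (-(lam * q)) - Real.exp (-(lam * t)))) := by
              gcongr
              exact ENNReal.ofReal_le_one.2 (gk_le _ _)
          _ = ENNReal.ofReal (Real.exp (-(lam * t)) + ((P 0 - P q) + (Real.exp (-(lam * q)) - Real.exp (-(lam * t))))) := by
              rw [mul_one, ← ENNReal.ofReal_add hi2 hj2, ← ENNReal.ofReal_add (Real.exp_pos _).le (by linarith)]
          _ ≤ ENNReal.ofReal (P 0) := ENNReal.ofReal_le_ofReal (by linarith)

/-- the workloads escape -/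
theorem escape_boundQ {W : Load} (hW : S.Lat W) (k : ℝ) {t : ℝ} (ht : 0 ≤ t) :
    ∫⁻ ω, ENNReal.ofReal (gk k (gW drain join W ω t)) ∂(Measure.infinitePi (fun _ : ℕ => kp lam r)) ≤
      ENNReal.ofReal (Real.exp (-(S.ph * S.U W)) * (1 + Real.exp (3 * S.ph * k) * Real.exp (-(S.dd * t)))) := by
  have hp := isProbabilityMeasure_expMeasure S.lam_pos
  have h1 := expect_eq (μK := mu r) S.lam_pos measurable_drain measurable_join (measurable_gk k).ennreal_ofReal t W
  refine le_trans (le_of_eq h1) ?_
  refine le_trans (Us_le (kp lam r) (fun y => ENNReal.ofReal (gk k y)) (fun t y => ENNReal.ofReal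
    (vq S (Real.exp (3 * S.ph * k)) t y)) univ ?_ ?_ ?_ ht (mem_univ W)) ?_
  · filter_upwards [ae_fst_pos (μK := mu r) S.lam_pos] with z hz; exact hz.le
  · intro y _; exact Eventually.of_forall (fun z => mem_univ _)
  · intro t ht y _
    exact unst_superQ S rfl ht y
  · apply ENNReal.ofReal_le_ofReal
    unfold vq
    rw [if_pos hW]
    exact min_le_right _ _

end Pool.Agent.H820Z.Tq
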