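import Pool.Agent.H820Z.Tq4
open MeasureTheory ProbabilityTheory Filter Topology Set
open scoped ENNReal NNReal BoundedContinuousFunction

set_option linter.unusedSectionVars false
namespace Pool.Agent.H820Z.Tq
open Pool.Agent.Helper52.Tri

/-- uniform escape with positive probability from the states of `G` -/
def Esc (lam : ℝ) (r : Fin 2 → ℝ) (G : Set Load) : Prop :=
  ∃ η : ℝ≥0∞, 0 < η ∧ ∀ k : ℝ, ∃ T : ℝ, ∀ t, T ≤ t → ∀ x ∈ G,
    Us (kp lam r) drain join (fun y => ENNReal.ofReal (gk k y)) t x + η ≤ 1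

variable {r : Fin 2 → ℝ} {lam : ℝ}

theorem Esc.mono {G G' : Set Load} (h : Esc lam r G) (hG : G' ⊆ G) : Esc lam r G' := by
  obtain ⟨η, h0, h1⟩ := h
  refine ⟨η, h0, fun k => ?_⟩
  obtain ⟨T, hT⟩ := h1 k
  exact ⟨T, fun t ht x hx => hT t ht x (hG hx)⟩

theorem Us_gk_le (hl : 0 < lam) (k t : ℝ) (x : Load) :
    Us (kp lam r) drain join (fun y => ENNReal.ofReal (gk k y)) t x ≤ 1 := by
  have hp := isProbabilityMeasure_expMeasure hl
  rw [← expect_eq (μK := mu r) hl measurable_drain measurable_join (measurable_gk k).ennreal_ofReal t x]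
  calc _ ≤ ∫⁻ _, (1:ℝ≥0∞) ∂(Measure.infinitePi (fun _ : ℕ => (expMeasure lam).prod (mu r))) :=
        lintegral_mono (fun ω => ENNReal.ofReal_le_one.2 (gk_le _ _))
    _ = 1 := by simp

theorem exp_Ioc_pos (hl : 0 < lam) {ε : ℝ} (hε : 0 < ε) : 0 < expMeasure lam (Ioc 0 ε) := by
  rw [← lintegral_indicator_one measurableSet_Ioc, exp_lint hl (measurable_one.indicator measurableSet_Ioc)]
  have h1 : ENNReal.ofReal (lam * Real.exp (-(lam * ε))) * volume (Ioc (0:ℝ) ε) ≤
      ∫⁻ s in Ioi (0:ℝ), ENNReal.ofReal (lam * Real.exp (-(lam * s))) * (Ioc 0 ε).indicator (1 : ℝ → ℝ≥0∞) s := by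
    calc _ = ∫⁻ _ in Ioc (0:ℝ) ε, ENNReal.ofReal (lam * Real.exp (-(lam * ε))) := by
          rw [setLIntegral_const]
      _ ≤ ∫⁻ s in Ioc (0:ℝ) ε, ENNReal.ofReal (lam * Real.exp (-(lam * s))) * (Ioc 0 ε).indicator (1 : ℝ → ℝ≥0∞) s := by
          apply setLIntegral_mono (measurable_dens.mul (measurable_one.indicator measurableSet_Ioc))
          intro s hs
          rw [Pi.mul_apply, indicator_of_mem hs, Pi.one_apply, mul_one]
          apply ENNReal.ofReal_le_ofReal
          apply mul_le_mul_of_nonneg_left _ hl.le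
          apply Real.exp_le_exp.2
          have := mul_le_mul_of_nonneg_left hs.2 hl.le
          linarith
      _ ≤ _ := lintegral_mono_set Ioc_subset_Ioi_self
  refine lt_of_lt_of_le ?_ h1
  apply ENNReal.mul_pos
  · rw [Ne, ENNReal.ofReal_eq_zero, not_le]; positivity
  · rw [Real.volume_Ioc, Ne, ENNReal.ofReal_eq_zero, not_le]; linarith

theorem mu_single (o : Fin 3 × Fin 2) : (6:ℝ≥0∞)⁻¹ ≤ mu r {mk r o} := by
  rw [← lintegral_indicator_one (measurableSet_singleton _),
    lint_mu (measurable_one.indicator (measurableSet_singleton _))]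
  have : (1:ℝ≥0∞) ≤ ∑ o', ({mk r o} : Set Mark).indicator (1 : Mark → ℝ≥0∞) (mk r o') := by
    calc (1:ℝ≥0∞) = ({mk r o} : Set Mark).indicator (1 : Mark → ℝ≥0∞) (mk r o) := by simp
      _ ≤ _ := Finset.single_le_sum (f := fun o' => ({mk r o} : Set Mark).indicator (1 : Mark → ℝ≥0∞) (mk r o'))
          (fun _ _ => zero_le) (Finset.mem_univ o)
  calc (6:ℝ≥0∞)⁻¹ = 1 * 6⁻¹ := (one_mul _).symm
    _ ≤ _ := by gcongr

theorem Esc.step (hl : 0 < lam) {G G' : Set Load} (h : Esc lam r G) {ε : ℝ} (hε : 0 < ε)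
    (hs : ∀ x ∈ G', ∃ o, ∀ s ∈ Ioc 0 ε, join (drain x s) (mk r o) ∈ G) : Esc lam r G' := by
  have hp := isProbabilityMeasure_expMeasure hl
  obtain ⟨η, h0, h1⟩ := h
  refine ⟨η * (expMeasure lam (Ioc 0 ε) * 6⁻¹), ?_, fun k => ?_⟩
  · exact ENNReal.mul_pos h0.ne' (ENNReal.mul_pos (exp_Ioc_pos hl hε).ne' (by simp)).ne'
  obtain ⟨T, hT⟩ := h1 k
  refine ⟨max T 0 + ε, fun t ht x hx => ?_⟩
  obtain ⟨o, ho⟩ := hs x hx
  set g : Load → ℝ≥0∞ := fun y => ENNReal.ofReal (gk k y) with hg
  have hgm : Measurable g := (measurable_gk k).ennreal_ofReal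
  set A : Set (ℝ × Mark) := Ioc 0 ε ×ˢ {mk r o} with hA
  have hAm : MeasurableSet A := measurableSet_Ioc.prod (measurableSet_singleton _)
  have hAk : expMeasure lam (Ioc 0 ε) * 6⁻¹ ≤ kp lam r A := by
    rw [hA, Measure.prod_prod]
    gcongr
    exact mu_single o
  rw [Us_fix (kp lam r) measurable_drain measurable_join hgm t x]
  have hind : Measurable (fun z : ℝ × Mark => A.indicator (fun _ => η) z) := measurable_const.indicator hAm
  calc _ ≤ (∫⁻ z, (if t < z.1 then g (drain x t) else
        Us (kp lam r) drain join g (t - z.1) (join (drain x z.1) z.2)) ∂(kp lam r)) +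
        ∫⁻ z, A.indicator (fun _ => η) z ∂(kp lam r) := by
        gcongr
        rw [lintegral_indicator hAm, setLIntegral_const]
        gcongr
    _ = ∫⁻ z, ((if t < z.1 then g (drain x t) else
        Us (kp lam r) drain join g (t - z.1) (join (drain x z.1) z.2)) + A.indicator (fun _ => η) z) ∂(kp lam r) := by
        rw [lintegral_add_right _ hind]
    _ ≤ ∫⁻ _, (1:ℝ≥0∞) ∂(kp lam r) := by
        apply lintegral_mono
        intro z
        dsimp only
        by_cases hz : z ∈ A
        · rw [indicator_of_mem hz]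
          have hz1 : z.1 ∈ Ioc 0 ε := hz.1
          have hz2 : z.2 = mk r o := hz.2
          have hlt : ¬ t < z.1 := by
            have := le_max_right T 0
            have := hz1.2
            intro hh; linarith
          rw [if_neg hlt, hz2]
          apply hT _ _ _ (ho _ hz1)
          have := le_max_left T 0
          have := hz1.2
          linarith
        · rw [indicator_of_notMem hz, add_zero]
          split_ifs
          · exact ENNReal.ofReal_le_one.2 (gk_le _ _)
          · exact Us_gk_le hl k _ _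
    _ = 1 := by simp

theorem esc_base (S : UD lam r) : Esc lam r {W | S.Lat W ∧ 1 ≤ S.U W} := by
  have hp := isProbabilityMeasure_expMeasure S.lam_pos
  have hph := S.ph_pos
  set E := Real.exp (-S.ph) with hE
  have hE1 : E < 1 := by rw [hE, ← Real.exp_zero]; apply Real.exp_lt_exp.2; linarith
  have hE0 : 0 < E := Real.exp_pos _
  refine ⟨ENNReal.ofReal ((1 - E) / 2), by rw [ENNReal.ofReal_pos]; linarith, fun k => ?_⟩
  have h1 : Tendsto (fun t : ℝ => S.dd * t) atTop atTop := tendsto_id.const_mul_atTop S.dd_pos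
  have h2 := Real.tendsto_exp_neg_atTop_nhds_zero.comp h1
  have h3 := ((h2.const_mul (Real.exp (3 * S.ph * k))).const_add 1).const_mul E
  simp only [mul_zero, add_zero, mul_one] at h3
  have h4 := h3.eventually_lt_const (show E < (1 + E) / 2 by linarith)
  obtain ⟨T, hT⟩ := eventually_atTop.1 (h4.and (eventually_ge_atTop (0:ℝ)))
  refine ⟨T, fun t ht x hx => ?_⟩
  obtain ⟨h5, h6⟩ := hT t ht
  have h7 := escape_boundQ S hx.1 k h6
  rw [expect_eq (μK := mu r) S.lam_pos measurable_drain measurable_join (measurable_gk k).ennreal_ofReal t x] at h7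
  have h8 : Real.exp (-(S.ph * S.U x)) ≤ E := by
    rw [hE]; apply Real.exp_le_exp.2
    have := hx.2
    nlinarith
  have h9 : Real.exp (-(S.ph * S.U x)) * (1 + Real.exp (3 * S.ph * k) * Real.exp (-(S.dd * t))) ≤ (1 + E) / 2 := by
    refine le_trans ?_ h5.le
    simp only [Function.comp]
    gcongr
  calc _ ≤ ENNReal.ofReal ((1 + E) / 2) + ENNReal.ofReal ((1 - E) / 2) := by
        gcongr
        exact h7.trans (ENNReal.ofReal_le_ofReal h9)
    _ = 1 := by
        rw [← ENNReal.ofReal_add (by linarith) (by linarith)]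
        rw [show (1 + E) / 2 + (1 - E) / 2 = 1 by ring, ENNReal.ofReal_one]

theorem join_ge (hr : ∀ j, 0 ≤ r j) (x : Load) (o : Fin 3 × Fin 2) (i : Fin 3) : x i ≤ join x (mk r o) i := by
  unfold Pool.Agent.Helper52.Tri.join mk
  dsimp only
  split_ifs
  · by_cases hi : i = o.1
    · subst hi; rw [Function.update_self]; linarith
    · rw [Function.update_of_ne hi]
  · by_cases hi : i = o.1 + 1
    · subst hi; rw [Function.update_self]; linarith [hr o.2]
    · rw [Function.update_of_ne hi]

theorem join_sub (x : Load) (s : ℝ) (k : Mark) : join (fun i => x i - s) k = fun i => join x k i - s := by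
  unfold Pool.Agent.Helper52.Tri.join
  by_cases h : x k.1 < x (k.1 + 1)
  · rw [if_pos h, if_pos (by linarith)]
    funext i
    by_cases hi : i = k.1
    · subst hi; simp only [Function.update_self]; ring
    · simp only [Function.update_of_ne hi]
  · rw [if_neg h, if_neg (by intro hh; apply h; linarith)]
    funext i
    by_cases hi : i = k.1 + 1
    · subst hi; simp only [Function.update_self]; ring
    · simp only [Function.update_of_ne hi]

theorem esc_chain (S : UD lam r) (hr : ∀ j, 0 ≤ r j) {ε : ℝ} (hε : 0 < ε) (hε6 : ε ≤ 1 / 6) (n : ℕ) :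
    Esc lam r {W | S.Lat W ∧ 1 - (n:ℝ) / 2 ≤ S.U W ∧ ∀ i, n * ε ≤ W i} := by
  induction n with
  | zero =>
    refine (esc_base S).mono ?_
    intro W hW
    exact ⟨hW.1, by simpa using hW.2.1⟩
  | succ n ih =>
    refine ih.step S.lam_pos hε ?_
    intro x hx
    obtain ⟨hL, hU, hm⟩ := hx
    obtain ⟨o, ho⟩ := S.up x hL
    refine ⟨o, fun s hs => ?_⟩
    have hn : (0:ℝ) ≤ n * ε := by positivity
    push_cast at hU hm
    have hsx : ∀ i, s ≤ x i := fun i => by linarith [hm i, hs.2]
    have hsj : ∀ i, s ≤ join x (mk r o) i := fun i => (hsx i).trans (join_ge hr x o i)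
    have e : join (drain x s) (mk r o) = drain (join x (mk r o)) s := by
      rw [drain_eq_sub hsx, drain_eq_sub hsj, join_sub]
    rw [e]
    obtain ⟨a, b⟩ := S.lsub _ (S.ljoin x hL o) s hsj
    refine ⟨a, by rw [b]; linarith [hs.2], fun i => ?_⟩
    rw [drain_eq_sub hsj]
    have := join_ge hr x o i
    have := hm i
    have := hs.2
    show n * ε ≤ join x (mk r o) i - s
    linarith

theorem esc_low (S : UD lam r) (hr : ∀ j, 0 ≤ r j) (M : ℝ) :
    Esc lam r {W | S.Lat W ∧ -M ≤ S.U W ∧ ∀ i, 1 ≤ W i} := by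
  obtain ⟨n, hn⟩ := exists_nat_ge (max 6 (2 * M + 2))
  have h6 : (6:ℝ) ≤ n := (le_max_left _ _).trans hn
  have hM : 2 * M + 2 ≤ n := (le_max_right _ _).trans hn
  have hn0 : (0:ℝ) < n := by linarith
  refine (esc_chain S hr (ε := 1 / n) (by positivity) (by gcongr) n).mono ?_
  intro W hW
  refine ⟨hW.1, by linarith [hW.2.1], fun i => ?_⟩
  rw [mul_one_div_cancel hn0.ne']
  exact hW.2.2 i

theorem not_convQ (hl : 0 < lam) {W : Load} (hE : Esc lam r {W}) :
    ¬ ∃ π : Measure Load, IsProbabilityMeasure π ∧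
      ∀ g : Load →ᵇ ℝ, Tendsto (fun t : ℝ => ∫ ω, g (gW drain join W ω t) ∂(PQ lam r)) atTop
        (𝓝 (∫ x, g x ∂π)) := by
  rintro ⟨π, hπ, hconv⟩
  have hp := isProbabilityMeasure_expMeasure hl
  obtain ⟨η, hη, hesc⟩ := hE
  have hη1 : η ≤ 1 := by
    obtain ⟨T, hT⟩ := hesc 0
    exact le_add_self.trans (hT T le_rfl W rfl)
  have hηt : η ≠ ⊤ := ne_top_of_le_ne_top ENNReal.one_ne_top hη1
  set ρ : ℝ := 1 - η.toReal with hρ
  have hηr : 0 < η.toReal := ENNReal.toReal_pos hη.ne' hηt
  have hreal : ∀ k : ℝ, ∀ᶠ t : ℝ in atTop, ∫ ω, gk k (gW drain join W ω t) ∂(PQ lam r) ≤ ρ := by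
    intro k
    obtain ⟨T, hT⟩ := hesc k
    filter_upwards [eventually_ge_atTop T] with t ht
    have h1 := hT t ht W rfl
    rw [← expect_eq (μK := mu r) hl measurable_drain measurable_join (measurable_gk k).ennreal_ofReal t W] at h1
    rw [integral_eq_lintegral_of_nonneg_ae (Eventually.of_forall (fun ω => gk_nonneg _ _))
      ((measurable_gk k).comp (measurable_gW' W t)).aestronglyMeasurable]
    have hne : (∫⁻ ω, ENNReal.ofReal (gk k (gW drain join W ω t)) ∂(PQ lam r)) ≠ ⊤ :=
      ne_top_of_le_ne_top ENNReal.one_ne_top (le_self_add.trans h1)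
    have h2 := ENNReal.toReal_mono ENNReal.one_ne_top h1
    rw [ENNReal.toReal_add hne hηt, ENNReal.toReal_one] at h2
    rw [hρ]; linarith
  have hcont : ∀ k : ℕ, Continuous (fun x : Load => max 0 (min 1 ((k:ℝ) + 1 - x 0))) := by
    intro k; fun_prop
  have hbdd : ∀ (k : ℕ) (x : Load), ‖max 0 (min 1 ((k:ℝ) + 1 - x 0))‖ ≤ 1 := by
    intro k x
    rw [Real.norm_eq_abs, abs_of_nonneg (le_max_left _ _)]
    exact max_le (by norm_num) (min_le_left _ _)
  set g : ℕ → (Load →ᵇ ℝ) := fun k =>
    BoundedContinuousFunction.ofNormedAddCommGroup (fun x : Load => max 0 (min 1 ((k:ℝ) + 1 - x 0)))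
      (hcont k) 1 (hbdd k) with hg
  have hgv : ∀ k x, g k x = max 0 (min 1 ((k:ℝ) + 1 - x 0)) := fun k x => rfl
  have hle : ∀ k, ∫ x, g k x ∂π ≤ ρ := by
    intro k
    apply le_of_tendsto (hconv (g k))
    filter_upwards [hreal ((k:ℝ) + 1)] with t ht
    refine le_trans ?_ ht
    have hint : Integrable (fun ω => gk ((k:ℝ) + 1) (gW drain join W ω t)) (PQ lam r) := by
      apply Integrable.of_bound ((measurable_gk _).comp (measurable_gW' W t)).aestronglyMeasurable 1
      apply Eventually.of_forall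
      intro ω
      show ‖gk ((k:ℝ) + 1) (gW drain join W ω t)‖ ≤ 1
      rw [Real.norm_eq_abs, abs_of_nonneg (gk_nonneg _ _)]
      exact gk_le _ _
    apply integral_mono_of_nonneg (Eventually.of_forall (fun ω => by
      show 0 ≤ g k (gW drain join W ω t); rw [hgv]; exact le_max_left _ _)) hint
    apply Eventually.of_forall
    intro ω
    show g k (gW drain join W ω t) ≤ gk ((k:ℝ) + 1) (gW drain join W ω t)
    rw [hgv]
    by_cases h : ∃ i, gW drain join W ω t i ≤ (k:ℝ) + 1
    · unfold gk; rw [if_pos h]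
      exact max_le (by norm_num) (min_le_left _ _)
    · unfold gk; rw [if_neg h]
      push Not at h
      exact max_le le_rfl ((min_le_right _ _).trans (by linarith [h 0]))
  have hmono : Monotone (fun k : ℕ => {x : Load | x 0 ≤ (k:ℝ)}) := by
    intro a b hab x hx
    have : (a:ℝ) ≤ b := by exact_mod_cast hab
    exact le_trans hx this
  have hun : (⋃ k : ℕ, {x : Load | x 0 ≤ (k:ℝ)}) = univ := by
    ext x
    simp only [mem_iUnion, mem_univ, iff_true]
    exact exists_nat_ge (x 0)
  have hlim := tendsto_measure_iUnion_atTop (μ := π) hmono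
  rw [hun, measure_univ] at hlim
  have hev : ∀ᶠ k : ℕ in atTop, ENNReal.ofReal ρ < π {x : Load | x 0 ≤ (k:ℝ)} :=
    hlim.eventually_const_lt (by rw [ENNReal.ofReal_lt_one]; linarith)
  obtain ⟨k, hk⟩ := hev.exists
  have hms : MeasurableSet {x : Load | x 0 ≤ (k:ℝ)} := measurableSet_le (measurable_pi_apply 0) measurable_const
  have h6 : (π {x : Load | x 0 ≤ (k:ℝ)}).toReal ≤ ∫ x, g k x ∂π := by
    calc (π {x : Load | x 0 ≤ (k:ℝ)}).toReal = ∫ x, {x : Load | x 0 ≤ (k:ℝ)}.indicator (fun _ => (1:ℝ)) x ∂π := by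
          rw [integral_indicator hms]; simp [measureReal_def]
      _ ≤ _ := by
          apply integral_mono_of_nonneg
          · apply Eventually.of_forall
            intro x
            exact indicator_nonneg (fun _ _ => zero_le_one) x
          · exact (g k).integrable _
          · apply Eventually.of_forall
            intro x
            show {x : Load | x 0 ≤ (k:ℝ)}.indicator (fun _ => (1:ℝ)) x ≤ g k x
            rw [hgv]
            by_cases h : x 0 ≤ (k:ℝ)
            · rw [indicator_of_mem (show x ∈ {x : Load | x 0 ≤ (k:ℝ)} from h)]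
              rw [min_eq_left (by linarith)]
              exact le_max_right _ _
            · rw [indicator_of_notMem (show x ∉ {x : Load | x 0 ≤ (k:ℝ)} from h)]
              exact le_max_left _ _
  have h7 : ρ < (π {x : Load | x 0 ≤ (k:ℝ)}).toReal := by
    have hρ0 : 0 ≤ ρ := by
      have := ENNReal.toReal_mono ENNReal.one_ne_top hη1
      rw [ENNReal.toReal_one] at this
      rw [hρ]; linarith
    have := (ENNReal.toReal_lt_toReal ENNReal.ofReal_ne_top (measure_ne_top π _)).2 hk
    rwa [ENNReal.toReal_ofReal hρ0] at this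
  linarith [hle k]

end Pool.Agent.H820Z.Tq
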