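import Pool.Agent.H820Z.Tq1
open MeasureTheory ProbabilityTheory Filter Topology Set
open scoped ENNReal NNReal BoundedContinuousFunction

set_option linter.unusedSectionVars false
namespace Pool.Agent.H820Z.Tq
open Pool.Agent.Helper52.Tri

abbrev Cell := ℤ × ℤ × ℤ

noncomputable def cell (W : Load) : Cell := (⌊W 0 - W 1⌋, ⌊W 1 - W 2⌋, ⌊W 2 - W 0⌋)

noncomputable def sm (W : Load) : ℝ := W 0 + W 1 + W 2

noncomputable def mn (W : Load) : ℝ := min (W 0) (min (W 1) (W 2))

def nx0 (q : ℤ) (x : Cell) : ℤ × Cell :=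
  if x.1 < 0 then (1, (x.1 + 1, x.2.1, x.2.2 - 1)) else (q, (x.1 - q, x.2.1 + q, x.2.2))

def nx1 (q : ℤ) (x : Cell) : ℤ × Cell :=
  if x.2.1 < 0 then (1, (x.1 - 1, x.2.1 + 1, x.2.2)) else (q, (x.1, x.2.1 - q, x.2.2 + q))

def nx2 (q : ℤ) (x : Cell) : ℤ × Cell :=
  if x.2.2 < 0 then (1, (x.1, x.2.1 - 1, x.2.2 + 1)) else (q, (x.1 + q, x.2.1, x.2.2 - q))

def Mx (x : Cell) : ℤ := max (x.2.2 - x.1) (max (x.1 - x.2.1) (x.2.1 - x.2.2))

theorem fl_add (x : ℝ) (q : ℤ) {y : ℝ} (h : y = x + q) : ⌊y⌋ = ⌊x⌋ + q := by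
  rw [h, Int.floor_add_intCast]

theorem fl_sub (x : ℝ) (q : ℤ) {y : ℝ} (h : y = x - q) : ⌊y⌋ = ⌊x⌋ - q := by
  rw [h, Int.floor_sub_intCast]

theorem upd0 (W : Load) (q : ℤ) : cell (Function.update W 0 (W 0 + q)) =
    ((cell W).1 + q, (cell W).2.1, (cell W).2.2 - q) ∧ sm (Function.update W 0 (W 0 + q)) = sm W + q := by
  have e0 : Function.update W 0 (W 0 + q) 0 = W 0 + q := Function.update_self _ _ _
  have e1 : Function.update W 0 (W 0 + q) 1 = W 1 := Function.update_of_ne (by decide) _ _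
  have e2 : Function.update W 0 (W 0 + q) 2 = W 2 := Function.update_of_ne (by decide) _ _
  unfold cell sm
  rw [e0, e1, e2]
  refine ⟨?_, by ring⟩
  rw [fl_add (W 0 - W 1) q (y := W 0 + q - W 1) (by ring), fl_sub (W 2 - W 0) q (y := W 2 - (W 0 + q)) (by ring)]

theorem upd1 (W : Load) (q : ℤ) : cell (Function.update W 1 (W 1 + q)) =
    ((cell W).1 - q, (cell W).2.1 + q, (cell W).2.2) ∧ sm (Function.update W 1 (W 1 + q)) = sm W + q := by
  have e0 : Function.update W 1 (W 1 + q) 1 = W 1 + q := Function.update_self _ _ _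
  have e1 : Function.update W 1 (W 1 + q) 0 = W 0 := Function.update_of_ne (by decide) _ _
  have e2 : Function.update W 1 (W 1 + q) 2 = W 2 := Function.update_of_ne (by decide) _ _
  unfold cell sm
  rw [e0, e1, e2]
  refine ⟨?_, by ring⟩
  rw [fl_add (W 1 - W 2) q (y := W 1 + q - W 2) (by ring), fl_sub (W 0 - W 1) q (y := W 0 - (W 1 + q)) (by ring)]

theorem upd2 (W : Load) (q : ℤ) : cell (Function.update W 2 (W 2 + q)) =
    ((cell W).1, (cell W).2.1 - q, (cell W).2.2 + q) ∧ sm (Function.update W 2 (W 2 + q)) = sm W + q := by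
  have e0 : Function.update W 2 (W 2 + q) 2 = W 2 + q := Function.update_self _ _ _
  have e1 : Function.update W 2 (W 2 + q) 0 = W 0 := Function.update_of_ne (by decide) _ _
  have e2 : Function.update W 2 (W 2 + q) 1 = W 1 := Function.update_of_ne (by decide) _ _
  unfold cell sm
  rw [e0, e1, e2]
  refine ⟨?_, by ring⟩
  rw [fl_add (W 2 - W 0) q (y := W 2 + q - W 0) (by ring), fl_sub (W 1 - W 2) q (y := W 1 - (W 2 + q)) (by ring)]

theorem fl_neg (x y : ℝ) : ⌊x - y⌋ < 0 ↔ x < y := by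
  rw [Int.floor_lt]; push_cast; exact sub_neg

theorem join_l {W : Load} {c : Fin 3} (l q : ℝ) (h : W c < W (c + 1)) :
    join W (c, (l, q)) = Function.update W c (W c + l) := by
  unfold Pool.Agent.Helper52.Tri.join; rw [if_pos h]

theorem join_r {W : Load} {c : Fin 3} (l q : ℝ) (h : ¬ W c < W (c + 1)) :
    join W (c, (l, q)) = Function.update W (c + 1) (W (c + 1) + q) := by
  unfold Pool.Agent.Helper52.Tri.join; rw [if_neg h]

theorem join0 (W : Load) (q : ℤ) : cell (join W (0, (1, (q:ℝ)))) = (nx0 q (cell W)).2 ∧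
    sm (join W (0, (1, (q:ℝ)))) = sm W + (nx0 q (cell W)).1 := by
  unfold nx0
  by_cases h : W 0 < W 1
  · have h' : (cell W).1 < 0 := (fl_neg _ _).2 h
    rw [if_pos h', join_l _ _ (show W 0 < W (0 + 1) from h)]
    have := upd0 W 1
    push_cast at this ⊢
    exact this
  · have h' : ¬ (cell W).1 < 0 := fun hh => h ((fl_neg _ _).1 hh)
    rw [if_neg h', join_r _ _ (show ¬ W 0 < W (0 + 1) from h)]
    exact upd1 W q

theorem join1 (W : Load) (q : ℤ) : cell (join W (1, (1, (q:ℝ)))) = (nx1 q (cell W)).2 ∧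
    sm (join W (1, (1, (q:ℝ)))) = sm W + (nx1 q (cell W)).1 := by
  unfold nx1
  by_cases h : W 1 < W 2
  · have h' : (cell W).2.1 < 0 := (fl_neg _ _).2 h
    rw [if_pos h', join_l _ _ (show W 1 < W (1 + 1) from h)]
    have := upd1 W 1
    push_cast at this ⊢
    exact this
  · have h' : ¬ (cell W).2.1 < 0 := fun hh => h ((fl_neg _ _).1 hh)
    rw [if_neg h', join_r _ _ (show ¬ W 1 < W (1 + 1) from h)]
    exact upd2 W q

theorem join2 (W : Load) (q : ℤ) : cell (join W (2, (1, (q:ℝ)))) = (nx2 q (cell W)).2 ∧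
    sm (join W (2, (1, (q:ℝ)))) = sm W + (nx2 q (cell W)).1 := by
  unfold nx2
  by_cases h : W 2 < W 0
  · have h' : (cell W).2.2 < 0 := (fl_neg _ _).2 h
    rw [if_pos h', join_l _ _ (show W 2 < W (2 + 1) from h)]
    have := upd2 W 1
    push_cast at this ⊢
    exact this
  · have h' : ¬ (cell W).2.2 < 0 := fun hh => h ((fl_neg _ _).1 hh)
    rw [if_neg h', join_r _ _ (show ¬ W 2 < W (2 + 1) from h)]
    exact upd0 W q

theorem mn_le (W : Load) (i : Fin 3) : mn W ≤ W i := by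
  unfold mn
  fin_cases i
  · exact min_le_left _ _
  · exact (min_le_right _ _).trans (min_le_left _ _)
  · exact (min_le_right _ _).trans (min_le_right _ _)

theorem le_mn {W : Load} {x : ℝ} (h : ∀ i, x ≤ W i) : x ≤ mn W :=
  le_min (h 0) (le_min (h 1) (h 2))

theorem mn_ex (W : Load) : ∃ i, mn W = W i := by
  unfold mn
  rcases min_choice (W 0) (min (W 1) (W 2)) with h | h
  · exact ⟨0, h⟩
  · rcases min_choice (W 1) (W 2) with h2 | h2
    · exact ⟨1, h.trans h2⟩
    · exact ⟨2, h.trans h2⟩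

theorem cell_bd (W : Load) :
    ((cell W).1 : ℝ) ≤ W 0 - W 1 ∧ W 0 - W 1 < (cell W).1 + 1 ∧
    ((cell W).2.1 : ℝ) ≤ W 1 - W 2 ∧ W 1 - W 2 < (cell W).2.1 + 1 ∧
    ((cell W).2.2 : ℝ) ≤ W 2 - W 0 ∧ W 2 - W 0 < (cell W).2.2 + 1 :=
  ⟨Int.floor_le _, Int.lt_floor_add_one _, Int.floor_le _, Int.lt_floor_add_one _, Int.floor_le _,
    Int.lt_floor_add_one _⟩

theorem Sp_bd (W : Load) : (Mx (cell W) : ℝ) - 1 ≤ sm W - 3 * mn W ∧ sm W - 3 * mn W ≤ Mx (cell W) + 1 := by
  obtain ⟨a1, a2, b1, b2, c1, c2⟩ := cell_bd W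
  have m0 := mn_le W 0
  have m1 := mn_le W 1
  have m2 := mn_le W 2
  unfold Mx sm
  push_cast
  constructor
  · rw [sub_le_iff_le_add]
    refine max_le (by linarith) (max_le (by linarith) (by linarith))
  · have k0 := le_max_left (((cell W).2.2 : ℝ) - (cell W).1)
      (max (((cell W).1 : ℝ) - (cell W).2.1) (((cell W).2.1 : ℝ) - (cell W).2.2))
    have k1 := (le_max_left (((cell W).1 : ℝ) - (cell W).2.1) (((cell W).2.1 : ℝ) - (cell W).2.2)).trans
      (le_max_right (((cell W).2.2 : ℝ) - (cell W).1) _)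
    have k2 := (le_max_right (((cell W).1 : ℝ) - (cell W).2.1) (((cell W).2.1 : ℝ) - (cell W).2.2)).trans
      (le_max_right (((cell W).2.2 : ℝ) - (cell W).1) _)
    obtain ⟨i, hi⟩ := mn_ex W
    rw [hi]
    fin_cases i
    · show W 0 + W 1 + W 2 - 3 * W 0 ≤ _; linarith
    · show W 0 + W 1 + W 2 - 3 * W 1 ≤ _; linarith
    · show W 0 + W 1 + W 2 - 3 * W 2 ≤ _; linarith

def rg (x : Cell) : ℤ := x.1 + x.2.1 + x.2.2

theorem rg_cases (W : Load) : rg (cell W) = -1 ∨ rg (cell W) = -2 ∨ W 0 - W 1 = (cell W).1 := by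
  obtain ⟨a1, a2, b1, b2, c1, c2⟩ := cell_bd W
  have h1 : (rg (cell W) : ℝ) ≤ 0 := by unfold rg; push_cast; linarith
  have h2 : (-3 : ℝ) < rg (cell W) := by unfold rg; push_cast; linarith
  have h1' : rg (cell W) ≤ 0 := by exact_mod_cast h1
  have h2' : -3 < rg (cell W) := by exact_mod_cast h2
  by_cases h0 : rg (cell W) = 0
  · right; right
    have : (rg (cell W) : ℝ) = 0 := by exact_mod_cast h0
    unfold rg at this; push_cast at this
    linarith
  · omega

def box (R : ℤ) (x : Cell) : Prop :=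
  -R ≤ x.1 ∧ x.1 < R ∧ -R ≤ x.2.1 ∧ x.2.1 < R ∧ -R ≤ x.2.2 ∧ x.2.2 < R

instance (R : ℤ) (x : Cell) : Decidable (box R x) := by unfold box; infer_instance

theorem box_spread {R : ℤ} (hR : 0 ≤ R) {W : Load} (h : box R (cell W)) (i j : Fin 3) : W i - W j ≤ R := by
  obtain ⟨a1, a2, b1, b2, c1, c2⟩ := cell_bd W
  obtain ⟨p1, p2, p3, p4, p5, p6⟩ := h
  have q1 : (-R : ℝ) ≤ (cell W).1 := by exact_mod_cast p1
  have q2 : ((cell W).1 : ℝ) + 1 ≤ R := by exact_mod_cast p2
  have q3 : (-R : ℝ) ≤ (cell W).2.1 := by exact_mod_cast p3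
  have q4 : ((cell W).2.1 : ℝ) + 1 ≤ R := by exact_mod_cast p4
  have q5 : (-R : ℝ) ≤ (cell W).2.2 := by exact_mod_cast p5
  have q6 : ((cell W).2.2 : ℝ) + 1 ≤ R := by exact_mod_cast p6
  have q0 : (0:ℝ) ≤ R := by exact_mod_cast hR
  fin_cases i <;> fin_cases j <;> simp only [Fin.zero_eta, Fin.mk_one, Fin.reduceFinMk, Fin.isValue] <;> linarith

theorem nobox_spread {R : ℤ} {W : Load} (h : ¬ box R (cell W)) : ∃ i j, W j + R ≤ W i := by
  obtain ⟨a1, a2, b1, b2, c1, c2⟩ := cell_bd W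
  by_contra hcon
  push Not at hcon
  apply h
  have k01 := hcon 0 1
  have k10 := hcon 1 0
  have k12 := hcon 1 2
  have k21 := hcon 2 1
  have k20 := hcon 2 0
  have k02 := hcon 0 2
  refine ⟨?_, ?_, ?_, ?_, ?_, ?_⟩
  · have : (-R : ℝ) < (cell W).1 + 1 := by linarith
    have : -R < (cell W).1 + 1 := by exact_mod_cast this
    omega
  · have : ((cell W).1 : ℝ) < R := by linarith
    exact_mod_cast this
  · have : (-R : ℝ) < (cell W).2.1 + 1 := by linarith
    have : -R < (cell W).2.1 + 1 := by exact_mod_cast this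
    omega
  · have : ((cell W).2.1 : ℝ) < R := by linarith
    exact_mod_cast this
  · have : (-R : ℝ) < (cell W).2.2 + 1 := by linarith
    have : -R < (cell W).2.2 + 1 := by exact_mod_cast this
    omega
  · have : ((cell W).2.2 : ℝ) < R := by linarith
    exact_mod_cast this

/-- the two most loaded servers are within `b` -/
def Near (b : ℝ) (W : Load) : Prop := ∀ i, ∃ j, j ≠ i ∧ W i - b ≤ W j

theorem ex_max (W : Load) : ∃ M, ∀ i, W i ≤ W M := by
  obtain ⟨M, _, hM⟩ := Finset.exists_max_image Finset.univ W ⟨0, Finset.mem_univ 0⟩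
  exact ⟨M, fun i => hM i (Finset.mem_univ i)⟩

theorem gap_of {b R : ℝ} (hb0 : 0 ≤ b) (hb : b < R) {W : Load} (hN : Near b W) (h : ∃ i j, W j + R ≤ W i) :
    ∃ m, mn W = W m ∧ ∀ j, j ≠ m → W m + (R - b) ≤ W j := by
  obtain ⟨i0, j0, h0⟩ := h
  obtain ⟨m, hm⟩ := mn_ex W
  obtain ⟨M, hM⟩ := ex_max W
  have h1 : W m + R ≤ W M := by linarith [mn_le W j0, hM i0]
  obtain ⟨j, hj, hj2⟩ := hN M
  have hMm : M ≠ m := by intro e; rw [e] at h1; linarith
  have hjm : j ≠ m := by intro e; rw [e] at hj2; linarith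
  refine ⟨m, hm, fun j' hj' => ?_⟩
  have : j' = M ∨ j' = j := by
    revert hj' hjm hMm hj
    generalize j' = a
    generalize j = b'
    generalize M = c
    generalize m = d
    revert a b' c d
    decide
  rcases this with e | e
  · rw [e]; linarith
  · rw [e]; linarith

theorem cell_sub (W : Load) (s : ℝ) : cell (fun i => W i - s) = cell W := by
  unfold cell
  simp only [sub_sub_sub_cancel_right]

theorem sm_sub (W : Load) (s : ℝ) : sm (fun i => W i - s) = sm W - 3 * s := by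
  unfold sm; ring

theorem mn_sub (W : Load) (s : ℝ) : mn (fun i => W i - s) = mn W - s := by
  unfold mn
  simp only [min_sub_sub_right]

/-- effect of adding work at one server -/
theorem upd_facts (W : Load) (p : Fin 3) {q : ℝ} (hq : 0 ≤ q) :
    sm (Function.update W p (W p + q)) = sm W + q ∧ mn W ≤ mn (Function.update W p (W p + q)) ∧
      mn (Function.update W p (W p + q)) ≤ mn W + q := by
  have hge : ∀ i, W i ≤ Function.update W p (W p + q) i ∧ Function.update W p (W p + q) i ≤ W i + q := by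
    intro i
    by_cases hi : i = p
    · subst hi; rw [Function.update_self]; constructor <;> linarith
    · rw [Function.update_of_ne hi]; constructor <;> linarith
  refine ⟨?_, le_mn (fun i => (mn_le W i).trans (hge i).1), ?_⟩
  · unfold sm
    fin_cases p <;> simp <;> ring
  · obtain ⟨i, hi⟩ := mn_ex W
    rw [hi]
    exact (mn_le _ i).trans (hge i).2

theorem upd_min {W : Load} {m : Fin 3} {G q : ℝ} (hm : mn W = W m) (hG : ∀ j, j ≠ m → W m + G ≤ W j) :
    mn W + min q G ≤ mn (Function.update W m (W m + q)) := by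
  apply le_mn
  intro i
  by_cases hi : i = m
  · subst hi; rw [Function.update_self, hm]; linarith [min_le_left q G]
  · rw [Function.update_of_ne hi, hm]; linarith [min_le_right q G, hG i hi]

theorem join_facts (W : Load) (c : Fin 3) {q : ℝ} (hq : 1 ≤ q) :
    ∃ d, 1 ≤ d ∧ d ≤ q ∧ sm (join W (c, (1, q))) = sm W + d ∧ mn W ≤ mn (join W (c, (1, q))) ∧
      mn (join W (c, (1, q))) ≤ mn W + d := by
  by_cases h : W c < W (c + 1)
  · rw [join_l _ _ h]
    exact ⟨1, le_rfl, hq, upd_facts W c zero_le_one⟩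
  · rw [join_r _ _ h]
    exact ⟨q, hq, le_rfl, upd_facts W (c + 1) (by linarith)⟩

theorem join_gap_l {W : Load} {m : Fin 3} {G : ℝ} (hG1 : 1 ≤ G) (hm : mn W = W m)
    (hG : ∀ j, j ≠ m → W m + G ≤ W j) (q : ℝ) :
    sm (join W (m, (1, q))) = sm W + 1 ∧ mn W + 1 ≤ mn (join W (m, (1, q))) := by
  have hne : m + 1 ≠ m := by fin_cases m <;> decide
  rw [join_l _ _ (show W m < W (m + 1) by linarith [hG _ hne])]
  refine ⟨(upd_facts W m zero_le_one).1, ?_⟩
  have := upd_min (q := 1) hm hG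
  rwa [min_eq_left hG1] at this

theorem join_gap_r {W : Load} {m : Fin 3} {G : ℝ} (hG1 : 1 ≤ G) (hm : mn W = W m)
    (hG : ∀ j, j ≠ m → W m + G ≤ W j) {q : ℝ} (hq : 0 ≤ q) :
    sm (join W (m + 2, (1, q))) = sm W + q ∧ mn W + min q G ≤ mn (join W (m + 2, (1, q))) := by
  have hne : m + 2 ≠ m := by fin_cases m <;> decide
  have he : m + 2 + 1 = m := by fin_cases m <;> decide
  rw [join_r _ _ (show ¬ W (m + 2) < W (m + 2 + 1) by rw [he]; linarith [hG _ hne]), he]
  exact ⟨(upd_facts W m hq).1, upd_min hm hG⟩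

theorem sum6 (f : Fin 3 × Fin 2 → ℝ) (m : Fin 3) :
    ∑ o, f o = f (m, 0) + f (m, 1) + f (m + 1, 0) + f (m + 1, 1) + f (m + 2, 0) + f (m + 2, 1) := by
  rw [Fintype.sum_prod_type]
  simp only [Fin.sum_univ_three, Fin.sum_univ_two]
  fin_cases m
  · show _ = f (0, 0) + f (0, 1) + f (1, 0) + f (1, 1) + f (2, 0) + f (2, 1); ring
  · show _ = f (1, 0) + f (1, 1) + f (2, 0) + f (2, 1) + f (0, 0) + f (0, 1); ring
  · show _ = f (2, 0) + f (2, 1) + f (0, 0) + f (0, 1) + f (1, 0) + f (1, 1); ring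

theorem Near_drain {b : ℝ} (hb : 0 ≤ b) {W : Load} (hN : Near b W) (s : ℝ) : Near b (drain W s) := by
  intro i
  obtain ⟨j, hj, hj2⟩ := hN i
  refine ⟨j, hj, ?_⟩
  unfold drain
  rcases le_total (W i - s) 0 with h | h
  · rw [max_eq_right h]
    linarith [le_max_right (W j - s) 0]
  · rw [max_eq_left h]
    linarith [le_max_left (W j - s) 0]

theorem Near_upd {b : ℝ} {W : Load} (hN : Near b W) {p o : Fin 3} {q : ℝ} (hpo : p ≠ o) (hq0 : 0 ≤ q) (hq : q ≤ b)
    (hle : W p ≤ W o) : Near b (Function.update W p (W p + q)) := by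
  intro i
  by_cases hip : i = p
  · refine ⟨o, by rw [hip]; exact hpo.symm, ?_⟩
    rw [hip, Function.update_self, Function.update_of_ne hpo.symm]
    linarith
  · obtain ⟨j, hj, hj2⟩ := hN i
    refine ⟨j, hj, ?_⟩
    rw [Function.update_of_ne hip]
    by_cases hjp : j = p
    · subst hjp; rw [Function.update_self]; linarith
    · rw [Function.update_of_ne hjp]; exact hj2

theorem Near_join {b : ℝ} {W : Load} (hN : Near b W) (c : Fin 3) {q : ℝ} (hq1 : 1 ≤ q) (hq : q ≤ b) :
    Near b (join W (c, (1, q))) := by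
  have hcc : c ≠ c + 1 := by fin_cases c <;> decide
  by_cases h : W c < W (c + 1)
  · rw [join_l _ _ h]
    exact Near_upd hN hcc zero_le_one (by linarith) h.le
  · rw [join_r _ _ h]
    exact Near_upd hN hcc.symm (by linarith) hq (not_lt.1 h)

theorem measurable_cell : Measurable cell := by
  have hW : ∀ i : Fin 3, Measurable (fun W : Load => W i) := fun i => measurable_pi_apply i
  unfold cell
  exact (Int.measurable_floor.comp ((hW 0).sub (hW 1))).prodMk
    ((Int.measurable_floor.comp ((hW 1).sub (hW 2))).prodMk (Int.measurable_floor.comp ((hW 2).sub (hW 0))))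

theorem measurable_sm : Measurable sm := by
  have hW : ∀ i : Fin 3, Measurable (fun W : Load => W i) := fun i => measurable_pi_apply i
  unfold sm
  exact ((hW 0).add (hW 1)).add (hW 2)

theorem measurable_mn : Measurable mn := by
  have hW : ∀ i : Fin 3, Measurable (fun W : Load => W i) := fun i => measurable_pi_apply i
  unfold mn
  exact (hW 0).min ((hW 1).min (hW 2))

/-- potential: a table on the cells of `N`, a multiple of the spread elsewhere -/
noncomputable def Pot (N : Cell → Bool) (g : Cell → ℤ) (σ C : ℝ) (W : Load) : ℝ :=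
  sm W + (if N (cell W) = true then (g (cell W) : ℝ) / 1000 else σ * (sm W - 3 * mn W) + C)

theorem measurable_Pot (N : Cell → Bool) (g : Cell → ℤ) (σ C : ℝ) : Measurable (Pot N g σ C) := by
  unfold Pot
  apply measurable_sm.add
  apply Measurable.ite
  · exact measurable_cell (MeasurableSet.of_discrete (s := {x : Cell | N x = true}))
  · have h3 : Measurable (fun x : Cell => (g x : ℝ) / 1000) := measurable_of_countable _
    exact h3.comp measurable_cell
  · exact ((measurable_sm.sub (measurable_mn.const_mul 3)).const_mul σ).add_const C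

end Pool.Agent.H820Z.Tq
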