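import Pool.Agent.H820Z.TqTab
import Pool.Agent.H820Z.Tq3
open MeasureTheory ProbabilityTheory Filter Topology Set
open scoped ENNReal NNReal BoundedContinuousFunction

set_option linter.unusedSectionVars false
namespace Pool.Agent.H820Z.Tq
open Pool.Agent.Helper52.Tri

def rA : Fin 2 → ℝ := ![1, 5]

theorem rA0 : rA 0 = 1 := rfl
theorem rA1 : rA 1 = 5 := rfl

theorem rA_bd (j : Fin 2) : 1 ≤ rA j ∧ rA j ≤ 5 := by
  fin_cases j
  · show 1 ≤ rA 0 ∧ rA 0 ≤ 5; rw [rA0]; norm_num
  · show 1 ≤ rA 1 ∧ rA 1 ≤ 5; rw [rA1]; norm_num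

theorem rA_int (j : Fin 2) : ∃ q : ℤ, rA j = q := by
  fin_cases j
  · exact ⟨1, by show rA 0 = _; rw [rA0]; norm_num⟩
  · exact ⟨5, by show rA 1 = _; rw [rA1]; norm_num⟩

noncomputable def US : Load → ℝ := Pot nS gS (1 / 2) 0

noncomputable def FS (W : Load) : ℝ := 3 / 2 * (sm W - mn W)

theorem US_in {W : Load} (h : nS (cell W) = true) : US W = sm W + (gS (cell W) : ℝ) / 1000 := by
  unfold US Pot; rw [if_pos h]

theorem US_out {W : Load} (h : ¬ nS (cell W) = true) : US W = FS W := by
  unfold US Pot FS; rw [if_neg h]; ring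

theorem US_F (W : Load) : FS W - 2600 ≤ US W ∧ US W ≤ FS W := by
  by_cases h : nS (cell W) = true
  · rw [US_in h]
    obtain ⟨_, t2, t3⟩ := tabS h
    have t2' : 2 * (gS (cell W) : ℝ) ≤ 1000 * (Mx (cell W) - 1) := by exact_mod_cast t2
    have t3' : 1000 * ((Mx (cell W) : ℝ) + 1) ≤ 2 * gS (cell W) + 5200000 := by exact_mod_cast t3
    obtain ⟨s1, s2⟩ := Sp_bd W
    unfold FS
    constructor <;> linarith
  · rw [US_out h]; constructor <;> linarith

theorem US_le_b {W W' : Load} {p : ℤ × Cell} (h : cell W' = p.2 ∧ sm W' = sm W + p.1) :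
    US W' ≤ sm W + (bS p : ℝ) / 1000 := by
  obtain ⟨h1, h2⟩ := h
  unfold bS
  rw [← h1]
  by_cases h : nS (cell W') = true
  · rw [US_in h, if_pos h, h2]; push_cast; linarith
  · rw [US_out h, if_neg h]
    obtain ⟨s1, s2⟩ := Sp_bd W'
    unfold FS
    push_cast; linarith

theorem US_near {W : Load} (h : nS (cell W) = true) :
    ∑ o, US (join W (mk rA o)) ≤ 6 * US W + 11916 / 1000 := by
  rw [sum6 _ 0, US_in h]
  have a0 := US_le_b (join0 W 1)
  have a1 := US_le_b (join0 W 5)
  have b0 := US_le_b (join1 W 1)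
  have b1 := US_le_b (join1 W 5)
  have c0 := US_le_b (join2 W 1)
  have c1 := US_le_b (join2 W 5)
  have t := (tabS h).1
  have t' : (bS (nx0 1 (cell W)) : ℝ) + bS (nx0 5 (cell W)) + bS (nx1 1 (cell W)) + bS (nx1 5 (cell W)) +
      bS (nx2 1 (cell W)) + bS (nx2 5 (cell W)) ≤ 6 * gS (cell W) + 11916 := by exact_mod_cast t
  push_cast at a0 a1 b0 b1 c0 c1
  show US (join W (0, (1, 1))) + US (join W (0, (1, 5))) + US (join W (1, (1, 1))) + US (join W (1, (1, 5))) +
    US (join W (2, (1, 1))) + US (join W (2, (1, 5))) ≤ _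
  linarith

theorem FS_far {W : Load} {m : Fin 3} (hm : mn W = W m) (hG : ∀ j, j ≠ m → W m + 7 ≤ W j) :
    ∑ o, FS (join W (mk rA o)) ≤ 6 * FS W + 9 := by
  rw [sum6 _ m]
  obtain ⟨a1, a2⟩ := join_gap_l (by norm_num) hm hG 1
  obtain ⟨a3, a4⟩ := join_gap_l (by norm_num) hm hG 5
  obtain ⟨c1, c2⟩ := join_gap_r (by norm_num) hm hG (q := 1) (by norm_num)
  obtain ⟨c3, c4⟩ := join_gap_r (by norm_num) hm hG (q := 5) (by norm_num)
  obtain ⟨d, _, d2, d3, d4, _⟩ := join_facts W (m + 1) (q := 1) le_rfl
  obtain ⟨e, _, e2, e3, e4, _⟩ := join_facts W (m + 1) (q := 5) (by norm_num)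
  rw [min_eq_left (by norm_num)] at c2 c4
  show FS (join W (m, (1, 1))) + FS (join W (m, (1, 5))) + FS (join W (m + 1, (1, 1))) +
    FS (join W (m + 1, (1, 5))) + FS (join W (m + 2, (1, 1))) + FS (join W (m + 2, (1, 5))) ≤ _
  unfold FS
  linarith

def GoodS (W : Load) : Prop :=
  (∀ i, 0 ≤ W i) ∧ (∀ i j, i ≠ j → 0 < W i → 0 < W j → NI (W i - W j)) ∧ Near 5 W

theorem GoodS_out {W : Load} (hW : GoodS W) (hb : ∃ i, 20 ≤ W i) (h : ¬ nS (cell W) = true) :
    ∃ m, mn W = W m ∧ ∀ j, j ≠ m → W m + 7 ≤ W j := by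
  by_cases hbox : box 12 (cell W)
  · exfalso
    obtain ⟨i, hi⟩ := hb
    have p0 := box_spread (by norm_num) hbox i 0
    have p1 := box_spread (by norm_num) hbox i 1
    push_cast at p0 p1
    rcases rg_cases W with h1 | h1 | h1
    · exact h ((nS_iff _).2 ⟨hbox, Or.inl h1⟩)
    · exact h ((nS_iff _).2 ⟨hbox, Or.inr h1⟩)
    · exact hW.2.1 0 1 (by decide) (by linarith) (by linarith) _ h1
  · have h1 := nobox_spread hbox
    push_cast at h1
    obtain ⟨m, hm, hG⟩ := gap_of (b := 5) (R := 12) (by norm_num) (by norm_num) hW.2.2 h1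
    exact ⟨m, hm, fun j hj => by linarith [hG j hj]⟩

theorem US_drift {W : Load} (hW : GoodS W) (hb : ∃ i, 20 ≤ W i) :
    ∑ o, US (join W (mk rA o)) ≤ 6 * US W + 11916 / 1000 := by
  by_cases h : nS (cell W) = true
  · exact US_near h
  · obtain ⟨m, hm, hG⟩ := GoodS_out hW hb h
    have h1 := FS_far hm hG
    have h2 : ∑ o, US (join W (mk rA o)) ≤ ∑ o, FS (join W (mk rA o)) :=
      Finset.sum_le_sum (fun o _ => (US_F _).2)
    rw [US_out h]; linarith

theorem US_inc (W : Load) (o : Fin 3 × Fin 2) : |US (join W (mk rA o)) - US W| ≤ 2610 := by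
  obtain ⟨d, d1, d2, d3, d4, d5⟩ := join_facts W o.1 (rA_bd o.2).1
  have d6 := (rA_bd o.2).2
  have h1 := US_F W
  have h2 := US_F (join W (mk rA o))
  have e : mk rA o = (o.1, (1, rA o.2)) := rfl
  rw [← e] at d3 d4 d5
  unfold FS at h1 h2
  rw [abs_le]
  constructor <;> linarith [h1.1, h1.2, h2.1, h2.2]

theorem GoodS_drain {W : Load} (hW : GoodS W) {s : ℝ} (hs : 0 ≤ s) : GoodS (drain W s) := by
  obtain ⟨h0, hg, hst⟩ := hW
  refine ⟨fun i => le_max_right _ _, ?_, Near_drain (by norm_num) hst s⟩
  intro i j hij hi hj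
  have e : ∀ i, 0 < drain W s i → drain W s i = W i - s ∧ 0 < W i := by
    intro i hi
    unfold drain at hi ⊢
    rcases lt_max_iff.1 hi with h | h
    · exact ⟨max_eq_left h.le, by linarith⟩
    · exact absurd h (lt_irrefl _)
  rw [(e i hi).1, (e j hj).1, show W i - s - (W j - s) = W i - W j by ring]
  exact hg i j hij (e i hi).2 (e j hj).2

theorem GoodS_join {W : Load} (hW : GoodS W) (hni : ∀ i, 0 < W i → NI (W i)) (o : Fin 3 × Fin 2) :
    GoodS (join W (mk rA o)) := by
  obtain ⟨h0, hg, hst⟩ := hW
  have key : ∀ (p : Fin 3) (q : ℤ), 0 ≤ (q:ℝ) →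
      (∀ i, 0 ≤ Function.update W p (W p + q) i) ∧ (∀ i j, i ≠ j → 0 < Function.update W p (W p + q) i →
        0 < Function.update W p (W p + q) j →
        NI (Function.update W p (W p + q) i - Function.update W p (W p + q) j)) := by
    intro p q hq1
    have hpair : ∀ j, j ≠ p → 0 < W j → NI (W p + q - W j) := by
      intro j hj hjpos
      rcases (h0 p).eq_or_lt with h | h
      · intro n hn
        apply hni j hjpos (q - n)
        rw [← h] at hn
        push_cast; linarith
      · intro n hn
        apply hg p j hj.symm h hjpos (n - q)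
        push_cast; linarith
    refine ⟨?_, ?_⟩
    · intro i
      by_cases hi : i = p
      · subst hi; rw [Function.update_self]; linarith [h0 i]
      · rw [Function.update_of_ne hi]; exact h0 i
    · intro i j hij hi hj
      by_cases hip : i = p
      · subst hip
        rw [Function.update_self] at hi ⊢
        rw [Function.update_of_ne hij.symm] at hj ⊢
        exact hpair j hij.symm hj
      · rw [Function.update_of_ne hip] at hi ⊢
        by_cases hjp : j = p
        · subst hjp
          rw [Function.update_self]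
          have := NI_neg (hpair i hip hi)
          rwa [show -(W j + q - W i) = W i - (W j + q) by ring] at this
        · rw [Function.update_of_ne hjp] at hj ⊢
          exact hg i j hij hi hj
  have hN : Near 5 (join W (mk rA o)) := Near_join hst o.1 (rA_bd o.2).1 (rA_bd o.2).2
  have e : mk rA o = (o.1, (1, rA o.2)) := rfl
  rw [e] at hN ⊢
  by_cases h : W o.1 < W (o.1 + 1)
  · rw [join_l _ _ h] at hN ⊢
    have := key o.1 1 (by norm_num)
    push_cast at this
    exact ⟨this.1, this.2, hN⟩
  · rw [join_r _ _ h] at hN ⊢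
    obtain ⟨q, hq⟩ := rA_int o.2
    have := key (o.1 + 1) q (by rw [← hq]; linarith [(rA_bd o.2).1])
    rw [← hq] at this
    exact ⟨this.1, this.2, hN⟩

theorem GoodS_zero : GoodS 0 := by
  refine ⟨fun i => le_rfl, ?_, ?_⟩
  · intro i j _ hi; exact absurd hi (lt_irrefl _)
  · intro i
    refine ⟨i + 1, by fin_cases i <;> decide, by simp⟩

theorem GoodS_ae {lam : ℝ} (hl : 0 < lam) {W : Load} (hW : GoodS W) :
    ∀ᵐ z ∂(kp lam rA), GoodS (join (drain W z.1) z.2) := by
  filter_upwards [ae_gen (r := rA) hl W] with z hz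
  obtain ⟨h1, ⟨o, ho⟩, h3⟩ := hz
  rw [ho]
  apply GoodS_join (GoodS_drain hW h1.le)
  intro i hi
  unfold drain at hi ⊢
  rcases lt_max_iff.1 hi with h | h
  · rw [max_eq_left h.le]; exact h3 i
  · exact absurd h (lt_irrefl _)

theorem US_drain {W : Load} (hW : GoodS W) {s : ℝ} (hs : 0 ≤ s) (h : ∃ i, 20 ≤ W i - s) :
    US (drain W s) ≤ US W - 3 * s := by
  obtain ⟨i, hi⟩ := h
  by_cases hn : nS (cell W) = true
  · have hall : ∀ j, s ≤ W j := by
      intro j
      have := box_spread (by norm_num) ((nS_iff _).1 hn).1 i j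
      push_cast at this
      linarith
    rw [drain_eq_sub hall]
    have hn' : nS (cell (fun i => W i - s)) = true := by rw [cell_sub]; exact hn
    rw [US_in hn', US_in hn, cell_sub, sm_sub]
    linarith
  · rw [US_out hn]
    refine (US_F _).2.trans ?_
    obtain ⟨m, hm, hG⟩ := GoodS_out hW ⟨i, by linarith⟩ hn
    obtain ⟨M, hM⟩ := ex_max W
    obtain ⟨j, hj, hj2⟩ := hW.2.2 M
    have hbig : ∀ a, a ≠ m → s ≤ W a := by
      intro a ha
      have hMm : M ≠ m := by
        intro e
        have := hG a ha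
        have := hM a
        rw [e] at this
        linarith
      have hjm : j ≠ m := by
        intro e
        have := hG M hMm
        rw [e] at hj2
        linarith
      have : a = M ∨ a = j := by
        revert ha hjm hMm hj
        generalize a = a'
        generalize j = b'
        generalize M = c
        generalize m = d
        revert a' b' c d
        decide
      rcases this with e | e
      · rw [e]; linarith [hM i]
      · rw [e]; linarith [hM i]
    have hd : ∀ a, a ≠ m → drain W s a = W a - s := by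
      intro a ha
      unfold drain
      exact max_eq_left (by linarith [hbig a ha])
    have hmn : drain W s m ≤ mn (drain W s) := by
      apply le_mn
      intro a
      by_cases ha : a = m
      · rw [ha]
      · unfold drain
        apply max_le_max _ le_rfl
        linarith [hG a ha]
    have hsm : sm (drain W s) - drain W s m = sm W - W m - 2 * s := by
      unfold sm
      fin_cases m
      · have h1 := hd 1 (by decide)
        have h2 := hd 2 (by decide)
        show drain W s 0 + drain W s 1 + drain W s 2 - drain W s 0 = W 0 + W 1 + W 2 - W 0 - 2 * s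
        linarith
      · have h1 := hd 0 (by decide)
        have h2 := hd 2 (by decide)
        show drain W s 0 + drain W s 1 + drain W s 2 - drain W s 1 = W 0 + W 1 + W 2 - W 1 - 2 * s
        linarith
      · have h1 := hd 0 (by decide)
        have h2 := hd 1 (by decide)
        show drain W s 0 + drain W s 1 + drain W s 2 - drain W s 2 = W 0 + W 1 + W 2 - W 2 - 2 * s
        linarith
    unfold FS
    linarith

theorem US_small {W : Load} (h0 : ∀ i, 0 ≤ W i) (h : ∀ i, W i ≤ 20) :
    US W ≤ 100 ∧ ∀ o, US (join W (mk rA o)) ≤ 100 := by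
  have hm : 0 ≤ mn W := le_mn h0
  have hs : sm W ≤ 60 := by unfold sm; linarith [h 0, h 1, h 2]
  constructor
  · have := (US_F W).2
    unfold FS at this
    linarith
  · intro o
    obtain ⟨d, d1, d2, d3, d4, d5⟩ := join_facts W o.1 (rA_bd o.2).1
    have d6 := (rA_bd o.2).2
    have e : mk rA o = (o.1, (1, rA o.2)) := rfl
    rw [← e] at d3 d4 d5
    have := (US_F (join W (mk rA o))).2
    unfold FS at this
    linarith

theorem US_coord {W : Load} (hW : GoodS W) (i : Fin 3) : 3 * W i ≤ US W + 2610 := by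
  obtain ⟨j, hj, hj2⟩ := hW.2.2 i
  have h1 := (US_F W).1
  have h2 : W i + W j ≤ sm W - mn W := by
    have m0 := mn_le W 0
    have m1 := mn_le W 1
    have m2 := mn_le W 2
    unfold sm
    fin_cases i <;> fin_cases j <;>
      first
        | exact absurd rfl hj
        | (simp only [Fin.zero_eta, Fin.mk_one, Fin.reduceFinMk, Fin.isValue]; linarith)
  unfold FS at h1
  linarith

noncomputable def thS : ℝ := 1 / 10000000000

theorem thS_pos : 0 < thS := by unfold thS; norm_num

noncomputable def aaS : ℝ := 1986 / 1000 * thS + 6812100 * thS ^ 2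

theorem VS_drain {W : Load} (hW : GoodS W) {s : ℝ} (hs : 0 ≤ s) :
    Real.exp (thS * US (drain W s)) ≤
      Real.exp (-(3 * thS * s)) * Real.exp (thS * US W) + Real.exp (thS * 100) := by
  have hth := thS_pos
  by_cases h : ∃ i, 20 ≤ W i - s
  · have h1 := US_drain hW hs h
    rw [← Real.exp_add]
    have : Real.exp (thS * US (drain W s)) ≤ Real.exp (-(3 * thS * s) + thS * US W) := by
      apply Real.exp_le_exp.2
      nlinarith
    linarith [Real.exp_pos (thS * 100)]
  · push Not at h
    have h1 : ∀ i, drain W s i ≤ 20 := by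
      intro i; unfold drain
      exact max_le (h i).le (by norm_num)
    have h2 := (US_small (W := drain W s) (fun i => le_max_right _ _) h1).1
    have h3 : Real.exp (thS * US (drain W s)) ≤ Real.exp (thS * 100) := by
      apply Real.exp_le_exp.2
      exact mul_le_mul_of_nonneg_left h2 hth.le
    have := mul_pos (Real.exp_pos (-(3 * thS * s))) (Real.exp_pos (thS * US W))
    linarith

theorem VS_join {W : Load} (hW : GoodS W) {s : ℝ} (hs : 0 ≤ s) :
    Av rA (fun k => Real.exp (thS * US (join (drain W s) k))) ≤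
      (1 + aaS) * (Real.exp (-(3 * thS * s)) * Real.exp (thS * US W)) + Real.exp (thS * 100) := by
  have hth := thS_pos
  have haa : 0 < aaS := by unfold aaS; positivity
  by_cases h : ∃ i, 20 ≤ W i - s
  · have hG := GoodS_drain hW hs
    have h1 := US_drain hW hs h
    obtain ⟨i, hi⟩ := h
    have hd := US_drift hG ⟨i, by unfold drain; exact le_trans hi (le_max_left _ _)⟩
    set Y := drain W s with hY
    have hU : Real.exp (thS * US Y) ≤ Real.exp (-(3 * thS * s)) * Real.exp (thS * US W) := by
      rw [← Real.exp_add]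
      apply Real.exp_le_exp.2
      nlinarith
    set E := Real.exp (thS * US Y) with hE
    have hE0 : 0 < E := Real.exp_pos _
    have hc : ∀ o, Real.exp (thS * US (join Y (mk rA o))) ≤
        (E * thS) * US (join Y (mk rA o)) + E * (1 - thS * US Y + thS ^ 2 * 6812100) := by
      intro o
      have hinc := US_inc Y o
      set D := US (join Y (mk rA o)) - US Y with hD
      have e : Real.exp (thS * US (join Y (mk rA o))) = E * Real.exp (thS * D) := by
        rw [hE, ← Real.exp_add]; congr 1; rw [hD]; ring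
      have hu : |thS * D| ≤ 1 := by
        rw [abs_mul, abs_of_pos hth]
        calc thS * |D| ≤ thS * 2610 := by gcongr
          _ ≤ 1 := by unfold thS; norm_num
      have h1 := exp_quad hu
      have h2 : (thS * D) ^ 2 ≤ thS ^ 2 * 6812100 := by
        rw [mul_pow]
        apply mul_le_mul_of_nonneg_left _ (by positivity)
        rw [← sq_abs]
        nlinarith [abs_nonneg D]
      have h3 : E * Real.exp (thS * D) ≤ E * (1 + thS * D + thS ^ 2 * 6812100) :=
        mul_le_mul_of_nonneg_left (by linarith) hE0.le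
      rw [e]
      refine h3.trans (le_of_eq ?_)
      rw [hD]; ring
    have h4 := Av_mono (r := rA) (f := fun k => Real.exp (thS * US (join Y k)))
      (g := fun k => (E * thS) * US (join Y k) + E * (1 - thS * US Y + thS ^ 2 * 6812100)) hc
    rw [Av_affine] at h4
    have h5 : Av rA (fun k => US (join Y k)) ≤ US Y + 1986 / 1000 := by
      unfold Av; linarith
    have h6 : E * thS * Av rA (fun k => US (join Y k)) ≤ E * thS * (US Y + 1986 / 1000) :=
      mul_le_mul_of_nonneg_left h5 (by positivity)
    have h7 : E * thS * (US Y + 1986 / 1000) + E * (1 - thS * US Y + thS ^ 2 * 6812100) = (1 + aaS) * E := by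
      unfold aaS; ring
    have h8 : (1 + aaS) * E ≤ (1 + aaS) * (Real.exp (-(3 * thS * s)) * Real.exp (thS * US W)) :=
      mul_le_mul_of_nonneg_left hU (by linarith)
    linarith [Real.exp_pos (thS * 100)]
  · push Not at h
    have h1 : ∀ i, drain W s i ≤ 20 := by
      intro i; unfold drain
      exact max_le (h i).le (by norm_num)
    have h2 := (US_small (W := drain W s) (fun i => le_max_right _ _) h1).2
    have h4 := Av_mono (r := rA) (f := fun k => Real.exp (thS * US (join (drain W s) k)))
      (g := fun _ => 0 * (0:ℝ) + Real.exp (thS * 100)) (fun o => by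
        rw [zero_mul, zero_add]
        apply Real.exp_le_exp.2
        exact mul_le_mul_of_nonneg_left (h2 o) hth.le)
    rw [Av_affine (fun _ => (0:ℝ))] at h4
    have : 0 ≤ (1 + aaS) * (Real.exp (-(3 * thS * s)) * Real.exp (thS * US W)) := by positivity
    linarith

noncomputable def lam1 : ℝ := 1507 / 1000

theorem lam1_pos : 0 < lam1 := by unfold lam1; norm_num

noncomputable def sdA : SD lam1 rA where
  Good := GoodS
  U := US
  th := thS
  aa := aaS
  K1 := Real.exp (thS * 100)
  cc := 2610
  th_pos := thS_pos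
  aa_pos := by unfold aaS; have := thS_pos; positivity
  K1_pos := Real.exp_pos _
  cc_nonneg := by norm_num
  mU := measurable_Pot _ _ _ _
  g0 := GoodS_zero
  gnn := fun _ h => h.1
  gdrain := fun _ h _ hs => GoodS_drain h hs
  gae := fun _ h => GoodS_ae lam1_pos h
  vdrain := fun _ h _ hs => VS_drain h hs
  vjoin := fun _ h _ hs => VS_join h hs
  coord := fun _ h i => US_coord h i

theorem stableA : ∃ π : Measure Load, IsProbabilityMeasure π ∧ π {x | ∀ i, 0 ≤ x i} = 1 ∧
    ∀ g : Load →ᵇ ℝ, Tendsto (fun t : ℝ => ∫ ω, g (gW drain join 0 ω t) ∂(PQ lam1 rA)) atTop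
      (𝓝 (∫ x, g x ∂π)) :=
  stable_convQ sdA lam1_pos (by
    show lam1 * aaS < 3 * thS
    unfold lam1 aaS thS; norm_num)

end Pool.Agent.H820Z.Tq
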