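import Pool.Agent.H820Z.Tq7
import Pool.Agent.H820Z.Tq5
open MeasureTheory ProbabilityTheory Filter Topology Set
open scoped ENNReal NNReal BoundedContinuousFunction

set_option linter.unusedSectionVars false
namespace Pool.Agent.H820Z.Tq
open Pool.Agent.Helper52.Tri

def rB : Fin 2 → ℝ := ![3, 3]

theorem rB_eq (j : Fin 2) : rB j = 3 := by fin_cases j <;> rfl

theorem mkB (o : Fin 3 × Fin 2) : mk rB o = (o.1, (1, 3)) := by
  unfold mk; rw [rB_eq]

noncomputable def UB : Load → ℝ := Pot nU gU (-1) (-156)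

theorem UB_in {W : Load} (h : nU (cell W) = true) : UB W = sm W + (gU (cell W) : ℝ) / 1000 := by
  unfold UB Pot; rw [if_pos h]

theorem UB_out {W : Load} (h : ¬ nU (cell W) = true) : UB W = 3 * mn W - 156 := by
  unfold UB Pot; rw [if_neg h]; ring

theorem UB_F (W : Load) : 3 * mn W - 156 ≤ UB W ∧ UB W ≤ 3 * mn W := by
  by_cases h : nU (cell W) = true
  · rw [UB_in h]
    obtain ⟨_, t2, t3⟩ := tabU h
    have t2' : -1000 * ((Mx (cell W) : ℝ) - 1) - 156000 ≤ gU (cell W) := by exact_mod_cast t2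
    have t3' : (gU (cell W) : ℝ) ≤ -1000 * (Mx (cell W) + 1) := by exact_mod_cast t3
    obtain ⟨s1, s2⟩ := Sp_bd W
    constructor <;> linarith
  · rw [UB_out h]; constructor <;> linarith

theorem UB_ge_b {W W' : Load} {p : ℤ × Cell} (h : cell W' = p.2 ∧ sm W' = sm W + p.1) :
    sm W + (bU p : ℝ) / 1000 ≤ UB W' := by
  obtain ⟨h1, h2⟩ := h
  unfold bU
  rw [← h1]
  by_cases h : nU (cell W') = true
  · rw [UB_in h, if_pos h, h2]; push_cast; linarith
  · rw [UB_out h, if_neg h]
    obtain ⟨s1, s2⟩ := Sp_bd W'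
    push_cast; linarith

def LatB (W : Load) : Prop := rg (cell W) = -1 ∧ Near 3 W

theorem UB_drift {W : Load} (hW : LatB W) : 6 * UB W + 11976 / 1000 ≤ ∑ o, UB (join W (mk rB o)) := by
  simp only [mkB]
  by_cases h : nU (cell W) = true
  · rw [sum6 _ 0, UB_in h]
    have a0 := UB_ge_b (join0 W 3)
    have b0 := UB_ge_b (join1 W 3)
    have c0 := UB_ge_b (join2 W 3)
    have t := (tabU h).1
    have t' : 6 * (gU (cell W) : ℝ) + 11976 ≤
        2 * (bU (nx0 3 (cell W)) + bU (nx1 3 (cell W)) + bU (nx2 3 (cell W))) := by exact_mod_cast t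
    push_cast at a0 b0 c0
    show _ ≤ UB (join W (0, (1, 3))) + UB (join W (0, (1, 3))) + UB (join W (1, (1, 3))) +
      UB (join W (1, (1, 3))) + UB (join W (2, (1, 3))) + UB (join W (2, (1, 3)))
    linarith
  · have hbox : ¬ box 10 (cell W) := fun hb => h ((nU_iff _).2 ⟨hb, hW.1⟩)
    have h1 := nobox_spread hbox
    push_cast at h1
    obtain ⟨m, hm, hG⟩ := gap_of (b := 3) (R := 10) (by norm_num) (by norm_num) hW.2 h1
    rw [sum6 _ m, UB_out h]
    obtain ⟨_, a2⟩ := join_gap_l (by norm_num) hm hG 3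
    obtain ⟨_, c2⟩ := join_gap_r (by norm_num) hm hG (q := 3) (by norm_num)
    obtain ⟨d, _, _, _, d4, _⟩ := join_facts W (m + 1) (q := 3) (by norm_num)
    rw [min_eq_left (by norm_num)] at c2
    have f1 := (UB_F (join W (m, (1, 3)))).1
    have f2 := (UB_F (join W (m + 1, (1, 3)))).1
    have f3 := (UB_F (join W (m + 2, (1, 3)))).1
    dsimp only
    linarith

theorem UB_inc (W : Load) (o : Fin 3 × Fin 2) : |UB (join W (mk rB o)) - UB W| ≤ 165 := by
  rw [mkB]
  obtain ⟨d, d1, d2, d3, d4, d5⟩ := join_facts W o.1 (q := 3) (by norm_num)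
  have h1 := UB_F W
  have h2 := UB_F (join W (o.1, (1, 3)))
  rw [abs_le]
  constructor <;> linarith [h1.1, h1.2, h2.1, h2.2]

theorem LatB_join {W : Load} (hW : LatB W) (o : Fin 3 × Fin 2) : LatB (join W (mk rB o)) := by
  rw [mkB]
  refine ⟨?_, Near_join hW.2 o.1 (by norm_num) le_rfl⟩
  have h := hW.1
  obtain ⟨c, j⟩ := o
  fin_cases c
  · have e := (join0 W 3).1
    push_cast at e
    show rg (cell (join W (0, (1, 3)))) = -1
    rw [e]; unfold nx0 rg at *; split_ifs <;> dsimp only <;> omega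
  · have e := (join1 W 3).1
    push_cast at e
    show rg (cell (join W (1, (1, 3)))) = -1
    rw [e]; unfold nx1 rg at *; split_ifs <;> dsimp only <;> omega
  · have e := (join2 W 3).1
    push_cast at e
    show rg (cell (join W (2, (1, 3)))) = -1
    rw [e]; unfold nx2 rg at *; split_ifs <;> dsimp only <;> omega

theorem LatB_sub {W : Load} (hW : LatB W) {s : ℝ} (h : ∀ i, s ≤ W i) :
    LatB (drain W s) ∧ UB (drain W s) = UB W - 3 * s := by
  refine ⟨⟨?_, Near_drain (by norm_num) hW.2 s⟩, ?_⟩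
  · rw [drain_eq_sub h, cell_sub]; exact hW.1
  · rw [drain_eq_sub h]
    unfold UB Pot
    rw [cell_sub, sm_sub, mn_sub]
    split_ifs <;> ring

noncomputable def phB : ℝ := 1 / 10000000

theorem phB_pos : 0 < phB := by unfold phB; norm_num

noncomputable def apB : ℝ := 1996 / 1000 * phB - 27225 * phB ^ 2

theorem LatB_avg {W : Load} (hW : LatB W) :
    Av rB (fun k => Real.exp (-(phB * UB (join W k)))) ≤ (1 - apB) * Real.exp (-(phB * UB W)) := by
  have hd := UB_drift hW
  have hph := phB_pos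
  set E := Real.exp (-(phB * UB W)) with hE
  have hE0 : 0 < E := Real.exp_pos _
  have hc : ∀ o, Real.exp (-(phB * UB (join W (mk rB o)))) ≤
      (-(E * phB)) * UB (join W (mk rB o)) + E * (1 + phB * UB W + phB ^ 2 * 27225) := by
    intro o
    have hinc := UB_inc W o
    set D := UB (join W (mk rB o)) - UB W with hD
    have e : Real.exp (-(phB * UB (join W (mk rB o)))) = E * Real.exp (-(phB * D)) := by
      rw [hE, ← Real.exp_add]; congr 1; rw [hD]; ring
    have hu : |(-(phB * D))| ≤ 1 := by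
      rw [abs_neg, abs_mul, abs_of_pos hph]
      calc phB * |D| ≤ phB * 165 := by gcongr
        _ ≤ 1 := by unfold phB; norm_num
    have h1 := exp_quad hu
    have h2 : (-(phB * D)) ^ 2 ≤ phB ^ 2 * 27225 := by
      rw [neg_sq, mul_pow]
      apply mul_le_mul_of_nonneg_left _ (by positivity)
      rw [← sq_abs]
      nlinarith [abs_nonneg D]
    have h3 : E * Real.exp (-(phB * D)) ≤ E * (1 + -(phB * D) + phB ^ 2 * 27225) :=
      mul_le_mul_of_nonneg_left (by linarith) hE0.le
    rw [e]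
    refine h3.trans (le_of_eq ?_)
    rw [hD]; ring
  have h4 := Av_mono (r := rB) (f := fun k => Real.exp (-(phB * UB (join W k))))
    (g := fun k => (-(E * phB)) * UB (join W k) + E * (1 + phB * UB W + phB ^ 2 * 27225)) hc
  rw [Av_affine] at h4
  have h5 : UB W + 1996 / 1000 ≤ Av rB (fun k => UB (join W k)) := by
    unfold Av; linarith
  have h6 : E * phB * (UB W + 1996 / 1000) ≤ E * phB * Av rB (fun k => UB (join W k)) :=
    mul_le_mul_of_nonneg_left h5 (by positivity)
  have h7 : -(E * phB * (UB W + 1996 / 1000)) + E * (1 + phB * UB W + phB ^ 2 * 27225) = (1 - apB) * E := by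
    unfold apB; ring
  linarith

theorem LatB_up {W : Load} (hW : LatB W) : ∃ o, UB W + 1 ≤ UB (join W (mk rB o)) := by
  by_contra hcon
  push Not at hcon
  have h1 := UB_drift hW
  rw [sum6 _ 0] at h1
  linarith [hcon (0, 0), hcon (0, 1), hcon (0 + 1, 0), hcon (0 + 1, 1), hcon (0 + 2, 0), hcon (0 + 2, 1)]

noncomputable def udB : UD lam1 rB where
  Lat := LatB
  U := UB
  ph := phB
  dd := 1 / 10000000000
  ap := apB
  ph_pos := phB_pos
  dd_pos := by norm_num
  lam_pos := lam1_pos
  ap_lt := by unfold apB phB; norm_num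
  rate := by unfold lam1 apB phB; norm_num
  mU := measurable_Pot _ _ _ _
  ule := fun W _ i => by linarith [(UB_F W).2, mn_le W i]
  lsub := fun _ h _ hs => LatB_sub h hs
  ljoin := fun _ h o => LatB_join h o
  avg := fun _ h => LatB_avg h
  up := fun _ h => LatB_up h

theorem escB3 : Esc lam1 rB {W | LatB W ∧ ∀ i, 1 ≤ W i} := by
  refine (esc_low udB (fun j => by rw [rB_eq]; norm_num) 156).mono ?_
  intro W hW
  refine ⟨hW.1, ?_, hW.2⟩
  have h1 := (UB_F W).1
  have h2 : 1 ≤ mn W := le_mn hW.2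
  show -156 ≤ UB W
  linarith

theorem escB2 : Esc lam1 rB {W | W 0 = 0 ∧ W 1 = 3 ∧ 11 / 4 ≤ W 2 ∧ W 2 < 3} := by
  refine escB3.step lam1_pos (ε := 1 / 4) (by norm_num) ?_
  rintro x ⟨h0, h1, h2, h3⟩
  refine ⟨(2, 0), fun s hs => ?_⟩
  obtain ⟨s0, s1⟩ := hs
  have d0 : drain x s 0 = 0 := by unfold drain; rw [h0]; exact max_eq_right (by linarith)
  have d1 : drain x s 1 = 3 - s := by unfold drain; rw [h1]; exact max_eq_left (by linarith)
  have d2 : drain x s 2 = x 2 - s := by unfold drain; exact max_eq_left (by linarith)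
  rw [mkB, join_r _ _ (show ¬ drain x s 2 < drain x s (2 + 1) by
    show ¬ drain x s 2 < drain x s 0; rw [d0, d2]; linarith)]
  set Y := Function.update (drain x s) (((2, 0) : Fin 3 × Fin 2).1 + 1)
    (drain x s (((2, 0) : Fin 3 × Fin 2).1 + 1) + 3) with hY
  have y0 : Y 0 = 3 := by
    show Function.update (drain x s) 0 (drain x s 0 + 3) 0 = 3
    rw [Function.update_self, d0]; ring
  have y1 : Y 1 = 3 - s := by
    show Function.update (drain x s) 0 (drain x s 0 + 3) 1 = _
    rw [Function.update_of_ne (by decide), d1]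
  have y2 : Y 2 = x 2 - s := by
    show Function.update (drain x s) 0 (drain x s 0 + 3) 2 = _
    rw [Function.update_of_ne (by decide), d2]
  have hall : ∀ i, 5 / 2 ≤ Y i ∧ Y i ≤ 3 := by
    intro i
    fin_cases i
    · show 5 / 2 ≤ Y 0 ∧ Y 0 ≤ 3; rw [y0]; constructor <;> linarith
    · show 5 / 2 ≤ Y 1 ∧ Y 1 ≤ 3; rw [y1]; constructor <;> linarith
    · show 5 / 2 ≤ Y 2 ∧ Y 2 ≤ 3; rw [y2]; constructor <;> linarith
  refine ⟨⟨?_, ?_⟩, fun i => by linarith [(hall i).1]⟩
  · have e0 : ⌊Y 0 - Y 1⌋ = 0 := by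
      rw [Int.floor_eq_iff, y0, y1]; push_cast; constructor <;> linarith
    have e1 : ⌊Y 1 - Y 2⌋ = 0 := by
      rw [Int.floor_eq_iff, y1, y2]; push_cast; constructor <;> linarith
    have e2 : ⌊Y 2 - Y 0⌋ = -1 := by
      rw [Int.floor_eq_iff, y2, y0]; push_cast; constructor <;> linarith
    unfold rg cell
    dsimp only
    rw [e0, e1, e2]; rfl
  · intro i
    refine ⟨i + 1, by fin_cases i <;> decide, ?_⟩
    linarith [(hall i).2, (hall (i + 1)).1]

theorem escB1 : Esc lam1 rB {W | W 0 = 0 ∧ W 1 = 0 ∧ W 2 = 3} := by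
  refine escB2.step lam1_pos (ε := 1 / 4) (by norm_num) ?_
  rintro x ⟨h0, h1, h2⟩
  refine ⟨(0, 0), fun s hs => ?_⟩
  obtain ⟨s0, s1⟩ := hs
  have d0 : drain x s 0 = 0 := by unfold drain; rw [h0]; exact max_eq_right (by linarith)
  have d1 : drain x s 1 = 0 := by unfold drain; rw [h1]; exact max_eq_right (by linarith)
  have d2 : drain x s 2 = 3 - s := by unfold drain; rw [h2]; exact max_eq_left (by linarith)
  rw [mkB, join_r _ _ (show ¬ drain x s 0 < drain x s (0 + 1) by
    show ¬ drain x s 0 < drain x s 1; rw [d0, d1]; exact lt_irrefl _)]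
  refine ⟨?_, ?_, ?_, ?_⟩
  · show Function.update (drain x s) 1 (drain x s 1 + 3) 0 = 0
    rw [Function.update_of_ne (by decide), d0]
  · show Function.update (drain x s) 1 (drain x s 1 + 3) 1 = 3
    rw [Function.update_self, d1]; ring
  · show 11 / 4 ≤ Function.update (drain x s) 1 (drain x s 1 + 3) 2
    rw [Function.update_of_ne (by decide), d2]; linarith
  · show Function.update (drain x s) 1 (drain x s 1 + 3) 2 < 3
    rw [Function.update_of_ne (by decide), d2]; linarith

theorem escB0 : Esc lam1 rB {0} := by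
  refine escB1.step lam1_pos (ε := 1 / 4) (by norm_num) ?_
  intro x hx
  rw [mem_singleton_iff] at hx
  subst hx
  refine ⟨(1, 0), fun s hs => ?_⟩
  obtain ⟨s0, s1⟩ := hs
  have d : ∀ i, drain (0 : Load) s i = 0 := by
    intro i; unfold drain; exact max_eq_right (by simp; linarith)
  rw [mkB, join_r _ _ (show ¬ drain (0 : Load) s 1 < drain (0 : Load) s (1 + 1) by rw [d, d]; exact lt_irrefl _)]
  refine ⟨?_, ?_, ?_⟩
  · show Function.update (drain (0 : Load) s) 2 (drain (0 : Load) s 2 + 3) 0 = 0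
    rw [Function.update_of_ne (by decide), d]
  · show Function.update (drain (0 : Load) s) 2 (drain (0 : Load) s 2 + 3) 1 = 0
    rw [Function.update_of_ne (by decide), d]
  · show Function.update (drain (0 : Load) s) 2 (drain (0 : Load) s 2 + 3) 2 = 3
    rw [Function.update_self, d]; ring

theorem unstableB : ¬ ∃ π : Measure Load, IsProbabilityMeasure π ∧
    ∀ g : Load →ᵇ ℝ, Tendsto (fun t : ℝ => ∫ ω, g (gW drain join 0 ω t) ∂(PQ lam1 rB)) atTop
      (𝓝 (∫ x, g x ∂π)) := not_convQ lam1_pos escB0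

end Pool.Agent.H820Z.Tq
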